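import Pool.Agent.AAS.Defs
import Pool.Agent.AAS.Vand
import Pool.Agent.AAS.Sort
import Pool.Agent.TW.LinkT
import Pool.Agent.SST.ProxDefsK
import Pool.Agent.SST.KAux

/-!
# Every point gives a form in one of finitely many boxes
-/

set_option autoImplicit false

open NumberField Module Pool.Agent.SST Pool.Agent.RefW Pool.Agent.AAS Polynomial

namespace Pool.Agent.TW

/-- The choice of the mesh points. -/
private theorem point_core {ι : Type} [Fintype ι] {n R : ℕ} (E : ι → Fin R → ℝ)
    (J : ι → Fin (n + 1) → Fin R) (hanti : ∀ l, Antitone fun i => E l (J l i)) (δ : ℝ)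
    (hδ : 0 ≤ δ) (hlast : ∀ l, E l (J l (Fin.last n)) ≤ δ)
    (hun : ∀ l j, (∀ i, J l i ≠ j) → E l j ≤ δ) (A m η : ℝ) (hm : 0 < m) (hmη : m ≤ η)
    (hA : 0 ≤ A) (hT : A - η ≤ (∑ l, ∑ j, E l j) -
      (Fintype.card ι : ℝ) * ((R : ℝ) * δ + ((n : ℝ) + 1) * m)) :
    ∃ γ : ι → Fin (n + 1) → ℕ, (∀ l, Antitone (γ l)) ∧ (∀ l, γ l (Fin.last n) = 0) ∧
      (∀ l i, γ l i ≤ ⌈A / m⌉₊) ∧ A - η ≤ ∑ l, ∑ i, m * (γ l i : ℝ) ∧
      ∀ l i, γ l i = 0 ∨ m * (γ l i : ℝ) ≤ E l (J l i) := by
  classical
  let γ : ι → Fin (n + 1) → ℕ := fun l i =>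
    if i = Fin.last n then 0 else ⌊min (max (E l (J l i)) 0) A / m⌋₊
  have hγ0 : ∀ l, γ l (Fin.last n) = 0 := fun l => if_pos rfl
  have hγ1 : ∀ l i, i ≠ Fin.last n → γ l i = ⌊min (max (E l (J l i)) 0) A / m⌋₊ :=
    fun l i h => if_neg h
  have hfl : ∀ y : ℝ, y - m ≤ m * (⌊y / m⌋₊ : ℝ) := by
    intro y
    have h1 := Nat.lt_floor_add_one (y / m)
    rw [div_lt_iff₀ hm] at h1
    linarith
  refine ⟨γ, ?_, hγ0, ?_, ?_, ?_⟩
  · intro l i j hij
    by_cases hj : j = Fin.last n
    · rw [hj, hγ0]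
      exact Nat.zero_le _
    · have hi : i ≠ Fin.last n := by
        rintro rfl
        exact hj (le_antisymm (Fin.le_last j) hij)
      rw [hγ1 l i hi, hγ1 l j hj]
      exact Nat.floor_le_floor (div_le_div_of_nonneg_right
        (min_le_min_right _ (max_le_max_right _ (hanti l hij))) hm.le)
  · intro l i
    by_cases hi : i = Fin.last n
    · rw [hi, hγ0]
      exact Nat.zero_le _
    · rw [hγ1 l i hi]
      refine (Nat.floor_le_floor (div_le_div_of_nonneg_right (min_le_right _ _) hm.le)).trans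
        (Nat.floor_le_ceil _)
  · by_cases hc : ∃ l i, i ≠ Fin.last n ∧ A ≤ E l (J l i)
    · obtain ⟨l, i, hi, hAE⟩ := hc
      have h1 : m * (γ l i : ℝ) ≤ ∑ l, ∑ i, m * (γ l i : ℝ) := by
        refine le_trans ?_ (Finset.single_le_sum (f := fun l => ∑ i, m * (γ l i : ℝ))
          (fun l _ => Finset.sum_nonneg fun i _ => by positivity) (Finset.mem_univ l))
        exact Finset.single_le_sum (f := fun i => m * (γ l i : ℝ))
          (fun i _ => by positivity) (Finset.mem_univ i)
      have h2 : min (max (E l (J l i)) 0) A = A := min_eq_right (hAE.trans (le_max_left _ _))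
      have h3 := hfl A
      rw [hγ1 l i hi, h2] at h1
      linarith
    · push Not at hc
      have h1 : ∀ l, ∑ j, E l j ≤ ∑ i, m * (γ l i : ℝ) + ((R : ℝ) * δ + ((n : ℝ) + 1) * m) := by
        intro l
        let f : Fin (n + 1) → ℝ := fun i => m * (γ l i : ℝ) + m
        have hf0 : ∀ i, 0 ≤ f i := fun i => by positivity
        have h2 : ∀ j, E l j ≤ (∑ i, if J l i = j then f i else 0) + δ := by
          intro j
          have h3 : 0 ≤ ∑ i, if J l i = j then f i else 0 :=
            Finset.sum_nonneg fun i _ => by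
              split_ifs
              · exact hf0 i
              · exact le_rfl
          by_cases hj : ∃ i, J l i = j
          · obtain ⟨i, hi⟩ := hj
            by_cases hil : i = Fin.last n
            · rw [← hi, hil]
              have := hlast l
              rw [← hi, hil] at h3
              linarith
            · have h4 : (if J l i = j then f i else 0) ≤ ∑ i, if J l i = j then f i else 0 :=
                Finset.single_le_sum (f := fun i => if J l i = j then f i else 0)
                  (fun i _ => by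
                    split_ifs
                    · exact hf0 i
                    · exact le_rfl) (Finset.mem_univ i)
              rw [if_pos hi] at h4
              have h5 : E l (J l i) ≤ f i := by
                have h6 : min (max (E l (J l i)) 0) A = max (E l (J l i)) 0 :=
                  min_eq_left (max_le (hc l i hil).le hA)
                have h7 := hfl (max (E l (J l i)) 0)
                have h8 : f i = m * (γ l i : ℝ) + m := rfl
                rw [h8, hγ1 l i hil, h6]
                have := le_max_left (E l (J l i)) 0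
                linarith
              rw [hi] at h5
              linarith
          · push Not at hj
            have := hun l j hj
            linarith
        have h3 : ∑ j, E l j ≤ ∑ j, ((∑ i, if J l i = j then f i else 0) + δ) :=
          Finset.sum_le_sum fun j _ => h2 j
        rw [Finset.sum_add_distrib, Finset.sum_comm] at h3
        have h4 : ∀ i, ∑ j : Fin R, (if J l i = j then f i else 0) = f i := by
          intro i
          rw [Finset.sum_ite_eq]
          simp
        simp only [h4, f, Finset.sum_add_distrib, Finset.sum_const, Finset.card_univ,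
          Fintype.card_fin, nsmul_eq_mul] at h3
        push_cast at h3
        linarith
      have h2 : ∑ l, ∑ j, E l j ≤
          ∑ l, (∑ i, m * (γ l i : ℝ) + ((R : ℝ) * δ + ((n : ℝ) + 1) * m)) :=
        Finset.sum_le_sum fun l _ => h1 l
      rw [Finset.sum_add_distrib, Finset.sum_const, Finset.card_univ, nsmul_eq_mul] at h2
      linarith
  · intro l i
    by_cases hi : i = Fin.last n
    · left
      rw [hi, hγ0]
    · by_cases h0 : γ l i = 0
      · exact Or.inl h0
      · right
        rw [hγ1 l i hi] at h0 ⊢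
        have h1 : 1 ≤ ⌊min (max (E l (J l i)) 0) A / m⌋₊ := Nat.one_le_iff_ne_zero.2 h0
        have h2 : 1 ≤ min (max (E l (J l i)) 0) A / m := by
          by_contra hlt
          push Not at hlt
          have := (Nat.floor_lt' (n := 1) one_ne_zero).2 (by exact_mod_cast hlt)
          omega
        have h3 : m ≤ min (max (E l (J l i)) 0) A := by
          rwa [le_div_iff₀ hm, one_mul] at h2
        have h4 : (⌊min (max (E l (J l i)) 0) A / m⌋₊ : ℝ) ≤ min (max (E l (J l i)) 0) A / m :=
          Nat.floor_le (by positivity)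
        have h5 : m * (⌊min (max (E l (J l i)) 0) A / m⌋₊ : ℝ) ≤ min (max (E l (J l i)) 0) A := by
          rw [le_div_iff₀ hm] at h4
          linarith
        have h6 : 0 < max (E l (J l i)) 0 := hm.trans_le (h3.trans (min_le_left _ _))
        have h7 : max (E l (J l i)) 0 = E l (J l i) := by
          rcases le_total (E l (J l i)) 0 with h | h
          · rw [max_eq_right h] at h6
            exact absurd h6 (lt_irrefl _)
          · exact max_eq_left h
        exact (h5.trans (min_le_left _ _)).trans h7.le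

section

variable {k : Type} [Field k] [NumberField k] {r : ℕ} {p : Fin r → ℕ} [∀ t, Fact (p t).Prime]

omit [NumberField k] in
private theorem nfl_pos (l : PlK k p) {n : ℕ} {F : Fin (n + 1) → 𝓞 k} (hF : F ≠ 0) :
    0 < nfl l F := by
  obtain ⟨i, hi⟩ := Function.ne_iff.1 hF
  unfold nfl
  refine lt_of_lt_of_le ?_ (Finset.le_sup' (fun i => vk l (F i : k)) (Finset.mem_univ i))
  refine (vk l).pos ?_
  intro h
  exact hi (RingOfIntegers.coe_injective h)

private theorem nfl_inl (ρ : k →+* ℂ) {n : ℕ} (F : Fin (n + 1) → 𝓞 k) :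
    nfl (Sum.inl ρ : PlK k p) F ≤ hs F := by
  unfold nfl
  refine Finset.sup'_le _ _ fun i _ => ?_
  exact norm_le_pi_norm (fun q : (k →+* ℂ) × Fin (n + 1) => q.1 (F q.2 : k)) (ρ, i)

omit [NumberField k] in
private theorem nfl_inr (ρ : Σ t, (k →+* ℂ_[p t])) {n : ℕ} (F : Fin (n + 1) → 𝓞 k) :
    nfl (Sum.inr ρ : PlK k p) F ≤ 1 := by
  unfold nfl
  refine Finset.sup'_le _ _ fun i _ => ?_
  exact kaux_integer_le_one (p ρ.1) ρ.2 (F i)

end

theorem point_cell {k : Type} [Field k] [NumberField k] {r : ℕ} {p : Fin r → ℕ}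
    [∀ t, Fact (p t).Prime] (e : ExtK k p) (g : k[X]) (hg : Squarefree g) (q : ℕ)
    (hq : q = g.natDegree ∨ q = g.natDegree + 1) (n : ℕ) (β η : ℝ) (hβ : -2 ≤ β)
    (hη : 0 < η) :
    ∃ (T : Finset k) (R : ℕ) (a b : Fin R → AlgebraicClosure k) (C B₀ m : ℝ) (G : ℕ),
      (∀ i j, i ≠ j → a i * b j ≠ a j * b i) ∧ 0 < C ∧ 1 ≤ B₀ ∧ 0 < m ∧
      ∀ B : ℝ, B₀ ≤ B → ∀ (K : Type) [Field K] [NumberField K] [Algebra k K] (x : K),
        IntermediateField.adjoin k {x} = ⊤ → finrank k K = n → aeval x g ≠ 0 →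
        (∀ β ∈ T, algebraMap k K β ≠ x) →
        B < 2 * Real.exp (finrank ℚ K * SST.ht K x) → Real.exp (finrank ℚ K * SST.ht K x) ≤ B →
        (2 + β) * SST.ht K x ≤ SST.proxK p g q K x →
        ∃ F : Fin (n + 1) → 𝓞 k, F ≠ 0 ∧ RootOf F K x ∧ (∀ j, val (a j) (b j) F ≠ 0) ∧
          ∃ (J : PlK k p → Fin (n + 1) → Fin R) (γ : PlK k p → Fin (n + 1) → ℕ),
            (∀ l, Function.Injective (J l)) ∧ (∀ l, Antitone (γ l)) ∧
            (∀ l, γ l (Fin.last n) = 0) ∧ (∀ l i, γ l i ≤ G) ∧
            2 + β - η ≤ ∑ l, ∑ i, m * (γ l i : ℝ) ∧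
            F ∈ Box e (fun l => evM a b (J l)) (fun l i => wt l - m * (γ l i : ℝ)) B C := by
  obtain ⟨T, R, a, b, C1, hC1, hR, hab, hlink⟩ := exists_link e g hg q hq n
  obtain ⟨C2, hC2, hval⟩ := val_le e (n := n) a b
  obtain ⟨C3, hC3, hnfl⟩ := nfl_le e (n := n) a b hab
  set P : ℝ := (Fintype.card (PlK k p) : ℝ) with hP
  have hP0 : 0 ≤ P := Nat.cast_nonneg _
  set m : ℝ := η / (2 * (P * ((n : ℝ) + 1) + 1)) with hm
  have hden : 0 < 2 * (P * ((n : ℝ) + 1) + 1) := by positivity
  have hm0 : 0 < m := div_pos hη hden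
  have hm1 : P * ((n : ℝ) + 1) * m ≤ η / 2 := by
    have h1 : m * (2 * (P * ((n : ℝ) + 1) + 1)) = η := div_mul_cancel₀ _ hden.ne'
    nlinarith
  have hm2 : m ≤ η := by
    rw [hm]
    refine div_le_self hη.le ?_
    have : 0 ≤ P * ((n : ℝ) + 1) := by positivity
    linarith
  set D3 : ℝ := max (Real.log C3) 0 with hD3
  have hD30 : 0 ≤ D3 := le_max_right _ _
  have hlog2 : 0 < Real.log 2 := Real.log_pos one_lt_two
  set S : ℝ := (2 + β) * Real.log 2 + C1 + P * R * D3 with hS
  have hS0 : 0 ≤ S := by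
    rw [hS]
    have hβ2 : 0 ≤ 2 + β := by linarith
    positivity
  set Λ : ℝ := max 1 (2 * S / η) with hΛ
  refine ⟨T, R, a, b, max C1 1 * max C2 1, Real.exp Λ, m, ⌈(2 + β) / m⌉₊, hab, by positivity,
    ?_, hm0,
    ?_⟩
  · refine Real.one_le_exp ?_
    exact zero_le_one.trans (le_max_left _ _)
  intro B hB K _ _ _ x hadj hdeg hgx hxT hB1 hB2 hprox
  have hB0 : 0 < B := (Real.exp_pos _).trans_le hB
  set L : ℝ := Real.log B with hL
  have hLΛ : Λ ≤ L := by
    rw [hL, Real.le_log_iff_exp_le hB0]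
    exact hB
  have hL1 : 1 ≤ L := (le_max_left _ _).trans hLΛ
  have hL0 : 0 < L := by linarith
  have hSL : S / L ≤ η / 2 := by
    rw [div_le_iff₀ hL0]
    have h1 : 2 * S / η ≤ L := (le_max_right _ _).trans hLΛ
    rw [div_le_iff₀ hη] at h1
    linarith
  obtain ⟨F, hF0, hroot, hhs, hvne, hlk⟩ := hlink K x hadj hdeg hgx hxT
  have hnp : ∀ l : PlK k p, 0 < nfl l F := fun l => nfl_pos l hF0
  have hvp : ∀ (l : PlK k p) j, 0 < VK e l (val (a j) (b j) F) := fun l j =>
    (VK e l).pos (hvne j)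
  let E : PlK k p → Fin R → ℝ := fun l j =>
    (Real.log (nfl l F) - Real.log (VK e l (val (a j) (b j) F))) / L
  choose J hJ1 hJ2 hJ3 using fun l => exists_sort hR (E l)
  have hδ0 : 0 ≤ D3 / L := by positivity
  have hlast : ∀ l, E l (J l (Fin.last n)) ≤ D3 / L := by
    intro l
    obtain ⟨i, hi⟩ := hnfl l (J l) (hJ1 l) F
    refine (hJ2 l (Fin.le_last i)).trans ?_
    show (Real.log (nfl l F) - Real.log (VK e l (val (a (J l i)) (b (J l i)) F))) / L ≤ D3 / L
    refine div_le_div_of_nonneg_right ?_ hL0.le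
    have h1 := Real.log_le_log (hnp l) hi
    rw [Real.log_mul hC3.ne' (hvp l _).ne'] at h1
    have h2 : Real.log C3 ≤ D3 := le_max_left _ _
    linarith
  have hun : ∀ l j, (∀ i, J l i ≠ j) → E l j ≤ D3 / L := fun l j hj =>
    (hJ3 l j hj).trans (hlast l)
  have hK0 : (0 : ℝ) < finrank ℚ K := by
    exact_mod_cast finrank_pos
  have hsum : (∑ l, ∑ j, E l j) * L =
      ∑ l : PlK k p, ∑ j, (Real.log (nfl l F) - Real.log (VK e l (val (a j) (b j) F))) := by
    rw [Finset.sum_mul]
    refine Finset.sum_congr rfl fun l _ => ?_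
    rw [Finset.sum_mul]
    refine Finset.sum_congr rfl fun j _ => ?_
    exact div_mul_cancel₀ _ hL0.ne'
  have hlog : L ≤ Real.log 2 + finrank ℚ K * SST.ht K x := by
    have h1 := Real.log_le_log hB0 hB1.le
    rw [Real.log_mul two_ne_zero (Real.exp_pos _).ne', Real.log_exp] at h1
    exact h1
  have hT1 : (2 + β) * L - S + P * R * D3 ≤ (∑ l, ∑ j, E l j) * L := by
    rw [hsum]
    have h1 : (finrank ℚ K : ℝ) * ((2 + β) * SST.ht K x) ≤ finrank ℚ K * SST.proxK p g q K x :=
      mul_le_mul_of_nonneg_left hprox hK0.le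
    have h2 : (2 + β) * L ≤ (2 + β) * (Real.log 2 + finrank ℚ K * SST.ht K x) :=
      mul_le_mul_of_nonneg_left hlog (by linarith)
    have h3 : (2 + β) * (Real.log 2 + finrank ℚ K * SST.ht K x) =
        (2 + β) * Real.log 2 + finrank ℚ K * ((2 + β) * SST.ht K x) := by ring
    rw [h3] at h2
    rw [hS]
    linarith
  have hT2 : (2 + β) - S / L + P * R * (D3 / L) ≤ ∑ l, ∑ j, E l j := by
    rw [← mul_le_mul_iff_left₀ hL0]
    refine le_trans (le_of_eq ?_) hT1
    field_simp
  obtain ⟨γ, g1, g2, g3, g4, g5⟩ := point_core E J hJ2 (D3 / L) hδ0 hlast hun (2 + β) m η hm0 hm2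
    (by linarith) (by
      rw [← hP]
      have h1 : P * ((R : ℝ) * (D3 / L) + ((n : ℝ) + 1) * m) =
        P * R * (D3 / L) + P * ((n : ℝ) + 1) * m := by ring
      rw [h1]
      linarith)
  refine ⟨F, hF0, hroot, hvne, J, γ, hJ1, g1, g2, g3, g4, ?_⟩
  -- the size of the coefficients
  have hsize : ∀ l : PlK k p, nfl l F ≤ max C1 1 * B ^ (wt l : ℝ) := by
    intro l
    rcases l with ρ | ρ
    · have hd0 : (0 : ℝ) < finrank ℚ k := by
        exact_mod_cast finrank_pos
      have h1 : (finrank ℚ K : ℝ) = finrank ℚ k * n := by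
        rw [← hdeg]
        exact_mod_cast (finrank_mul_finrank ℚ k K).symm
      have h2 : Real.exp ((n : ℝ) * SST.ht K x) =
          Real.exp (finrank ℚ K * SST.ht K x) ^ (1 / (finrank ℚ k : ℝ)) := by
        rw [← Real.exp_mul, h1]
        congr 1
        field_simp
      have h3 : Real.exp ((n : ℝ) * SST.ht K x) ≤ B ^ (1 / (finrank ℚ k : ℝ)) := by
        rw [h2]
        exact Real.rpow_le_rpow (Real.exp_pos _).le hB2 (by positivity)
      refine (nfl_inl ρ F).trans (hhs.trans ?_)
      exact mul_le_mul (le_max_left _ _) h3 (Real.exp_pos _).le (by positivity)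
    · refine (nfl_inr ρ F).trans ?_
      have h1 : (wt (Sum.inr ρ : PlK k p) : ℝ) = 0 := rfl
      rw [h1, Real.rpow_zero, mul_one]
      exact le_max_right _ _
  intro l i
  show VK e l ((evM a b (J l)).mulVec (up fun j => (F j : k)) i) ≤
    max C1 1 * max C2 1 * B ^ (wt l - m * (γ l i : ℝ))
  rw [evM_mulVec]
  have hBw : 0 < B ^ (wt l : ℝ) := Real.rpow_pos_of_pos hB0 _
  rcases g5 l i with h | h
  · rw [h, Nat.cast_zero, mul_zero, sub_zero]
    refine (hval l F (J l i)).trans ?_
    calc C2 * nfl l F ≤ max C2 1 * (max C1 1 * B ^ (wt l : ℝ)) :=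
          mul_le_mul (le_max_left _ _) (hsize l) (hnp l).le (by positivity)
      _ = max C1 1 * max C2 1 * B ^ (wt l : ℝ) := by ring
  · have h1 : m * (γ l i : ℝ) * L ≤
        Real.log (nfl l F) - Real.log (VK e l (val (a (J l i)) (b (J l i)) F)) := by
      have h2 : m * (γ l i : ℝ) ≤
        (Real.log (nfl l F) - Real.log (VK e l (val (a (J l i)) (b (J l i)) F))) / L := h
      rwa [le_div_iff₀ hL0] at h2
    have h2 : VK e l (val (a (J l i)) (b (J l i)) F) ≤ nfl l F * B ^ (-(m * (γ l i : ℝ))) := by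
      rw [← Real.log_le_log_iff (hvp l _) (mul_pos (hnp l) (Real.rpow_pos_of_pos hB0 _)),
        Real.log_mul (hnp l).ne' (Real.rpow_pos_of_pos hB0 _).ne', Real.log_rpow hB0]
      linarith
    refine h2.trans ?_
    have hBm : 0 < B ^ (-(m * (γ l i : ℝ))) := Real.rpow_pos_of_pos hB0 _
    rw [sub_eq_add_neg, Real.rpow_add hB0]
    calc nfl l F * B ^ (-(m * (γ l i : ℝ))) ≤
          max C1 1 * B ^ (wt l : ℝ) * B ^ (-(m * (γ l i : ℝ))) :=
          mul_le_mul_of_nonneg_right (hsize l) hBm.le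
      _ = max C1 1 * 1 * (B ^ (wt l : ℝ) * B ^ (-(m * (γ l i : ℝ)))) := by ring
      _ ≤ max C1 1 * max C2 1 * (B ^ (wt l : ℝ) * B ^ (-(m * (γ l i : ℝ)))) := by
          refine mul_le_mul_of_nonneg_right ?_ (by positivity)
          exact mul_le_mul_of_nonneg_left (le_max_right _ _) (by positivity)

end Pool.Agent.TW
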