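import Pool.Agent.HD.CellAll
import Pool.Agent.AAS.Sort
import Pool.Agent.TW.PointT
import Pool.Agent.AA.NearCount
import Pool.Agent.SST.ProdK

/-!
# The number of the points which are close to the divisor
-/

set_option autoImplicit false

open Polynomial NumberField IntermediateField Module Pool.Agent.SST Pool.Agent.RefW
open Pool.Agent.AAS
open scoped Classical

namespace Pool.Agent.TW

/-- the roots of the polynomial with the coefficients `F` -/
private noncomputable def nrts {k : Type} [Field k] {n : ℕ} (F : Fin (n + 1) → 𝓞 k) :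
    Finset (AlgebraicClosure k) :=
  (∑ i : Fin (n + 1), C (algebraMap k (AlgebraicClosure k) (F i : k)) * X ^ (i : ℕ) :
      (AlgebraicClosure k)[X]).roots.toFinset

private theorem nrts_card {k : Type} [Field k] {n : ℕ} (F : Fin (n + 1) → 𝓞 k) :
    (nrts F).card ≤ n := by
  unfold nrts
  refine (Multiset.toFinset_card_le _).trans ((card_roots' _).trans ?_)
  refine natDegree_sum_le_of_forall_le _ _ fun i _ => ?_
  refine (natDegree_C_mul_X_pow_le _ _).trans ?_
  omega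

private theorem mem_nrts {k : Type} [Field k] {n : ℕ} (F : Fin (n + 1) → 𝓞 k) (hF0 : F ≠ 0)
    (x : AlgebraicClosure k)
    (hFx : ∑ i, algebraMap k (AlgebraicClosure k) (F i : k) * x ^ (i : ℕ) = 0) : x ∈ nrts F := by
  unfold nrts
  rw [Multiset.mem_toFinset, mem_roots', IsRoot.def]
  constructor
  · intro h0
    apply hF0
    funext i
    have h1 := congrArg (fun P : (AlgebraicClosure k)[X] => P.coeff i) h0
    simp only [Polynomial.finsetSum_coeff, coeff_zero] at h1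
    rw [Finset.sum_eq_single i] at h1
    · rw [Polynomial.coeff_C_mul_X_pow, if_pos rfl, map_eq_zero] at h1
      exact RingOfIntegers.ext h1
    · intro j _ hj
      rw [Polynomial.coeff_C_mul_X_pow, if_neg]
      exact fun h => hj (Fin.ext h.symm)
    · intro h
      exact absurd (Finset.mem_univ i) h
  · rw [eval_finsetSum, ← hFx]
    refine Finset.sum_congr rfl fun i _ => ?_
    rw [eval_mul, eval_C, eval_pow, eval_X]

private theorem near_northcott (k : Type) [Field k] [NumberField k] {r : ℕ} (p : Fin r → ℕ)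
    [∀ t, Fact (p t).Prime] (hp : Function.Injective p) (n : ℕ) (B : ℝ) (hB : 1 ≤ B) :
    {x : AlgebraicClosure k | finrank k (IntermediateField.adjoin k {x}) = n ∧
      AA.relHeight x ≤ B}.Finite := by
  obtain ⟨C, hC⟩ := AA.near_count k p hp 1 squarefree_one 0 (Or.inl natDegree_one.symm) n
    (by omega) 0 1 (by simp) one_pos
  refine (hC B hB).1.subset ?_
  rintro x ⟨h1, h2⟩
  refine ⟨h1, h2, ?_, ?_⟩
  · rw [map_one]
    exact one_ne_zero
  · rw [zero_mul]
    unfold AA.proximity SST.proxK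
    simp

/-- the points with relative height between `B / 2` and `B` -/
private def Shell (k : Type) [Field k] [NumberField k] {r : ℕ} (p : Fin r → ℕ)
    [∀ t, Fact (p t).Prime] (g : k[X]) (q n : ℕ) (β B : ℝ) : Set (AlgebraicClosure k) :=
  {x | finrank k (IntermediateField.adjoin k {x}) = n ∧ B / 2 < AA.relHeight x ∧
    AA.relHeight x ≤ B ∧ aeval x g ≠ 0 ∧ (2 + β) * AA.height x ≤ AA.proximity p g q x}

private theorem near_shell (k : Type) [Field k] [NumberField k] {r : ℕ} (p : Fin r → ℕ)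
    [∀ t, Fact (p t).Prime] (hp : Function.Injective p) (g : k[X]) (hg : Squarefree g) (q : ℕ)
    (hq : q = g.natDegree ∨ q = g.natDegree + 1) (n : ℕ) (hn : 1 ≤ n) (β η : ℝ) (hβ : -2 ≤ β)
    (hβ0 : β ≤ 0) (hη : 0 < η) : ∃ C₁ B₁ : ℝ, 0 ≤ C₁ ∧ 1 ≤ B₁ ∧ ∀ B : ℝ, B₁ ≤ B →
      (Shell k p g q n β B).Finite ∧
      ((Shell k p g q n β B).ncard : ℝ) ≤ C₁ * B ^ ((n : ℝ) - 1 - β + η) := by
  obtain ⟨e⟩ := exists_extK (k := k) (p := p)
  obtain ⟨Tx, R, a, b, C, B₀, m, G, hab, hC, hB₀, hm, hpt⟩ :=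
    point_cell e g hg q hq n β (η / 2) hβ (half_pos hη)
  let ι := (PlK k p → Fin (n + 1) → Fin R) × (PlK k p → Fin (n + 1) → Fin (G + 1))
  have : Fintype ι := Fintype.ofFinite ι
  let T : ι → ℝ → Set (Fin (n + 1) → 𝓞 k) := fun c B =>
    {F | ((∀ l, Function.Injective (c.1 l)) ∧ (∀ l, Antitone fun i => (c.2 l i : ℕ)) ∧
      (∀ l, (c.2 l (Fin.last n) : ℕ) = 0) ∧
      2 + β - η / 2 ≤ ∑ l, ∑ i, m * ((c.2 l i : ℕ) : ℝ)) ∧
      F ∈ Box e (fun l => evM a b (c.1 l)) (fun l i => wt l - m * ((c.2 l i : ℕ) : ℝ)) B C ∧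
      ∀ j, val (a j) (b j) F ≠ 0}
  have hT : ∀ c : ι, ∃ C' Q₀ : ℝ, 0 < C' ∧ 1 ≤ Q₀ ∧ ∀ Q : ℝ, Q₀ ≤ Q →
      (T c Q).Finite ∧ ((T c Q).ncard : ℝ) ≤ C' * Q ^ ((n : ℝ) - 1 - β + η) := by
    intro c
    by_cases hc : (∀ l, Function.Injective (c.1 l)) ∧ (∀ l, Antitone fun i => (c.2 l i : ℕ)) ∧
      (∀ l, (c.2 l (Fin.last n) : ℕ) = 0) ∧
      2 + β - η / 2 ≤ ∑ l, ∑ i, m * ((c.2 l i : ℕ) : ℝ)
    · obtain ⟨hc1, hc2, hc3, hc4⟩ := hc
      obtain ⟨C', Q₀, h1, h2, h3⟩ := HD.cell_count e hp a b hab c.1 hc1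
        (fun l i => m * ((c.2 l i : ℕ) : ℝ))
        (fun l i j hij => mul_le_mul_of_nonneg_left (Nat.cast_le.2 (hc2 l hij)) hm.le)
        (fun l => by rw [hc3 l, Nat.cast_zero, mul_zero]) wt sum_wt β (η / 2) (η / 2) C hβ0
        (half_pos hη).le hc4 (half_pos hη) hC
      refine ⟨C', Q₀, h1, h2, fun Q hQ => ?_⟩
      obtain ⟨h4, h5⟩ := h3 Q hQ
      have hsub : T c Q ⊆ {F ∈ Box e (fun l => evM a b (c.1 l))
          (fun l i => wt l - m * ((c.2 l i : ℕ) : ℝ)) Q C | ∀ j, val (a j) (b j) F ≠ 0} :=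
        fun F hF => hF.2
      refine ⟨h4.subset hsub, ?_⟩
      refine (Nat.cast_le.2 (Set.ncard_le_ncard hsub h4)).trans (h5.trans (le_of_eq ?_))
      congr 2
      ring
    · refine ⟨1, 1, one_pos, le_rfl, fun Q hQ => ?_⟩
      have h0 : T c Q = ∅ := by
        rw [Set.eq_empty_iff_forall_notMem]
        exact fun F hF => hc hF.1
      rw [h0, Set.ncard_empty]
      refine ⟨Set.finite_empty, ?_⟩
      have : 0 ≤ Q := by linarith
      rw [Nat.cast_zero]
      positivity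
  choose C' Q₀ hC' hQ₀ hT' using hT
  refine ⟨(∑ c, C' c) * n + Tx.card, B₀ + ∑ c, Q₀ c,
    add_nonneg (mul_nonneg (Finset.sum_nonneg fun c _ => (hC' c).le) (Nat.cast_nonneg _))
      (Nat.cast_nonneg _), ?_, ?_⟩
  · have : 0 ≤ ∑ c, Q₀ c := Finset.sum_nonneg fun c _ => zero_le_one.trans (hQ₀ c)
    linarith
  intro B hB
  have hBB : B₀ ≤ B := by
    have : 0 ≤ ∑ c, Q₀ c := Finset.sum_nonneg fun c _ => zero_le_one.trans (hQ₀ c)
    linarith
  have hBQ : ∀ c, Q₀ c ≤ B := by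
    intro c
    have : Q₀ c ≤ ∑ c, Q₀ c := Finset.single_le_sum (f := Q₀)
      (fun c _ => zero_le_one.trans (hQ₀ c)) (Finset.mem_univ c)
    linarith
  have hB0 : 0 < B := by linarith
  have hfin : ∀ c, (T c B).Finite := fun c => (hT' c B (hBQ c)).1
  set W₁ : Finset (AlgebraicClosure k) := Finset.univ.biUnion fun c : ι =>
    (hfin c).toFinset.biUnion nrts with hW₁
  set W₂ : Finset (AlgebraicClosure k) := Tx.image (algebraMap k (AlgebraicClosure k)) with hW₂
  set W : Finset (AlgebraicClosure k) := W₁ ∪ W₂ with hW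
  have hsub : Shell k p g q n β B ⊆ (W : Set (AlgebraicClosure k)) := by
    rintro x ⟨hxn, hxB2, hxB, hxg, hxa⟩
    set K := IntermediateField.adjoin k {x} with hK
    have hxg' : aeval (AdjoinSimple.gen k x) g ≠ 0 := by
      intro h
      apply hxg
      have h1 := congrArg (algebraMap K (AlgebraicClosure k)) h
      rwa [map_zero, ← aeval_algebraMap_apply, AdjoinSimple.algebraMap_gen] at h1
    by_cases hxT : x ∈ W₂
    · rw [hW, Finset.mem_coe, Finset.mem_union]
      exact Or.inr hxT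
    have hxT' : ∀ β ∈ Tx, algebraMap k K β ≠ AdjoinSimple.gen k x := by
      intro β hβ h
      apply hxT
      rw [hW₂, Finset.mem_image]
      refine ⟨β, hβ, ?_⟩
      have h1 := congrArg (algebraMap K (AlgebraicClosure k)) h
      rwa [AdjoinSimple.algebraMap_gen, ← IsScalarTower.algebraMap_apply] at h1
    rw [AA.UpperAux.relHeight_eq] at hxB2 hxB
    obtain ⟨F, hF, hroot, hval, J, γ, hJ, hγ, hlast, hG, hΓ, hbox⟩ := hpt B hBB K
      (AdjoinSimple.gen k x) (AA.adjoin_gen_top k x) hxn hxg' hxT' (by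
        have : B / 2 < Real.exp (finrank ℚ K * SST.ht K (AdjoinSimple.gen k x)) := hxB2
        linarith) hxB hxa
    rw [hW, Finset.mem_coe, Finset.mem_union]
    refine Or.inl ?_
    rw [hW₁, Finset.mem_biUnion]
    refine ⟨(J, fun l i => ⟨γ l i, Nat.lt_succ_of_le (hG l i)⟩), Finset.mem_univ _, ?_⟩
    rw [Finset.mem_biUnion]
    refine ⟨F, ?_, ?_⟩
    · rw [Set.Finite.mem_toFinset]
      exact ⟨⟨hJ, hγ, hlast, hΓ⟩, hbox, hval⟩
    · apply mem_nrts F hF
      have h1 := congrArg (algebraMap K (AlgebraicClosure k)) hroot.root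
      rw [map_zero, map_sum] at h1
      rw [← h1]
      refine Finset.sum_congr rfl fun i _ => ?_
      rw [map_mul, map_pow, AdjoinSimple.algebraMap_gen]
      rfl
  refine ⟨Set.Finite.subset (Finset.finite_toSet _) hsub, ?_⟩
  have h1 : (Shell k p g q n β B).ncard ≤ (∑ c, (T c B).ncard * n) + Tx.card := by
    refine (Set.ncard_le_ncard hsub (Finset.finite_toSet _)).trans ?_
    rw [Set.ncard_coe_finset, hW]
    refine (Finset.card_union_le _ _).trans (add_le_add ?_ Finset.card_image_le)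
    rw [hW₁]
    refine Finset.card_biUnion_le.trans (Finset.sum_le_sum fun c _ => ?_)
    rw [Set.ncard_eq_toFinset_card _ (hfin c)]
    exact Finset.card_biUnion_le_card_mul _ _ _ fun F _ => nrts_card F
  have hpow : (1 : ℝ) ≤ B ^ ((n : ℝ) - 1 - β + η) := by
    have h2 : (1 : ℝ) ≤ n := by exact_mod_cast hn
    exact Real.one_le_rpow (by linarith) (by linarith)
  calc ((Shell k p g q n β B).ncard : ℝ) ≤ (((∑ c, (T c B).ncard * n) + Tx.card : ℕ) : ℝ) :=
        Nat.cast_le.2 h1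
    _ = ∑ c, ((T c B).ncard : ℝ) * n + Tx.card := by push_cast; rfl
    _ ≤ ∑ c, (C' c * B ^ ((n : ℝ) - 1 - β + η)) * n +
        Tx.card * B ^ ((n : ℝ) - 1 - β + η) := by
        refine add_le_add (Finset.sum_le_sum fun c _ => ?_) ?_
        · exact mul_le_mul_of_nonneg_right (hT' c B (hBQ c)).2 (Nat.cast_nonneg _)
        · exact le_mul_of_one_le_right (Nat.cast_nonneg _) hpow
    _ = ((∑ c, C' c) * n + Tx.card) * B ^ ((n : ℝ) - 1 - β + η) := by
        rw [add_mul, Finset.sum_mul, Finset.sum_mul]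
        congr 1
        refine Finset.sum_congr rfl fun c _ => ?_
        ring

theorem near_count_all (k : Type) [Field k] [NumberField k] {r : ℕ} (p : Fin r → ℕ)
    [∀ t, Fact (p t).Prime] (hp : Function.Injective p) (g : k[X]) (hg : Squarefree g) (q : ℕ)
    (hq : q = g.natDegree ∨ q = g.natDegree + 1) (n : ℕ) (hn : 1 ≤ n) (β η : ℝ) (hβ : -2 ≤ β)
    (hβ0 : β ≤ 0) (hη : 0 < η) : ∃ C : ℝ, ∀ B : ℝ, 1 ≤ B →
    {x : AlgebraicClosure k | finrank k (IntermediateField.adjoin k {x}) = n ∧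
      AA.relHeight x ≤ B ∧ aeval x g ≠ 0 ∧
      (2 + β) * AA.height x ≤ AA.proximity p g q x}.Finite ∧
    ({x : AlgebraicClosure k | finrank k (IntermediateField.adjoin k {x}) = n ∧
      AA.relHeight x ≤ B ∧ aeval x g ≠ 0 ∧
      (2 + β) * AA.height x ≤ AA.proximity p g q x}.ncard : ℝ) ≤
      C * B ^ ((n : ℝ) - 1 - β + η) := by
  obtain ⟨C₁, B₁, hC₁, hB₁, hshell⟩ := near_shell k p hp g hg q hq n hn β η hβ hβ0 hη
  set σ : ℝ := (n : ℝ) - 1 - β + η with hσ
  have hn2 : (1 : ℝ) ≤ n := by exact_mod_cast hn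
  have hσ0 : 0 < σ := by linarith
  set S : ℝ → Set (AlgebraicClosure k) := fun B =>
    {x : AlgebraicClosure k | finrank k (IntermediateField.adjoin k {x}) = n ∧
      AA.relHeight x ≤ B ∧ aeval x g ≠ 0 ∧
      (2 + β) * AA.height x ≤ AA.proximity p g q x} with hS
  have hfin₁ : (S B₁).Finite :=
    (near_northcott k p hp n B₁ hB₁).subset fun x hx => ⟨hx.1, hx.2.1⟩
  have hu : (1 / 2 : ℝ) ^ σ < 1 := Real.rpow_lt_one (by norm_num) (by norm_num) hσ0
  have hu0 : 0 < (1 / 2 : ℝ) ^ σ := Real.rpow_pos_of_pos (by norm_num) σ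
  set u : ℝ := (1 / 2 : ℝ) ^ σ with hudef
  have hK0 : 0 < 1 - u := by linarith
  set K : ℝ := 1 / (1 - u) with hK
  have hKpos : 0 < K := by positivity
  have hKu : K * u + 1 = K := by
    rw [hK]
    field_simp
    ring
  have hbase : ∀ B : ℝ, 0 < B → B ≤ B₁ → (S B).Finite ∧
      ((S B).ncard : ℝ) ≤ (S B₁).ncard + C₁ * K * B ^ σ := by
    intro B hB0 hB
    have hsub : S B ⊆ S B₁ := fun x hx => ⟨hx.1, hx.2.1.trans hB, hx.2.2⟩
    refine ⟨hfin₁.subset hsub, ?_⟩
    have h1 : ((S B).ncard : ℝ) ≤ (S B₁).ncard := Nat.cast_le.2 (Set.ncard_le_ncard hsub hfin₁)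
    have h2 : 0 ≤ C₁ * K * B ^ σ := by positivity
    linarith
  have key : ∀ j : ℕ, ∀ B : ℝ, 0 < B → B ≤ B₁ * 2 ^ j → (S B).Finite ∧
      ((S B).ncard : ℝ) ≤ (S B₁).ncard + C₁ * K * B ^ σ := by
    intro j
    induction j with
    | zero =>
      intro B hB0 hB
      rw [pow_zero, mul_one] at hB
      exact hbase B hB0 hB
    | succ j ih =>
      intro B hB0 hB
      by_cases h : B ≤ B₁
      · exact hbase B hB0 h
      · push Not at h
        obtain ⟨h1, h2⟩ := ih (B / 2) (by positivity) (by rw [pow_succ] at hB; linarith)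
        obtain ⟨h3, h4⟩ := hshell B h.le
        have hsub : S B ⊆ S (B / 2) ∪ Shell k p g q n β B := by
          rintro x ⟨hx1, hx2, hx3, hx4⟩
          by_cases hx : AA.relHeight x ≤ B / 2
          · exact Or.inl ⟨hx1, hx, hx3, hx4⟩
          · push Not at hx
            exact Or.inr ⟨hx1, hx, hx2, hx3, hx4⟩
        refine ⟨(h1.union h3).subset hsub, ?_⟩
        have h5 : ((S B).ncard : ℝ) ≤ (S (B / 2)).ncard + (Shell k p g q n β B).ncard := by
          have h6 := (Set.ncard_le_ncard hsub (h1.union h3)).trans (Set.ncard_union_le _ _)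
          exact_mod_cast h6
        have h6 : (B / 2) ^ σ = B ^ σ * u := by
          rw [hudef, ← Real.mul_rpow hB0.le (by norm_num), mul_one_div]
        rw [h6] at h2
        have h7 : C₁ * K * (B ^ σ * u) + C₁ * B ^ σ = C₁ * K * B ^ σ := by
          calc C₁ * K * (B ^ σ * u) + C₁ * B ^ σ = C₁ * B ^ σ * (K * u + 1) := by ring
            _ = C₁ * K * B ^ σ := by rw [hKu]; ring
        linarith
  refine ⟨(S B₁).ncard + C₁ * K, fun B hB => ?_⟩
  obtain ⟨j, hj⟩ := pow_unbounded_of_one_lt B (one_lt_two : (1 : ℝ) < 2)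
  obtain ⟨h1, h2⟩ := key j B (by linarith) (by
    have : (2 : ℝ) ^ j ≤ B₁ * 2 ^ j := le_mul_of_one_le_left (by positivity) hB₁
    linarith)
  refine ⟨h1, h2.trans ?_⟩
  have h3 : 1 ≤ B ^ σ := Real.one_le_rpow hB hσ0.le
  have h4 : (0 : ℝ) ≤ (S B₁).ncard := Nat.cast_nonneg _
  nlinarith

/-- The number of points of degree `n` and relative height at most `B` with
`m(D, P) ≥ a h(P)` is at most `C B ^ (n + 1 - a + η)`, for every divisor `D` and `0 ≤ a ≤ 2`. -/
theorem near_all_one (k : Type) [Field k] [NumberField k] {r : ℕ} (p : Fin r → ℕ)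
    [∀ t, Fact (p t).Prime] (hp : Function.Injective p) (g : k[X]) (hg : Squarefree g) (q : ℕ)
    (hq : q = g.natDegree ∨ q = g.natDegree + 1) (n : ℕ) (hn : 1 ≤ n) (a η : ℝ) (ha0 : 0 ≤ a)
    (ha2 : a ≤ 2) (hη : 0 < η) : ∃ C : ℝ, ∀ B : ℝ, 1 ≤ B →
    {x : AlgebraicClosure k | finrank k (IntermediateField.adjoin k {x}) = n ∧
      AA.relHeight x ≤ B ∧ aeval x g ≠ 0 ∧
      a * AA.height x ≤ AA.proximity p g q x}.Finite ∧
    ({x : AlgebraicClosure k | finrank k (IntermediateField.adjoin k {x}) = n ∧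
      AA.relHeight x ≤ B ∧ aeval x g ≠ 0 ∧
      a * AA.height x ≤ AA.proximity p g q x}.ncard : ℝ) ≤
      C * B ^ ((n : ℝ) + 1 - a + η) := by
  obtain ⟨C, hC⟩ := near_count_all k p hp g hg q hq n hn (a - 2) η (by linarith) (by linarith) hη
  have h1 : (2 : ℝ) + (a - 2) = a := by ring
  have h2 : (n : ℝ) - 1 - (a - 2) + η = n + 1 - a + η := by ring
  rw [h1, h2] at hC
  exact ⟨C, hC⟩

end Pool.Agent.TW
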