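import Pool.Agent.TW.Omega

/-!
# The number of 2-descent classes on the twists, uniformly in the twist

`n` is odd. The abscissas of height at most `T` of the points of `d y² = c ∏ (x - e i)` fall into
at most `C exp (η T)` classes, where `C` does not depend on `d`: if `x₀` is one of them and `x`
another one then outside the primes which are bad for `c ∏ (X - e i)` or divide some `x₀ - e j` all
the orders of `x - e i` are even.
-/

set_option autoImplicit false

open NumberField IsDedekindDomain WithZero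

namespace Pool.Agent.TW

variable {L : Type} [Field L] [NumberField L]

private theorem W_zero_iff (v : HeightOneSpectrum (𝓞 L)) {a : L} (ha : a ≠ 0) :
    W v a = 0 ↔ v.valuation L a = 1 := by
  have h0 : v.valuation L a ≠ 0 := (Valuation.ne_zero_iff _).2 ha
  constructor
  · intro h
    refine le_antisymm ?_ ?_
    · rw [← WithZero.log_le_log h0 one_ne_zero, WithZero.log_one]
      exact h.le
    · rw [← WithZero.log_le_log one_ne_zero h0, WithZero.log_one]
      exact h.ge
  · intro h
    unfold W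
    rw [h, WithZero.log_one]

private theorem W_nonpos_iff (v : HeightOneSpectrum (𝓞 L)) (a : L) :
    W v a ≤ 0 ↔ v.valuation L a ≤ 1 := by
  rcases eq_or_ne a 0 with rfl | ha
  · unfold W
    simp
  · have h0 : v.valuation L a ≠ 0 := (Valuation.ne_zero_iff _).2 ha
    unfold W
    rw [← WithZero.log_one (M := ℤ), WithZero.log_le_log h0 one_ne_zero]

private theorem W_prod (v : HeightOneSpectrum (𝓞 L)) {n : ℕ} (a : Fin n → L)
    (ha : ∀ i, a i ≠ 0) (s : Finset (Fin n)) : W v (∏ i ∈ s, a i) = ∑ i ∈ s, W v (a i) := by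
  classical
  induction s using Finset.induction_on with
  | empty =>
    unfold W
    simp
  | insert i s hi ih =>
    rw [Finset.prod_insert hi, Finset.sum_insert hi, W_mul v (ha i)
      (Finset.prod_ne_zero_iff.2 fun j _ => ha j), ih]

/-- At a good prime, if the order of `x - e i` is odd then the order of the product is odd. -/
private theorem odd_sum (v : HeightOneSpectrum (𝓞 L)) {n : ℕ} (hn : Odd n) (e : Fin n → L)
    (he1 : ∀ i, v.valuation L (e i) ≤ 1) (he2 : ∀ i j, i ≠ j → v.valuation L (e i - e j) = 1)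
    (x : L) (hx : ∀ i, x - e i ≠ 0) (i : Fin n) (hi : ¬ Even (W v (x - e i))) :
    ¬ Even (∑ j, W v (x - e j)) := by
  classical
  rcases le_or_gt (v.valuation L x) 1 with h | h
  · -- `x` is integral at `v`
    have h1 : v.valuation L (x - e i) ≤ 1 := by
      refine (Valuation.map_sub _ _ _).trans (max_le h (he1 i))
    have h2 : v.valuation L (x - e i) < 1 := by
      refine lt_of_le_of_ne h1 fun h2 => hi ?_
      rw [(W_zero_iff v (hx i)).2 h2]
      exact Even.zero
    have h3 : ∀ j, j ≠ i → W v (x - e j) = 0 := by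
      intro j hj
      rw [W_zero_iff v (hx j)]
      have h4 : x - e j = (e i - e j) + (x - e i) := by ring
      have h5 : v.valuation L (x - e i) < v.valuation L (e i - e j) := by
        rw [he2 i j (Ne.symm hj)]
        exact h2
      rw [h4, Valuation.map_add_eq_of_lt_left _ h5, he2 i j (Ne.symm hj)]
    rw [Finset.sum_eq_single i (fun j _ hj => h3 j hj) fun h => absurd (Finset.mem_univ _) h]
    exact hi
  · -- `x` is not integral at `v`
    have h1 : ∀ j, W v (x - e j) = W v x := by
      intro j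
      unfold W
      rw [Valuation.map_sub_eq_of_lt_left _ (lt_of_le_of_lt (he1 j) h)]
    rw [Finset.sum_congr rfl fun j _ => h1 j, Finset.sum_const, Finset.card_univ,
      Fintype.card_fin, nsmul_eq_mul]
    rw [h1 i] at hi
    rw [Int.even_mul, not_or]
    refine ⟨?_, hi⟩
    rw [Int.even_coe_nat, Nat.not_even_iff_odd]
    exact hn

/-- Outside the bad primes and the primes of the differences `x₀ - e j` all orders are even. -/
private theorem even_of_good (v : HeightOneSpectrum (𝓞 L)) {n : ℕ} (hn : Odd n) (e : Fin n → L)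
    (c : L) (hc : c ≠ 0) (hvc : W v c = 0)
    (he1 : ∀ i, v.valuation L (e i) ≤ 1) (he2 : ∀ i j, i ≠ j → v.valuation L (e i - e j) = 1)
    (d : L) (hd : d ≠ 0) (x₀ y₀ x y : L) (hy₀ : y₀ ≠ 0) (hy : y ≠ 0)
    (h₀ : d * y₀ ^ 2 = c * ∏ i, (x₀ - e i)) (h : d * y ^ 2 = c * ∏ i, (x - e i))
    (hv : ∀ j, W v (x₀ - e j) = 0) (i : Fin n) : Even (W v (x - e i)) := by
  classical
  by_contra hodd
  have ne : ∀ (a b : L), b ≠ 0 → d * b ^ 2 = c * ∏ i, (a - e i) → ∀ j, a - e j ≠ 0 := by
    intro a b hb hab j hj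
    rw [Finset.prod_eq_zero (Finset.mem_univ j) hj, mul_zero] at hab
    exact mul_ne_zero hd (pow_ne_zero _ hb) hab
  have sum : ∀ (a b : L), b ≠ 0 → d * b ^ 2 = c * ∏ i, (a - e i) →
      W v d + 2 * W v b = ∑ j, W v (a - e j) := by
    intro a b hb hab
    have h1 := congrArg (W v) hab
    rw [W_mul v hd (pow_ne_zero _ hb), W_pow, W_mul v hc
      (Finset.prod_ne_zero_iff.2 fun j _ => ne a b hb hab j), hvc, zero_add,
      W_prod v _ (ne a b hb hab)] at h1
    rw [← h1]
    push_cast
    ring
  have k₀ := sum x₀ y₀ hy₀ h₀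
  rw [Finset.sum_eq_zero fun j _ => hv j] at k₀
  have k := sum x y hy h
  refine odd_sum v hn e he1 he2 x (ne x y hy h) i hodd ?_
  rw [← k]
  refine ⟨W v y - W v y₀, ?_⟩
  linarith

/-- the bad primes -/
private theorem exists_bad {n : ℕ} (e : Fin n → L) (he : Function.Injective e) (c : L) :
    ∃ B : Finset (HeightOneSpectrum (𝓞 L)), ∀ v, v ∉ B → W v c = 0 ∧
      (∀ i, v.valuation L (e i) ≤ 1) ∧ ∀ i j, i ≠ j → v.valuation L (e i - e j) = 1 := by
  classical
  have h1 : ∀ a : L, ∃ B : Finset (HeightOneSpectrum (𝓞 L)), ∀ v, v ∉ B → W v a = 0 := by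
    intro a
    rcases eq_or_ne a 0 with rfl | ha
    · refine ⟨∅, fun v _ => ?_⟩
      unfold W
      rw [map_zero, WithZero.log_zero]
    · refine ⟨(finite_ne ha).toFinset, fun v hv => ?_⟩
      by_contra h
      exact hv ((Set.Finite.mem_toFinset _).2 h)
  choose B hB using h1
  refine ⟨B c ∪ (Finset.univ.biUnion fun i => B (e i)) ∪
    (Finset.univ.biUnion fun i => Finset.univ.biUnion fun j => B (e i - e j)), fun v hv => ?_⟩
  simp only [Finset.mem_union, Finset.mem_biUnion, Finset.mem_univ, true_and, not_or,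
    not_exists] at hv
  obtain ⟨⟨hv1, hv2⟩, hv3⟩ := hv
  refine ⟨hB c v hv1, fun i => ?_, fun i j hij => ?_⟩
  · rw [← W_nonpos_iff]
    exact (hB (e i) v (hv2 i)).le
  · rw [← W_zero_iff v (sub_ne_zero.2 fun h => hij (he h))]
    exact hB _ v (hv3 i j)

/-- The number of classes on the twists. -/
theorem classes (L : Type) [Field L] [NumberField L] (n : ℕ) (hn : Odd n) (e : Fin n → L)
    (he : Function.Injective e) (c : L) (hc : c ≠ 0) (η : ℝ) (hη : 0 < η) :
    ∃ C : ℝ, ∀ (T : ℝ) (_ : 0 ≤ T) (d : L) (_ : d ≠ 0), ∃ (M : ℕ) (φ : L → Fin M),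
      (M : ℝ) ≤ C * Real.exp (η * T) ∧
      ∀ x x' : L, Height.logHeight₁ x ≤ T → Height.logHeight₁ x' ≤ T →
        (∃ y, y ≠ 0 ∧ d * y ^ 2 = c * ∏ i, (x - e i)) →
        (∃ y, y ≠ 0 ∧ d * y ^ 2 = c * ∏ i, (x' - e i)) →
        φ x = φ x' → ∀ i, IsSquare ((x - e i) * (x' - e i)) := by
  classical
  have hn0 : 0 < n := hn.pos
  obtain ⟨B, hB⟩ := exists_bad e he c
  obtain ⟨κ, hκ⟩ := sq_classes L
  obtain ⟨C₀, hC₀1, hC₀⟩ := omega_bound L (η / (n * n)) (by positivity)
  have hC₀0 : 0 ≤ C₀ := zero_le_one.trans hC₀1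
  set K : Fin n → ℝ := fun j => (Height.totalWeight L : ℝ) * Real.log 2 + Height.logHeight₁ (e j)
    with hK
  -- the constant
  set D : ℝ := ((κ : ℝ) * 2 ^ B.card * ∏ j, (C₀ * Real.exp (η / (n * n) * K j))) ^ n with hD
  have hD0 : 0 ≤ D := by positivity
  refine ⟨max 1 D, fun T hT d hd => ?_⟩
  have hexp : (1 : ℝ) ≤ Real.exp (η * T) := Real.one_le_exp (by positivity)
  by_cases hex : ∃ x₀ : L, Height.logHeight₁ x₀ ≤ T ∧
      ∃ y, y ≠ 0 ∧ d * y ^ 2 = c * ∏ i, (x₀ - e i)
  · obtain ⟨x₀, hx₀T, y₀, hy₀, h₀⟩ := hex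
    have ne : ∀ (a b : L), b ≠ 0 → d * b ^ 2 = c * ∏ i, (a - e i) → ∀ j, a - e j ≠ 0 := by
      intro a b hb hab j hj
      rw [Finset.prod_eq_zero (Finset.mem_univ j) hj, mul_zero] at hab
      exact mul_ne_zero hd (pow_ne_zero _ hb) hab
    have hne₀ := ne x₀ y₀ hy₀ h₀
    set S : Finset (HeightOneSpectrum (𝓞 L)) :=
      B ∪ Finset.univ.biUnion fun j => (finite_ne (hne₀ j)).toFinset with hS
    have hScard : S.card ≤ B.card + ∑ j, ((finite_ne (hne₀ j)).toFinset).card :=
      (Finset.card_union_le _ _).trans (Nat.add_le_add_left Finset.card_biUnion_le _)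
    obtain ⟨M, ψ, hM, hψ⟩ := hκ S
    refine ⟨M ^ n, fun x => finFunctionFinEquiv fun i => ψ (x - e i), ?_, ?_⟩
    · -- the number of classes
      have h1 : ((2 : ℝ)) ^ S.card ≤ 2 ^ B.card *
          ∏ j, (C₀ * Real.exp (η / (n * n) * K j) * Real.exp (η / (n * n) * T)) := by
        calc ((2 : ℝ)) ^ S.card ≤
              2 ^ (B.card + ∑ j, ((finite_ne (hne₀ j)).toFinset).card) :=
              pow_le_pow_right₀ one_le_two hScard
          _ = 2 ^ B.card * ∏ j, (2 : ℝ) ^ ((finite_ne (hne₀ j)).toFinset).card := by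
              rw [pow_add, Finset.prod_pow_eq_pow_sum]
          _ ≤ _ := by
              refine mul_le_mul_of_nonneg_left ?_ (by positivity)
              refine Finset.prod_le_prod (fun _ _ => by positivity) fun j _ => ?_
              refine (hC₀ (x₀ - e j) (hne₀ j) _ fun v hv => (Set.Finite.mem_toFinset _).1 hv).trans ?_
              rw [mul_assoc, ← Real.exp_add, ← mul_add]
              refine mul_le_mul_of_nonneg_left (Real.exp_le_exp.2 ?_) hC₀0
              refine mul_le_mul_of_nonneg_left ?_ (by positivity)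
              have := Height.logHeight₁_sub_le x₀ (e j)
              rw [hK]
              simp only
              linarith
      have h2 : (M : ℝ) ≤ (κ : ℝ) * 2 ^ B.card *
          (∏ j, (C₀ * Real.exp (η / (n * n) * K j))) * Real.exp (η / n * T) := by
        calc (M : ℝ) ≤ (κ : ℝ) * 2 ^ S.card := by exact_mod_cast hM
          _ ≤ (κ : ℝ) * (2 ^ B.card *
              ∏ j, (C₀ * Real.exp (η / (n * n) * K j) * Real.exp (η / (n * n) * T))) :=
              mul_le_mul_of_nonneg_left h1 (Nat.cast_nonneg _)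
          _ = _ := by
              rw [Finset.prod_mul_distrib, Finset.prod_const, Finset.card_univ,
                Fintype.card_fin, ← Real.exp_nat_mul]
              have : (n : ℝ) * (η / (n * n) * T) = η / n * T := by
                field_simp
              rw [this]
              ring
      push_cast
      calc (M : ℝ) ^ n ≤ ((κ : ℝ) * 2 ^ B.card *
          (∏ j, (C₀ * Real.exp (η / (n * n) * K j))) * Real.exp (η / n * T)) ^ n :=
            pow_le_pow_left₀ (Nat.cast_nonneg _) h2 n
        _ = D * Real.exp (η * T) := by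
            rw [mul_pow, ← Real.exp_nat_mul, ← hD]
            have : (n : ℝ) * (η / n * T) = η * T := by
              field_simp
            rw [this]
        _ ≤ max 1 D * Real.exp (η * T) :=
            mul_le_mul_of_nonneg_right (le_max_right _ _) (Real.exp_pos _).le
    · rintro x x' _ _ ⟨y, hy, hxy⟩ ⟨y', hy', hxy'⟩ heq i
      have h1 := congrFun (finFunctionFinEquiv.injective heq) i
      have even : ∀ (a b : L), b ≠ 0 → d * b ^ 2 = c * ∏ i, (a - e i) →
          ∀ v, v ∉ S → Even (W v (a - e i)) := by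
        intro a b hb hab v hv
        rw [hS, Finset.mem_union, not_or, Finset.mem_biUnion, not_exists] at hv
        obtain ⟨hv1, hv2⟩ := hv
        obtain ⟨g1, g2, g3⟩ := hB v hv1
        refine even_of_good v hn e c hc g1 g2 g3 d hd x₀ y₀ a b hy₀ hb h₀ hab (fun j => ?_) i
        by_contra h
        exact hv2 j ⟨Finset.mem_univ _, (Set.Finite.mem_toFinset _).2 h⟩
      exact hψ _ _ (ne x y hy hxy i) (ne x' y' hy' hxy' i) (even x y hy hxy) (even x' y' hy' hxy')
        h1
  · refine ⟨1, fun _ => 0, ?_, ?_⟩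
    · rw [Nat.cast_one]
      calc (1 : ℝ) = 1 * 1 := (one_mul 1).symm
        _ ≤ max 1 D * Real.exp (η * T) :=
            mul_le_mul (le_max_left _ _) hexp zero_le_one (zero_le_one.trans (le_max_left _ _))
    · intro x x' hx _ hxy
      exact absurd ⟨x, hx, hxy⟩ hex

end Pool.Agent.TW
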