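import Pool.Agent.TW.Q1
import Pool.Agent.TW.Classes

/-!
# The points of a double cover of the line over the rational points: final form
-/

set_option autoImplicit false

open Height Module Polynomial NumberField

namespace Pool.Agent.TW

theorem classBound (L : Type) [Field L] [NumberField L] : ClassBound L := by
  intro n e c η hn he hc hη
  obtain ⟨C, hC⟩ := classes L n hn e he c hc η hη
  refine ⟨C, fun T δ hT hδ => ?_⟩
  obtain ⟨M, φ, h1, h2⟩ := hC T hT δ hδ
  exact ⟨M, φ, h1, fun x hx x' hx' h => h2 x x' hx.1 hx'.1 hx.2 hx'.2 h⟩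

/-- The number of rational abscissas on the twists, uniformly in the twist. -/
theorem twist_le (k : Type) [Field k] [NumberField k] (f : k[X]) (hf : Squarefree f)
    (hdeg : 3 ≤ f.natDegree) (η : ℝ) (hη : 0 < η) : ∃ C : ℝ, ∀ T : ℝ, 0 ≤ T → ∀ δ : k, δ ≠ 0 →
      ((ptsF f δ T).ncard : ℝ) ≤ C * Real.exp (η * T) :=
  twist_count (fun L _ _ => classBound L) k f hf hdeg η hη

/-- The number of points with a small discriminant. -/
theorem viol_le (k : Type) [Field k] [NumberField k] (f : k[X]) (hf : Squarefree f)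
    (hdeg : 3 ≤ f.natDegree) (A B η : ℝ) (hA : 0 ≤ A) (hB : 0 ≤ B) (hη : 0 < η) :
    ∃ C : ℝ, ∀ T : ℝ, 0 ≤ T →
      {P ∈ Pts k f T | HD.logDiscr P ≤ A * AA.height P.1 + B}.Finite ∧
      ({P ∈ Pts k f T | HD.logDiscr P ≤ A * AA.height P.1 + B}.ncard : ℝ) ≤
        C * Real.exp ((2 * A + η) * finrank ℚ k * T) :=
  viol_pts (fun L _ _ => classBound L) k f hf hdeg A B η hA hB hη

/-- The points which violate the height inequality. -/
theorem q1_le (k : Type) [Field k] [NumberField k] (f : k[X]) (hf : Squarefree f)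
    (hdeg : 3 ≤ f.natDegree) {r : ℕ} (p : Fin r → ℕ) [∀ t, Fact (p t).Prime]
    (hp : Function.Injective p) (g : k[X]) (hg : Squarefree g) (q : ℕ)
    (hq : q = g.natDegree ∨ q = g.natDegree + 1) (A ε a η : ℝ) (ha0 : 0 ≤ a) (ha2 : a ≤ 2)
    (hE : 2 * (A + a - ε) ≤ 2 - a) (hη : 0 < η) : ∃ C : ℝ, ∀ T : ℝ, 0 ≤ T →
      {P ∈ Pts k f T | aeval P.1 g ≠ 0 ∧ HD.logDiscr P + ε * AA.height P.1 <
          AA.proximity p g q P.1 + A * AA.height P.1}.Finite ∧
      ({P ∈ Pts k f T | aeval P.1 g ≠ 0 ∧ HD.logDiscr P + ε * AA.height P.1 <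
          AA.proximity p g q P.1 + A * AA.height P.1}.ncard : ℝ) ≤
        C * Real.exp ((2 - a + η) * finrank ℚ k * T) :=
  q1_pts (fun L _ _ => classBound L) k f hf hdeg p hp g hg q hq A ε a η ha0 ha2 hE hη

/-- Many quadratic points. -/
theorem lower_le (k : Type) [Field k] [NumberField k] (f : k[X]) (hf : Squarefree f)
    (hdeg : 3 ≤ f.natDegree) : ∃ c T₀ : ℝ, 0 < c ∧ ∀ T : ℝ, T₀ ≤ T →
      ∃ S : Finset (AlgebraicClosure k × AlgebraicClosure k),
        c * Real.exp (2 * finrank ℚ k * T) ≤ (S.card : ℝ) ∧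
        ∀ P ∈ S, P ∈ Pts k f T ∧ finrank k (IntermediateField.adjoin k {P.1, P.2}) = 2 :=
  lower_pts (fun L _ _ => classBound L) k f hf hdeg

end Pool.Agent.TW
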