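import Pool.Agent.TW.Base
import Pool.Agent.TW.NearT
import Pool.Agent.HD.Viol

/-!
# The points on the line over `k` with a small discriminant on a double cover
-/

set_option autoImplicit false

open Height Module Polynomial NumberField

namespace Pool.Agent.TW

section quad

variable {k Ω : Type} [Field k] [CharZero k] [Field Ω] [Algebra k Ω]

omit [CharZero k] in
/-- the elements of a field generated by a square root -/
theorem quad_repr (b : k) (y₀ y : Ω) (hy₀ : y₀ ^ 2 = algebraMap k Ω b)
    (hy : y ∈ IntermediateField.adjoin k {y₀}) :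
    ∃ u v : k, y = algebraMap k Ω u + algebraMap k Ω v * y₀ := by
  set m : k[X] := X ^ 2 - C b with hm
  have hmon : m.Monic := monic_X_pow_sub_C b two_ne_zero
  have hdm : m.natDegree = 2 := natDegree_X_pow_sub_C
  have hm0 : aeval y₀ m = 0 := by
    rw [hm, map_sub, map_pow, aeval_X, aeval_C, hy₀, sub_self]
  have hint : IsIntegral k y₀ := ⟨m, hmon, by rw [← aeval_def, hm0]⟩
  have h1 : y ∈ (IntermediateField.adjoin k {y₀}).toSubalgebra := hy
  rw [IntermediateField.adjoin_simple_toSubalgebra_of_isAlgebraic hint.isAlgebraic,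
    Algebra.adjoin_singleton_eq_range_aeval] at h1
  obtain ⟨r, hr⟩ := h1
  have h2 : aeval y₀ (r %ₘ m) = y := by
    rw [aeval_modByMonic_eq_self_of_root hm0]
    exact hr
  have h3 : (r %ₘ m).natDegree ≤ 1 := by
    have h4 := natDegree_modByMonic_lt r hmon (by
      intro h
      rw [h, natDegree_one] at hdm
      omega)
    omega
  obtain ⟨v, u, huv⟩ := exists_eq_X_add_C_of_natDegree_le_one h3
  refine ⟨u, v, ?_⟩
  rw [← h2, huv, map_add, map_mul, aeval_C, aeval_C, aeval_X]
  ring

/-- square roots which generate the same field -/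
theorem isSquare_of_adjoin (a b : k) (y y₀ : Ω) (hy : y ^ 2 = algebraMap k Ω a)
    (hy₀ : y₀ ^ 2 = algebraMap k Ω b)
    (h : IntermediateField.adjoin k {y} = IntermediateField.adjoin k {y₀}) :
    ∃ z : k, z ^ 2 = a * b := by
  have hinj : Function.Injective (algebraMap k Ω) := (algebraMap k Ω).injective
  by_cases hk : y₀ ∈ (⊥ : IntermediateField k Ω)
  · have h1 : y ∈ (⊥ : IntermediateField k Ω) := by
      have h2 := IntermediateField.mem_adjoin_simple_self k y
      rwa [h, (IntermediateField.adjoin_simple_eq_bot_iff).2 hk] at h2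
    rw [IntermediateField.mem_bot] at hk h1
    obtain ⟨c, hc⟩ := hk
    obtain ⟨d, hd⟩ := h1
    refine ⟨c * d, hinj ?_⟩
    rw [map_pow, map_mul, map_mul, hc, hd, ← hy, ← hy₀]
    ring
  · have h1 : y ∈ IntermediateField.adjoin k {y₀} := by
      rw [← h]
      exact IntermediateField.mem_adjoin_simple_self k y
    obtain ⟨u, v, huv⟩ := quad_repr b y₀ y hy₀ h1
    have h2 : algebraMap k Ω (2 * u * v) * y₀ = algebraMap k Ω (a - u ^ 2 - v ^ 2 * b) := by
      simp only [map_mul, map_sub, map_pow]
      rw [← hy, ← hy₀, huv]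
      simp only [map_ofNat]
      ring
    have h3 : 2 * u * v = 0 := by
      by_contra h3
      apply hk
      rw [IntermediateField.mem_bot]
      refine ⟨(a - u ^ 2 - v ^ 2 * b) / (2 * u * v), ?_⟩
      have h4 : algebraMap k Ω (2 * u * v) ≠ 0 := (_root_.map_ne_zero _).2 h3
      rw [map_div₀, ← h2, mul_comm, mul_div_cancel_right₀ _ h4]
    have h4 : u = 0 ∨ v = 0 := by
      rcases mul_eq_zero.1 h3 with h5 | h5
      · exact Or.inl ((mul_eq_zero.1 h5).resolve_left two_ne_zero)
      · exact Or.inr h5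
    rcases h4 with h4 | h4
    · refine ⟨v * b, hinj ?_⟩
      rw [h4, map_zero, zero_add] at huv
      have h5 : algebraMap k Ω a = algebraMap k Ω (v ^ 2 * b) := by
        rw [← hy, huv, mul_pow, hy₀, map_mul, map_pow]
      rw [hinj h5]
      congr 1
      ring
    · exfalso
      rw [h4, map_zero, zero_mul, add_zero] at huv
      apply hk
      have h5 := IntermediateField.mem_adjoin_simple_self k y₀
      rw [← h] at h5
      rwa [(IntermediateField.adjoin_simple_eq_bot_iff).2] at h5
      rw [IntermediateField.mem_bot]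
      exact ⟨u, huv.symm⟩

omit [CharZero k] in
/-- the degree of the field generated by a square root -/
theorem finrank_sqrt (b : k) (y : Ω) (hy : y ^ 2 = algebraMap k Ω b) :
    finrank k (IntermediateField.adjoin k {y}) = 1 ∨
      finrank k (IntermediateField.adjoin k {y}) = 2 := by
  set m : k[X] := X ^ 2 - C b with hm
  have hmon : m.Monic := monic_X_pow_sub_C b two_ne_zero
  have hdm : m.natDegree = 2 := natDegree_X_pow_sub_C
  have hm0 : aeval y m = 0 := by
    rw [hm, map_sub, map_pow, aeval_X, aeval_C, hy, sub_self]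
  have hint : IsIntegral k y := ⟨m, hmon, by rw [← aeval_def, hm0]⟩
  rw [IntermediateField.adjoin.finrank hint]
  have h1 : (minpoly k y).natDegree ≤ 2 := by
    rw [← hdm]
    exact natDegree_le_of_dvd (minpoly.dvd k y hm0) hmon.ne_zero
  have h2 := minpoly.natDegree_pos hint
  omega

end quad

open AA

/-- The points `P = (x, y)` of `y² = f(x)` with `x` in `k` and `h(x) ≤ T`. -/
def Pts (k : Type) [Field k] [NumberField k] (f : k[X]) (T : ℝ) :
    Set (AlgebraicClosure k × AlgebraicClosure k) :=
  {P | P.2 ^ 2 = aeval P.1 f ∧ finrank k (IntermediateField.adjoin k {P.1}) = 1 ∧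
    AA.height P.1 ≤ T}

/-- the abscissas `x` in `k` of height at most `T` for which the square roots of `f(x)` generate a
field of discriminant at most `Y` -/
def small (k : Type) [Field k] [NumberField k] (f : k[X]) (T Y : ℝ) : Set k :=
  {x | logHeight₁ x ≤ T ∧ f.eval x ≠ 0 ∧ ∃ y : AlgebraicClosure k,
    y ^ 2 = algebraMap k (AlgebraicClosure k) (f.eval x) ∧
      |(discr (IntermediateField.adjoin k {y}) : ℝ)| ≤ Y}

/-- The number of values of `x` with a small discriminant. -/
theorem small_count (hcl : ∀ (L : Type) [Field L] [NumberField L], ClassBound L) (k : Type)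
    [Field k] [NumberField k] (f : k[X]) (hf : Squarefree f) (hdeg : 3 ≤ f.natDegree) (η : ℝ)
    (hη : 0 < η) : ∃ C : ℝ, 0 ≤ C ∧ ∀ T Y : ℝ, 0 ≤ T → 1 ≤ Y →
      (small k f T Y).Finite ∧ ((small k f T Y).ncard : ℝ) ≤ C * Y * Real.exp (η * T) := by
  classical
  set Ω := AlgebraicClosure k with hΩ
  obtain ⟨C₁, hC₁, h₁⟩ := AA.field_count k Ω 2 le_rfl
  obtain ⟨C₂, h₂⟩ := twist_count hcl k f hf hdeg η hη
  have hC₂ : 0 ≤ C₂ := by
    have h3 := h₂ 0 le_rfl 1 one_ne_zero
    rw [mul_zero, Real.exp_zero, mul_one] at h3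
    exact (Nat.cast_nonneg _).trans h3
  refine ⟨(C₁ + 1) * C₂, by positivity, fun T Y hT hY => ?_⟩
  obtain ⟨h3, h4⟩ := h₁ Y hY
  have hex : (((2 : ℕ) : ℝ) + 2) / 4 = 1 := by norm_num
  rw [hex, Real.rpow_one] at h4
  set 𝓕 : Set (IntermediateField k Ω) := {F : IntermediateField k Ω | finrank k F = 2 ∧
    ∃ _ : NumberField F, |(discr F : ℝ)| ≤ Y} ∪ {⊥} with h𝓕
  have h𝓕f : 𝓕.Finite := h3.union (Set.finite_singleton _)
  have h𝓕c : (𝓕.ncard : ℝ) ≤ (C₁ + 1) * Y := by
    have h5 : (𝓕.ncard : ℝ) ≤ ({F : IntermediateField k Ω | finrank k F = 2 ∧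
      ∃ _ : NumberField F, |(discr F : ℝ)| ≤ Y}.ncard : ℝ) + 1 := by
      have h6 := Set.ncard_union_le {F : IntermediateField k Ω | finrank k F = 2 ∧
        ∃ _ : NumberField F, |(discr F : ℝ)| ≤ Y} {⊥}
      rw [Set.ncard_singleton] at h6
      refine (Nat.cast_le.2 h6).trans (le_of_eq ?_)
      rw [Nat.cast_add, Nat.cast_one]
    nlinarith
  -- a root for every abscissa
  have hroot : ∀ x : k, ∃ y : Ω, x ∈ small k f T Y →
      y ^ 2 = algebraMap k Ω (f.eval x) ∧
        |(discr (IntermediateField.adjoin k {y}) : ℝ)| ≤ Y := by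
    intro x
    by_cases hx : x ∈ small k f T Y
    · obtain ⟨_, _, y, hy⟩ := hx
      exact ⟨y, fun _ => hy⟩
    · exact ⟨0, fun h => absurd h hx⟩
  choose ψ hψ using hroot
  have h5 := AA.UpperAux.ncard_le_of_fiber (small k f T Y)
    (fun x : k => IntermediateField.adjoin k {ψ x}) 𝓕 h𝓕f ?_ (C₂ * Real.exp (η * T)) ?_
  · refine ⟨h5.1, h5.2.trans ?_⟩
    calc (𝓕.ncard : ℝ) * (C₂ * Real.exp (η * T)) ≤
        ((C₁ + 1) * Y) * (C₂ * Real.exp (η * T)) :=
          mul_le_mul_of_nonneg_right h𝓕c (by positivity)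
      _ = _ := by ring
  · intro x hx
    obtain ⟨h6, h7⟩ := hψ x hx
    rcases finrank_sqrt (f.eval x) (ψ x) h6 with h8 | h8
    · exact Or.inr (IntermediateField.finrank_eq_one_iff.1 h8)
    · exact Or.inl ⟨h8, instNumberFieldAdjoin k (ψ x), h7⟩
  · intro F _
    rcases Set.eq_empty_or_nonempty
      (small k f T Y ∩ (fun x : k => IntermediateField.adjoin k {ψ x}) ⁻¹' {F}) with h0 | ⟨x₀, hx₀⟩
    · rw [h0, Set.ncard_empty, Nat.cast_zero]
      exact ⟨Set.finite_empty, by positivity⟩
    · obtain ⟨hx₀s, hx₀F⟩ := hx₀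
      have hb : f.eval x₀ ≠ 0 := hx₀s.2.1
      have hsub : small k f T Y ∩ (fun x : k => IntermediateField.adjoin k {ψ x}) ⁻¹' {F} ⊆
          ptsF f (f.eval x₀) T := by
        rintro x ⟨hxs, hxF⟩
        have h6 : IntermediateField.adjoin k {ψ x} = IntermediateField.adjoin k {ψ x₀} := by
          have e1 : IntermediateField.adjoin k {ψ x} = F := hxF
          have e2 : IntermediateField.adjoin k {ψ x₀} = F := hx₀F
          rw [e1, e2]
        obtain ⟨z, hz⟩ := isSquare_of_adjoin (f.eval x) (f.eval x₀) (ψ x) (ψ x₀)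
          (hψ x hxs).1 (hψ x₀ hx₀s).1 h6
        have hz0 : z ≠ 0 := by
          intro h
          rw [h] at hz
          exact mul_ne_zero hxs.2.1 hb (by rw [← hz]; ring)
        refine ⟨hxs.1, z / f.eval x₀, div_ne_zero hz0 hb, ?_⟩
        rw [div_pow, hz]
        field_simp
      refine ⟨(ptsF_finite _ _ _).subset hsub, ?_⟩
      have h6 : ((small k f T Y ∩
          (fun x : k => IntermediateField.adjoin k {ψ x}) ⁻¹' {F}).ncard : ℝ) ≤
          ((ptsF f (f.eval x₀) T).ncard : ℝ) := by
        exact_mod_cast Set.ncard_le_ncard hsub (ptsF_finite _ _ _)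
      exact h6.trans (h₂ T hT _ hb)

/-- the height of an element of `k` -/
theorem height_algebraMap {k : Type} [Field k] [NumberField k] (x : k) :
    AA.height (algebraMap k (AlgebraicClosure k) x) = logHeight₁ x / finrank ℚ k := by
  set z : AlgebraicClosure k := algebraMap k (AlgebraicClosure k) x with hz
  have h1 : IntermediateField.AdjoinSimple.gen k z =
      algebraMap k (IntermediateField.adjoin k {z}) x := Subtype.ext (by
        rw [IntermediateField.AdjoinSimple.coe_gen]
        rfl)
  have h2 := Leh2.nh_algebraMap (L := IntermediateField.adjoin k {z}) x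
  unfold AA.height SST.ht
  rw [h1]
  exact h2

/-- the elements of degree one -/
theorem exists_of_finrank_one {k : Type} [Field k] [NumberField k] (x : AlgebraicClosure k)
    (hx : finrank k (IntermediateField.adjoin k {x}) = 1) :
    ∃ x' : k, algebraMap k (AlgebraicClosure k) x' = x := by
  have h1 := IntermediateField.finrank_eq_one_iff.1 hx
  rw [IntermediateField.adjoin_simple_eq_bot_iff, IntermediateField.mem_bot] at h1
  exact h1

theorem finrank_of_algebraMap {k : Type} [Field k] [NumberField k] (x : k) :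
    finrank k (IntermediateField.adjoin k {algebraMap k (AlgebraicClosure k) x}) = 1 := by
  rw [IntermediateField.finrank_eq_one_iff, IntermediateField.adjoin_simple_eq_bot_iff]
  exact IntermediateField.algebraMap_mem _ _

/-- The number of points with a small discriminant. -/
theorem viol_pts (hcl : ∀ (L : Type) [Field L] [NumberField L], ClassBound L) (k : Type)
    [Field k] [NumberField k] (f : k[X]) (hf : Squarefree f) (hdeg : 3 ≤ f.natDegree)
    (A B η : ℝ) (hA : 0 ≤ A) (hB : 0 ≤ B) (hη : 0 < η) : ∃ C : ℝ, ∀ T : ℝ, 0 ≤ T →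
      {P ∈ Pts k f T | HD.logDiscr P ≤ A * AA.height P.1 + B}.Finite ∧
      ({P ∈ Pts k f T | HD.logDiscr P ≤ A * AA.height P.1 + B}.ncard : ℝ) ≤
        C * Real.exp ((2 * A + η) * finrank ℚ k * T) := by
  classical
  obtain ⟨C, hC0, hC⟩ := small_count hcl k f hf hdeg η hη
  set Ω := AlgebraicClosure k with hΩ
  set d : ℝ := (finrank ℚ k : ℝ) with hd
  have hd0 : 0 < d := Nat.cast_pos.2 finrank_pos
  have hf0 : f ≠ 0 := hf.ne_zero
  refine ⟨(C * Real.exp (2 * d * B) + f.natDegree) * 2, fun T hT => ?_⟩
  set Y : ℝ := Real.exp (2 * d * (A * T + B)) with hY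
  have hY1 : 1 ≤ Y := Real.one_le_exp (by positivity)
  obtain ⟨h1, h2⟩ := hC (d * T) Y (by positivity) hY1
  set R : Set k := {x | f.eval x = 0} with hR
  have hRsub : R ⊆ (f.roots.toFinset : Set k) := by
    intro x hx
    rw [Finset.mem_coe, Multiset.mem_toFinset, mem_roots hf0]
    exact hx
  have hRf : R.Finite := (Finset.finite_toSet _).subset hRsub
  have hRc : R.ncard ≤ f.natDegree := by
    refine (Set.ncard_le_ncard hRsub (Finset.finite_toSet _)).trans ?_
    rw [Set.ncard_coe_finset]
    exact (Multiset.toFinset_card_le _).trans (card_roots' f)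
  set U : Set Ω := algebraMap k Ω '' (small k f (d * T) Y ∪ R) with hU
  have hUf : U.Finite := (h1.union hRf).image _
  have hUc : (U.ncard : ℝ) ≤ C * Y * Real.exp (η * (d * T)) + f.natDegree := by
    have h3 : U.ncard ≤ (small k f (d * T) Y).ncard + f.natDegree :=
      (Set.ncard_image_le (h1.union hRf)).trans ((Set.ncard_union_le _ _).trans (by omega))
    refine (Nat.cast_le.2 h3).trans ?_
    rw [Nat.cast_add]
    linarith
  have h5 := AA.UpperAux.ncard_le_of_fiber
    {P ∈ Pts k f T | HD.logDiscr P ≤ A * AA.height P.1 + B} Prod.fst U hUf ?_ 2 ?_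
  · refine ⟨h5.1, h5.2.trans ?_⟩
    have h6 : Y * Real.exp (η * (d * T)) =
        Real.exp (2 * d * B) * Real.exp ((2 * A + η) * d * T) := by
      rw [hY, ← Real.exp_add, ← Real.exp_add]
      congr 1
      ring
    have h7 : 1 ≤ Real.exp ((2 * A + η) * d * T) := Real.one_le_exp (by positivity)
    have h8 : (f.natDegree : ℝ) ≤ f.natDegree * Real.exp ((2 * A + η) * d * T) :=
      le_mul_of_one_le_right (Nat.cast_nonneg _) h7
    calc (U.ncard : ℝ) * 2 ≤ (C * Y * Real.exp (η * (d * T)) + f.natDegree) * 2 :=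
          mul_le_mul_of_nonneg_right hUc zero_le_two
      _ = (C * (Y * Real.exp (η * (d * T))) + f.natDegree) * 2 := by ring
      _ ≤ (C * (Real.exp (2 * d * B) * Real.exp ((2 * A + η) * d * T)) +
          f.natDegree * Real.exp ((2 * A + η) * d * T)) * 2 := by
          rw [h6]
          linarith
      _ = _ := by ring
  · rintro P ⟨⟨hP1, hP2, hP3⟩, hP4⟩
    obtain ⟨x, hx⟩ := exists_of_finrank_one P.1 hP2
    refine ⟨x, ?_, hx⟩
    by_cases hfx : f.eval x = 0
    · exact Or.inr hfx
    · refine Or.inl ⟨?_, hfx, P.2, ?_, ?_⟩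
      · rw [← hx, height_algebraMap, div_le_iff₀ hd0] at hP3
        linarith
      · rw [hP1, ← hx, aeval_algebraMap_apply, coe_aeval_eq_eval]
      · have hle : IntermediateField.adjoin k {P.2} ≤ IntermediateField.adjoin k {P.1, P.2} :=
          IntermediateField.adjoin.mono k _ _ (by simp)
        let : Algebra (IntermediateField.adjoin k {P.2})
            (IntermediateField.adjoin k {P.1, P.2}) :=
          (IntermediateField.inclusion hle).toRingHom.toAlgebra
        have h6 : SST.logDisc (IntermediateField.adjoin k {P.2}) ≤ HD.logDiscr P :=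
          HD.logDisc_le_of_algebra _ _
        rw [AA.UpperAux.discr_eq, hY]
        refine Real.exp_le_exp.2 ?_
        have h7 : (finrank ℚ (IntermediateField.adjoin k {P.2}) : ℝ) ≤ 2 * d := by
          have h8 : P.2 ^ 2 = algebraMap k Ω (f.eval x) := by
            rw [hP1, ← hx, aeval_algebraMap_apply, coe_aeval_eq_eval]
          have h9 : finrank k (IntermediateField.adjoin k {P.2}) ≤ 2 := by
            rcases finrank_sqrt (f.eval x) P.2 h8 with h | h <;> omega
          have h10 : finrank ℚ (IntermediateField.adjoin k {P.2}) =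
              finrank ℚ k * finrank k (IntermediateField.adjoin k {P.2}) :=
            (finrank_mul_finrank ℚ k _).symm
          have h11 : finrank ℚ (IntermediateField.adjoin k {P.2}) ≤ finrank ℚ k * 2 := by
            rw [h10]
            exact Nat.mul_le_mul_left _ h9
          have h12 : (finrank ℚ (IntermediateField.adjoin k {P.2}) : ℝ) ≤
              (finrank ℚ k : ℝ) * 2 := by exact_mod_cast h11
          linarith
        have h13 : SST.logDisc (IntermediateField.adjoin k {P.2}) ≤ A * T + B := by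
          have : A * AA.height P.1 ≤ A * T := mul_le_mul_of_nonneg_left hP3 hA
          linarith
        have h14 : (0 : ℝ) ≤ finrank ℚ (IntermediateField.adjoin k {P.2}) := Nat.cast_nonneg _
        calc (finrank ℚ (IntermediateField.adjoin k {P.2}) : ℝ) *
              SST.logDisc (IntermediateField.adjoin k {P.2}) ≤
            (finrank ℚ (IntermediateField.adjoin k {P.2}) : ℝ) * (A * T + B) :=
              mul_le_mul_of_nonneg_left h13 h14
          _ ≤ 2 * d * (A * T + B) := mul_le_mul_of_nonneg_right h7 (by positivity)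
  · intro x _
    have hsub : {P ∈ Pts k f T | HD.logDiscr P ≤ A * AA.height P.1 + B} ∩ Prod.fst ⁻¹' {x} ⊆
        (fun y => (x, y)) '' (((X ^ 2 - Polynomial.C (aeval x f) :
          (AlgebraicClosure k)[X]).roots.toFinset : Finset Ω) : Set Ω) := by
      rintro P ⟨⟨hP, -⟩, hPx⟩
      have hPx' : P.1 = x := hPx
      refine ⟨P.2, ?_, ?_⟩
      · rw [Finset.mem_coe, Multiset.mem_toFinset,
          mem_roots (monic_X_pow_sub_C _ two_ne_zero).ne_zero, IsRoot.def, eval_sub, eval_pow,
          eval_X, eval_C, hP.1, hPx', sub_self]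
      · rw [← hPx']
    have hfin : ((fun y => (x, y)) '' (((X ^ 2 - Polynomial.C (aeval x f) :
        (AlgebraicClosure k)[X]).roots.toFinset : Finset Ω) : Set Ω)).Finite :=
      (Finset.finite_toSet _).image _
    refine ⟨hfin.subset hsub, ?_⟩
    have h6 : ({P ∈ Pts k f T | HD.logDiscr P ≤ A * AA.height P.1 + B} ∩
        Prod.fst ⁻¹' {x}).ncard ≤ 2 := by
      refine (Set.ncard_le_ncard hsub hfin).trans ?_
      refine (Set.ncard_image_le (Finset.finite_toSet _)).trans ?_
      rw [Set.ncard_coe_finset]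
      refine (Multiset.toFinset_card_le _).trans ((card_roots' _).trans ?_)
      rw [natDegree_X_pow_sub_C]
    exact_mod_cast h6

end Pool.Agent.TW
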