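import Pool.Agent.TW.Twist
import Pool.Agent.Leh2.HtExt

/-!
# The number of points of small height on the twists of a hyperelliptic curve
-/

set_option autoImplicit false

open Height Module Polynomial

namespace Pool.Agent.TW

/-- the roots of a squarefree polynomial which splits -/
theorem exists_roots {L : Type} [Field L] [CharZero L] (g : L[X]) (hg : Squarefree g)
    (hs : g.Splits) : ∃ e : Fin g.natDegree → L, Function.Injective e ∧
      ∀ x, g.eval x = g.leadingCoeff * ∏ i, (x - e i) := by
  classical
  have hnd : g.roots.Nodup := nodup_roots (PerfectField.separable_iff_squarefree.2 hg)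
  have hcard : g.roots.toFinset.card = g.natDegree := by
    rw [Multiset.toFinset_card_of_nodup hnd, hs.natDegree_eq_card_roots]
  obtain ⟨ψ⟩ : Nonempty (Fin g.natDegree ≃ g.roots.toFinset) :=
    ⟨(Finset.equivFinOfCardEq hcard).symm⟩
  refine ⟨fun i => (ψ i : L), fun i j h => ψ.injective (Subtype.ext h), fun x => ?_⟩
  rw [hs.eval_eq_prod_roots]
  congr 1
  rw [Equiv.prod_comp ψ (fun a : g.roots.toFinset => x - (a : L)),
    Finset.prod_coe_sort g.roots.toFinset (fun a => x - a), Finset.prod_eq_multiset_prod,
    Multiset.toFinset_val, hnd.dedup]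

/-- the abscissas of height at most `T` of the points with `y ≠ 0` on `δ y² = f(x)` -/
def ptsF {k : Type} [Field k] [NumberField k] (f : k[X]) (δ : k) (T : ℝ) : Set k :=
  {x | logHeight₁ x ≤ T ∧ ∃ y, y ≠ 0 ∧ δ * y ^ 2 = f.eval x}

theorem ptsF_finite {k : Type} [Field k] [NumberField k] (f : k[X]) (δ : k) (T : ℝ) :
    (ptsF f δ T).Finite :=
  (NumberField.finite_setOfPred_logHeight₁_le k T).subset fun _ hx => hx.1

/-- The number of points of small height on the twists, uniformly in the twist. -/
theorem twist_count (hcl : ∀ (L : Type) [Field L] [NumberField L], ClassBound L) (k : Type)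
    [Field k] [NumberField k] (f : k[X]) (hf : Squarefree f) (hdeg : 3 ≤ f.natDegree) (η : ℝ)
    (hη : 0 < η) : ∃ C : ℝ, ∀ T : ℝ, 0 ≤ T → ∀ δ : k, δ ≠ 0 →
      ((ptsF f δ T).ncard : ℝ) ≤ C * Real.exp (η * T) := by
  have hf0 : f ≠ 0 := hf.ne_zero
  let L : Type := f.SplittingField
  have hL : NumberField L := NumberField.of_module_finite k L
  set g : L[X] := f.map (algebraMap k L) with hg
  have hinj : Function.Injective (algebraMap k L) := (algebraMap k L).injective
  have hdegg : g.natDegree = f.natDegree := natDegree_map_eq_of_injective hinj f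
  have hsf : Squarefree g := by
    have h1 : f.Separable := PerfectField.separable_iff_squarefree.2 hf
    exact (h1.map).squarefree
  have hsp : g.Splits := SplittingField.splits f
  obtain ⟨e, he, heval⟩ := exists_roots g hsf hsp
  have hlc : g.leadingCoeff ≠ 0 := leadingCoeff_ne_zero.2 hsf.ne_zero
  set N : ℝ := (finrank k L : ℝ) with hN
  have hN0 : 0 < N := Nat.cast_pos.2 finrank_pos
  obtain ⟨C, hC⟩ := count_split (hcl L) g.natDegree (by omega) e he g.leadingCoeff hlc (η / N)
    (by positivity)
  refine ⟨C, fun T hT δ hδ => ?_⟩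
  have hδ' : algebraMap k L δ ≠ 0 := (_root_.map_ne_zero _).2 hδ
  have hmaps : ∀ x ∈ ptsF f δ T, algebraMap k L x ∈
      ptsN e g.leadingCoeff (algebraMap k L δ) (N * T) := by
    rintro x ⟨hx, y, hy, hxy⟩
    refine ⟨?_, algebraMap k L y, (_root_.map_ne_zero _).2 hy, ?_⟩
    · have h1 := Leh2.nh_algebraMap (L := L) x
      unfold Leh2.nh at h1
      have h2 : (0 : ℝ) < finrank ℚ k := Nat.cast_pos.2 finrank_pos
      have h3 : (finrank ℚ L : ℝ) = finrank ℚ k * N := by
        rw [hN]
        exact_mod_cast (finrank_mul_finrank ℚ k L).symm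
      rw [h3, div_eq_div_iff (by positivity) h2.ne'] at h1
      have h4 : logHeight₁ (algebraMap k L x) = logHeight₁ x * N :=
        mul_right_cancel₀ h2.ne' (by linarith)
      rw [h4]
      nlinarith
    · rw [← heval, hg, eval_map_algebraMap, aeval_algebraMap_apply, coe_aeval_eq_eval, ← hxy,
        map_mul, map_pow]
  have h1 : (ptsF f δ T).ncard ≤
      (ptsN e g.leadingCoeff (algebraMap k L δ) (N * T)).ncard :=
    Set.ncard_le_ncard_of_injOn _ hmaps hinj.injOn (ptsN_finite _ _ _ _)
  have h2 : ((ptsF f δ T).ncard : ℝ) ≤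
      ((ptsN e g.leadingCoeff (algebraMap k L δ) (N * T)).ncard : ℝ) := by exact_mod_cast h1
  refine h2.trans ((hC (N * T) (by positivity) _ hδ').trans (le_of_eq ?_))
  congr 2
  field_simp

end Pool.Agent.TW
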