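import Mathlib

/-!
# Halving on the twists of a cubic, uniformly in the twist

`f = (X - e 0) (X - e 1) (X - e 2)` over a number field `L`. If `x₁ ≠ x₂` are abscissas of points of
`δ y² = f(x)` in the same class, that is if all `(x₁ - e i) (x₂ - e i)` are squares, then one of the
two points `P₁ ± P₂` of small height is the double of a point `(ξ, η)`; the height of `ξ` is at most
`(h(x₁) + h(x₂)) / 4 + C`, where `C` does not depend on `δ`.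
-/

set_option autoImplicit false

open Height

namespace Pool.Agent.TW

section alg

variable {L : Type} [Field L]

/-- the cubic -/
def cub (e : Fin 3 → L) (x : L) : L := (x - e 0) * (x - e 1) * (x - e 2)

/-- the abscissa of the double of a point with abscissa `ξ` -/
noncomputable def dup (e : Fin 3 → L) (ξ : L) : L :=
  (ξ ^ 4 - 2 * (e 0 * e 1 + e 0 * e 2 + e 1 * e 2) * ξ ^ 2 + 8 * (e 0 * e 1 * e 2) * ξ +
    ((e 0 * e 1 + e 0 * e 2 + e 1 * e 2) ^ 2 -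
      4 * ((e 0 + e 1 + e 2) * (e 0 * e 1 * e 2)))) / (4 * cub e ξ)

/-- the relation between the abscissas of three points whose sum is zero for a choice of signs -/
def rel (e : Fin 3 → L) (x₁ x₂ x₃ : L) : Prop :=
  ((e 0 * e 1 + e 0 * e 2 + e 1 * e 2) - (x₁ * x₂ + x₁ * x₃ + x₂ * x₃)) ^ 2 =
    4 * (x₁ + x₂ + x₃ - (e 0 + e 1 + e 2)) * (x₁ * x₂ * x₃ - e 0 * e 1 * e 2)

/-- the line through two points of the twist -/
theorem line (e : Fin 3 → L) (δ x₁ x₂ y₁ y₂ lam nu : L) (hx : x₁ ≠ x₂)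
    (h₁ : δ * y₁ ^ 2 = cub e x₁) (h₂ : δ * y₂ ^ 2 = cub e x₂) (hl₁ : y₁ = lam * x₁ + nu)
    (hl₂ : y₂ = lam * x₂ + nu) (x₃ : L) (hx₃ : x₃ = δ * lam ^ 2 + (e 0 + e 1 + e 2) - x₁ - x₂) :
    ∀ X : L, cub e X - δ * (lam * X + nu) ^ 2 = (X - x₁) * (X - x₂) * (X - x₃) := by
  set A : L := (e 0 * e 1 + e 0 * e 2 + e 1 * e 2) - 2 * δ * lam * nu -
    (x₁ * x₂ + x₁ * x₃ + x₂ * x₃) with hA
  set B : L := -(e 0 * e 1 * e 2) - δ * nu ^ 2 + x₁ * x₂ * x₃ with hB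
  have key : ∀ X : L, cub e X - δ * (lam * X + nu) ^ 2 - (X - x₁) * (X - x₂) * (X - x₃) =
      A * X + B := by
    intro X
    rw [hA, hB, hx₃]
    unfold cub
    ring
  have k₁ : A * x₁ + B = 0 := by
    rw [← key x₁, ← hl₁, ← h₁]
    ring
  have k₂ : A * x₂ + B = 0 := by
    rw [← key x₂, ← hl₂, ← h₂]
    ring
  have k₃ : A * (x₁ - x₂) = 0 := by linear_combination k₁ - k₂
  have hA0 : A = 0 := (mul_eq_zero.1 k₃).resolve_right (sub_ne_zero.2 hx)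
  have hB0 : B = 0 := by
    rw [hA0] at k₁
    simpa using k₁
  intro X
  have := key X
  rw [hA0, hB0] at this
  linear_combination this

theorem rel_of_line (e : Fin 3 → L) (δ x₁ x₂ x₃ lam nu : L)
    (hline : ∀ X : L, cub e X - δ * (lam * X + nu) ^ 2 = (X - x₁) * (X - x₂) * (X - x₃))
    (hinf : x₃ = δ * lam ^ 2 + (e 0 + e 1 + e 2) - x₁ - x₂) : rel e x₁ x₂ x₃ := by
  have h0 := hline 0
  have h1 := hline 1
  unfold cub at h0 h1
  have c0 : δ * nu ^ 2 = x₁ * x₂ * x₃ - e 0 * e 1 * e 2 := by linear_combination -h0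
  have c2 : δ * lam ^ 2 = x₁ + x₂ + x₃ - (e 0 + e 1 + e 2) := by linear_combination -hinf
  have c1 : 2 * δ * lam * nu = (e 0 * e 1 + e 0 * e 2 + e 1 * e 2) -
      (x₁ * x₂ + x₁ * x₃ + x₂ * x₃) := by
    linear_combination -h1 + h0 - c2
  unfold rel
  rw [← c1, ← c0, ← c2]
  ring

/-- The point which is halved. -/
theorem halve (e : Fin 3 → L) (he : Function.Injective e) (h2 : (2 : L) ≠ 0) (δ x₃ : L)
    (hδ : δ ≠ 0) (z : Fin 3 → L) (hz : ∀ i, x₃ - e i = δ * z i ^ 2) :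
    ∃ ξ η : L, η ≠ 0 ∧ δ * η ^ 2 = cub e ξ ∧ dup e ξ = x₃ := by
  have hne : ∀ i j, i ≠ j → z i + z j ≠ 0 := by
    intro i j hij h
    apply hij
    apply he
    have h1 : z i = - z j := by linear_combination h
    have h3 := hz i
    rw [h1] at h3
    have h4 := hz j
    linear_combination h4 - h3
  set ξ : L := x₃ + δ * (z 0 * z 1 + z 0 * z 2 + z 1 * z 2) with hξ
  set η : L := δ * ((z 0 + z 1) * (z 0 + z 2) * (z 1 + z 2)) with hη
  have hη0 : η ≠ 0 :=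
    mul_ne_zero hδ (mul_ne_zero (mul_ne_zero (hne 0 1 (by decide)) (hne 0 2 (by decide)))
      (hne 1 2 (by decide)))
  have e0 : e 0 = x₃ - δ * z 0 ^ 2 := by linear_combination -(hz 0)
  have e1 : e 1 = x₃ - δ * z 1 ^ 2 := by linear_combination -(hz 1)
  have e2 : e 2 = x₃ - δ * z 2 ^ 2 := by linear_combination -(hz 2)
  have hcub : δ * η ^ 2 = cub e ξ := by
    unfold cub
    rw [e0, e1, e2, hη, hξ]
    ring
  refine ⟨ξ, η, hη0, hcub, ?_⟩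
  have hcub0 : cub e ξ ≠ 0 := by
    rw [← hcub]
    exact mul_ne_zero hδ (pow_ne_zero 2 hη0)
  have h4 : (4 : L) ≠ 0 := by
    have : (4 : L) = 2 * 2 := by norm_num
    rw [this]
    exact mul_ne_zero h2 h2
  unfold dup
  rw [div_eq_iff (mul_ne_zero h4 hcub0), ← hcub, e0, e1, e2, hη, hξ]
  ring

/-- the third points of both lines are the doubles -/
theorem z_of_line (e : Fin 3 → L) (δ x₁ x₂ x₃ lam nu : L)
    (hline : ∀ X : L, cub e X - δ * (lam * X + nu) ^ 2 = (X - x₁) * (X - x₂) * (X - x₃))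
    (w : Fin 3 → L) (hw : ∀ i, w i ^ 2 = (x₁ - e i) * (x₂ - e i)) (hw0 : ∀ i, w i ≠ 0) (i : Fin 3) :
    x₃ - e i = δ * ((lam * e i + nu) / w i) ^ 2 := by
  have h1 := hline (e i)
  have h2 : cub e (e i) = 0 := by
    unfold cub
    fin_cases i <;> simp
  rw [h2] at h1
  rw [div_pow, hw i]
  have h3 : (x₁ - e i) * (x₂ - e i) ≠ 0 := by
    rw [← hw i]
    exact pow_ne_zero 2 (hw0 i)
  rw [← mul_div_assoc, eq_div_iff h3]
  linear_combination h1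

/-- sum and product of the two third abscissas -/
theorem sum_third (e : Fin 3 → L) (δ x₁ x₂ y₁ y₂ : L) (hx : x₁ ≠ x₂)
    (h₁ : δ * y₁ ^ 2 = cub e x₁) (h₂ : δ * y₂ ^ 2 = cub e x₂) (a b : L)
    (ha : a = δ * ((y₁ - y₂) / (x₁ - x₂)) ^ 2 + (e 0 + e 1 + e 2) - x₁ - x₂)
    (hb : b = δ * ((y₁ + y₂) / (x₁ - x₂)) ^ 2 + (e 0 + e 1 + e 2) - x₁ - x₂) :
    (x₁ - x₂) ^ 2 * (a + b) = 2 * (x₁ + x₂) * (x₁ * x₂) - 4 * (e 0 + e 1 + e 2) * (x₁ * x₂) +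
      2 * (e 0 * e 1 + e 0 * e 2 + e 1 * e 2) * (x₁ + x₂) - 4 * (e 0 * e 1 * e 2) ∧
    (x₁ - x₂) ^ 2 * (a * b) = (x₁ * x₂) ^ 2 -
      2 * (e 0 * e 1 + e 0 * e 2 + e 1 * e 2) * (x₁ * x₂) + 4 * (e 0 * e 1 * e 2) * (x₁ + x₂) -
      (4 * (e 0 + e 1 + e 2) * (e 0 * e 1 * e 2) - (e 0 * e 1 + e 0 * e 2 + e 1 * e 2) ^ 2) := by
  have hd : x₁ - x₂ ≠ 0 := sub_ne_zero.2 hx
  set s : L := (e 0 + e 1 + e 2) - x₁ - x₂ with hs
  have ha' : (x₁ - x₂) ^ 2 * a = δ * (y₁ - y₂) ^ 2 + s * (x₁ - x₂) ^ 2 := by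
    rw [ha, hs]
    field_simp
    ring
  have hb' : (x₁ - x₂) ^ 2 * b = δ * (y₁ + y₂) ^ 2 + s * (x₁ - x₂) ^ 2 := by
    rw [hb, hs]
    field_simp
    ring
  unfold cub at h₁ h₂
  constructor
  · rw [mul_add, ha', hb', hs]
    linear_combination 2 * h₁ + 2 * h₂
  · have h4 : (x₁ - x₂) ^ 2 * ((x₁ - x₂) ^ 2 * (a * b)) = (x₁ - x₂) ^ 2 * ((x₁ * x₂) ^ 2 -
      2 * (e 0 * e 1 + e 0 * e 2 + e 1 * e 2) * (x₁ * x₂) + 4 * (e 0 * e 1 * e 2) * (x₁ + x₂) -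
      (4 * (e 0 + e 1 + e 2) * (e 0 * e 1 * e 2) -
        (e 0 * e 1 + e 0 * e 2 + e 1 * e 2) ^ 2)) := by
      have h5 : (x₁ - x₂) ^ 2 * ((x₁ - x₂) ^ 2 * (a * b)) =
          ((x₁ - x₂) ^ 2 * a) * ((x₁ - x₂) ^ 2 * b) := by ring
      have h6 : (δ * (y₁ - y₂) ^ 2 + s * (x₁ - x₂) ^ 2) *
          (δ * (y₁ + y₂) ^ 2 + s * (x₁ - x₂) ^ 2) =
          (δ * y₁ ^ 2 - δ * y₂ ^ 2) ^ 2 + 2 * s * (x₁ - x₂) ^ 2 * (δ * y₁ ^ 2 + δ * y₂ ^ 2) +
            s ^ 2 * (x₁ - x₂) ^ 4 := by ring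
      rw [h5, ha', hb', h6, h₁, h₂, hs]
      ring
    exact mul_left_cancel₀ (pow_ne_zero 2 hd) h4

end alg

section height

variable {L : Type} [Field L] [NumberField L]

/-- the Weierstrass curve of the cubic -/
noncomputable def wei (e : Fin 3 → L) : WeierstrassCurve L where
  a₁ := 0
  a₂ := -(e 0 + e 1 + e 2)
  a₃ := 0
  a₄ := e 0 * e 1 + e 0 * e 2 + e 1 * e 2
  a₆ := -(e 0 * e 1 * e 2)

theorem wei_elliptic (e : Fin 3 → L) (he : Function.Injective e) : (wei e).IsElliptic := by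
  refine ⟨?_⟩
  have h1 : (wei e).Δ = 16 * ((e 0 - e 1) * (e 0 - e 2) * (e 1 - e 2)) ^ 2 := by
    unfold WeierstrassCurve.Δ WeierstrassCurve.b₂ WeierstrassCurve.b₄ WeierstrassCurve.b₆
      WeierstrassCurve.b₈ wei
    ring
  rw [h1, isUnit_iff_ne_zero]
  have h2 : ∀ i j, i ≠ j → e i - e j ≠ 0 := fun i j hij h => hij (he (sub_eq_zero.1 h))
  exact mul_ne_zero (by norm_num) (pow_ne_zero 2 (mul_ne_zero (mul_ne_zero (h2 0 1 (by decide))
    (h2 0 2 (by decide))) (h2 1 2 (by decide))))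

omit [NumberField L] in
/-- values of the addition and subtraction map -/
theorem addSub_eval (e : Fin 3 → L) (s t u : L) :
    (fun i => ((wei e).addSubMap i).eval ![s, t, u]) =
      ![s ^ 2 - 2 * (e 0 * e 1 + e 0 * e 2 + e 1 * e 2) * s * u + 4 * (e 0 * e 1 * e 2) * t * u -
          (4 * (e 0 + e 1 + e 2) * (e 0 * e 1 * e 2) -
            (e 0 * e 1 + e 0 * e 2 + e 1 * e 2) ^ 2) * u ^ 2,
        2 * t * s - 4 * (e 0 + e 1 + e 2) * s * u +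
          2 * (e 0 * e 1 + e 0 * e 2 + e 1 * e 2) * t * u - 4 * (e 0 * e 1 * e 2) * u ^ 2,
        t ^ 2 - 4 * s * u] := by
  funext i
  unfold WeierstrassCurve.addSubMap
  fin_cases i <;>
    simp only [WeierstrassCurve.b₂, WeierstrassCurve.b₄, WeierstrassCurve.b₆,
      WeierstrassCurve.b₈, wei, Fin.zero_eta, Fin.mk_one, Fin.reduceFinMk, Matrix.cons_val_zero,
      Matrix.cons_val_one, Matrix.cons_val, map_sub, map_add, map_mul, map_pow,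
      MvPolynomial.eval_C, MvPolynomial.eval_X, Fin.isValue] <;> ring

/-- The height constants of the cubic. -/
theorem height_dup (e : Fin 3 → L) (he : Function.Injective e) : ∃ C : ℝ, ∀ ξ : L, cub e ξ ≠ 0 →
    4 * logHeight₁ ξ ≤ logHeight₁ (dup e ξ) + C := by
  have := wei_elliptic e he
  obtain ⟨C₁, hC₁⟩ := (wei e).abs_logHeight_addSubMap_sub_two_mul_logHeight_le
  obtain ⟨C₂, hC₂⟩ := abs_logHeight_sym2_sub_le L
  refine ⟨C₁ + 3 * C₂, fun ξ hξ => ?_⟩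
  have h1 := hC₁ ![ξ * ξ, ξ * 1 + 1 * ξ, 1 * 1]
  rw [addSub_eval] at h1
  have n1 : (![ξ, 1] : Fin 2 → L) ≠ 0 := by
    intro h
    have := congrFun h 1
    simp at this
  have n2 : (![dup e ξ, 1] : Fin 2 → L) ≠ 0 := by
    intro h
    have := congrFun h 1
    simp at this
  have n3 : (![1, 0] : Fin 2 → L) ≠ 0 := by
    intro h
    have := congrFun h 0
    simp at this
  have h2 := hC₂ n1 n1
  have h3 := hC₂ n2 n3
  have h4 : (4 : L) * cub e ξ ≠ 0 := mul_ne_zero (by norm_num) hξ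
  have h5 : (![(ξ * ξ) ^ 2 - 2 * (e 0 * e 1 + e 0 * e 2 + e 1 * e 2) * (ξ * ξ) * (1 * 1) +
          4 * (e 0 * e 1 * e 2) * (ξ * 1 + 1 * ξ) * (1 * 1) -
          (4 * (e 0 + e 1 + e 2) * (e 0 * e 1 * e 2) -
            (e 0 * e 1 + e 0 * e 2 + e 1 * e 2) ^ 2) * (1 * 1) ^ 2,
        2 * (ξ * 1 + 1 * ξ) * (ξ * ξ) - 4 * (e 0 + e 1 + e 2) * (ξ * ξ) * (1 * 1) +
          2 * (e 0 * e 1 + e 0 * e 2 + e 1 * e 2) * (ξ * 1 + 1 * ξ) * (1 * 1) -
            4 * (e 0 * e 1 * e 2) * (1 * 1) ^ 2,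
        (ξ * 1 + 1 * ξ) ^ 2 - 4 * (ξ * ξ) * (1 * 1)] : Fin 3 → L) =
      (4 * cub e ξ) • ![dup e ξ * 1, dup e ξ * 0 + 1 * 1, 1 * 0] := by
    have h6 : dup e ξ * (4 * cub e ξ) = ξ ^ 4 -
        2 * (e 0 * e 1 + e 0 * e 2 + e 1 * e 2) * ξ ^ 2 + 8 * (e 0 * e 1 * e 2) * ξ +
        ((e 0 * e 1 + e 0 * e 2 + e 1 * e 2) ^ 2 -
          4 * ((e 0 + e 1 + e 2) * (e 0 * e 1 * e 2))) := by
      unfold dup
      exact div_mul_cancel₀ _ h4
    funext i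
    fin_cases i
    · simp only [Fin.zero_eta, Matrix.cons_val_zero, Pi.smul_apply, smul_eq_mul]
      linear_combination -h6
    · simp only [Fin.mk_one, Matrix.cons_val_one, Matrix.cons_val_zero, Pi.smul_apply,
        smul_eq_mul]
      unfold cub
      ring
    · simp only [Fin.reduceFinMk, Matrix.cons_val, Pi.smul_apply, smul_eq_mul]
      ring
  rw [h5, logHeight_smul_eq_logHeight _ h4] at h1
  have h7 : logHeight (![1, 0] : Fin 2 → L) = 0 := by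
    have := logHeight₁_eq_logHeight (0 : L)
    rw [logHeight₁_zero, logHeight_swap] at this
    exact this.symm
  rw [← logHeight₁_eq_logHeight] at h2 h3
  rw [h7] at h3
  rw [abs_le] at h1 h2 h3
  linarith [h1.1, h1.2, h2.1, h2.2, h3.1, h3.2]

/-- The sum of the heights of the two third points. -/
theorem height_sum (e : Fin 3 → L) (he : Function.Injective e) : ∃ C : ℝ,
    ∀ δ x₁ x₂ y₁ y₂ a b : L, x₁ ≠ x₂ → δ * y₁ ^ 2 = cub e x₁ → δ * y₂ ^ 2 = cub e x₂ →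
    a = δ * ((y₁ - y₂) / (x₁ - x₂)) ^ 2 + (e 0 + e 1 + e 2) - x₁ - x₂ →
    b = δ * ((y₁ + y₂) / (x₁ - x₂)) ^ 2 + (e 0 + e 1 + e 2) - x₁ - x₂ →
    logHeight₁ a + logHeight₁ b ≤ 2 * (logHeight₁ x₁ + logHeight₁ x₂) + C := by
  have := wei_elliptic e he
  obtain ⟨C₁, hC₁⟩ := (wei e).abs_logHeight_addSubMap_sub_two_mul_logHeight_le
  obtain ⟨C₂, hC₂⟩ := abs_logHeight_sym2_sub_le L
  refine ⟨C₁ + 3 * C₂, fun δ x₁ x₂ y₁ y₂ a b hx h₁ h₂ ha hb => ?_⟩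
  obtain ⟨hs, hp⟩ := sum_third e δ x₁ x₂ y₁ y₂ hx h₁ h₂ a b ha hb
  have h1 := hC₁ ![x₁ * x₂, x₁ * 1 + 1 * x₂, 1 * 1]
  rw [addSub_eval] at h1
  have n1 : ∀ x : L, (![x, 1] : Fin 2 → L) ≠ 0 := by
    intro x h
    have := congrFun h 1
    simp at this
  have h2 := hC₂ (n1 x₁) (n1 x₂)
  have h3 := hC₂ (n1 a) (n1 b)
  have h4 : (x₁ - x₂) ^ 2 ≠ 0 := pow_ne_zero 2 (sub_ne_zero.2 hx)
  have h5 : (![(x₁ * x₂) ^ 2 - 2 * (e 0 * e 1 + e 0 * e 2 + e 1 * e 2) * (x₁ * x₂) * (1 * 1) +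
          4 * (e 0 * e 1 * e 2) * (x₁ * 1 + 1 * x₂) * (1 * 1) -
          (4 * (e 0 + e 1 + e 2) * (e 0 * e 1 * e 2) -
            (e 0 * e 1 + e 0 * e 2 + e 1 * e 2) ^ 2) * (1 * 1) ^ 2,
        2 * (x₁ * 1 + 1 * x₂) * (x₁ * x₂) - 4 * (e 0 + e 1 + e 2) * (x₁ * x₂) * (1 * 1) +
          2 * (e 0 * e 1 + e 0 * e 2 + e 1 * e 2) * (x₁ * 1 + 1 * x₂) * (1 * 1) -
            4 * (e 0 * e 1 * e 2) * (1 * 1) ^ 2,
        (x₁ * 1 + 1 * x₂) ^ 2 - 4 * (x₁ * x₂) * (1 * 1)] : Fin 3 → L) =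
      ((x₁ - x₂) ^ 2) • ![a * b, a * 1 + 1 * b, 1 * 1] := by
    funext i
    fin_cases i
    · simp only [Fin.zero_eta, Matrix.cons_val_zero, Pi.smul_apply, smul_eq_mul]
      linear_combination -hp
    · simp only [Fin.mk_one, Matrix.cons_val_one, Matrix.cons_val_zero, Pi.smul_apply,
        smul_eq_mul]
      linear_combination -hs
    · simp only [Fin.reduceFinMk, Matrix.cons_val, Pi.smul_apply, smul_eq_mul]
      ring
  rw [h5, logHeight_smul_eq_logHeight _ h4] at h1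
  rw [← logHeight₁_eq_logHeight, ← logHeight₁_eq_logHeight] at h2 h3
  rw [abs_le] at h1 h2 h3
  linarith [h1.1, h1.2, h2.1, h2.2, h3.1, h3.2]

/-- Halving: two points of the same class give a point of small height. -/
theorem exists_half (e : Fin 3 → L) (he : Function.Injective e) : ∃ C : ℝ, 0 ≤ C ∧
    ∀ δ x₁ x₂ y₁ y₂ : L, δ ≠ 0 → x₁ ≠ x₂ → y₁ ≠ 0 → y₂ ≠ 0 → δ * y₁ ^ 2 = cub e x₁ →
      δ * y₂ ^ 2 = cub e x₂ → (∀ i, IsSquare ((x₁ - e i) * (x₂ - e i))) →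
      ∃ ξ η : L, η ≠ 0 ∧ δ * η ^ 2 = cub e ξ ∧
        4 * logHeight₁ ξ ≤ logHeight₁ x₁ + logHeight₁ x₂ + C ∧ rel e x₁ x₂ (dup e ξ) := by
  obtain ⟨C₁, hC₁⟩ := height_dup e he
  obtain ⟨C₂, hC₂⟩ := height_sum e he
  refine ⟨|C₁| + |C₂|, by positivity, fun δ x₁ x₂ y₁ y₂ hδ hx hy₁ hy₂ h₁ h₂ hsq => ?_⟩
  choose w' hw' using hsq
  have hw : ∀ i, w' i ^ 2 = (x₁ - e i) * (x₂ - e i) := fun i => by rw [hw' i, sq]
  have hx₁ : ∀ i, x₁ - e i ≠ 0 := by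
    intro i h
    have h3 : cub e x₁ ≠ 0 := by
      rw [← h₁]
      exact mul_ne_zero hδ (pow_ne_zero 2 hy₁)
    apply h3
    unfold cub
    fin_cases i <;> simp_all
  have hx₂ : ∀ i, x₂ - e i ≠ 0 := by
    intro i h
    have h3 : cub e x₂ ≠ 0 := by
      rw [← h₂]
      exact mul_ne_zero hδ (pow_ne_zero 2 hy₂)
    apply h3
    unfold cub
    fin_cases i <;> simp_all
  have hw0 : ∀ i, w' i ≠ 0 := by
    intro i h
    have h3 := hw i
    rw [h] at h3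
    exact mul_ne_zero (hx₁ i) (hx₂ i) (by rw [← h3]; ring)
  -- the general step
  have step : ∀ y : L, δ * y ^ 2 = cub e x₂ →
      ∃ ξ η : L, η ≠ 0 ∧ δ * η ^ 2 = cub e ξ ∧
        dup e ξ = δ * ((y₁ - y) / (x₁ - x₂)) ^ 2 + (e 0 + e 1 + e 2) - x₁ - x₂ ∧
        rel e x₁ x₂ (dup e ξ) := by
    intro y hy
    have hd : x₁ - x₂ ≠ 0 := sub_ne_zero.2 hx
    set lam : L := (y₁ - y) / (x₁ - x₂) with hlam
    set nu : L := y₁ - lam * x₁ with hnu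
    set x₃ : L := δ * lam ^ 2 + (e 0 + e 1 + e 2) - x₁ - x₂ with hx₃
    have hl₂ : y = lam * x₂ + nu := by
      have : lam * (x₁ - x₂) = y₁ - y := div_mul_cancel₀ _ hd
      rw [hnu]
      linear_combination this
    have hline := line e δ x₁ x₂ y₁ y lam nu hx h₁ hy (by rw [hnu]; ring) hl₂ x₃ hx₃
    have hz := z_of_line e δ x₁ x₂ x₃ lam nu hline w' hw hw0
    obtain ⟨ξ, η, k1, k2, k3⟩ := halve e he (by norm_num) δ x₃ hδ _ hz
    refine ⟨ξ, η, k1, k2, k3, ?_⟩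
    rw [k3]
    exact rel_of_line e δ x₁ x₂ x₃ lam nu hline hx₃
  obtain ⟨ξ, η, k1, k2, k3, k4⟩ := step y₂ h₂
  obtain ⟨ξ', η', k1', k2', k3', k4'⟩ := step (-y₂) (by rw [neg_sq]; exact h₂)
  rw [sub_neg_eq_add] at k3'
  have hsum := hC₂ δ x₁ x₂ y₁ y₂ (dup e ξ) (dup e ξ') hx h₁ h₂ k3 k3'
  have hc : ∀ ζ η : L, η ≠ 0 → δ * η ^ 2 = cub e ζ → cub e ζ ≠ 0 := by
    intro ζ η hη h
    rw [← h]
    exact mul_ne_zero hδ (pow_ne_zero 2 hη)
  have g1 := hC₁ ξ (hc ξ η k1 k2)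
  have g2 := hC₁ ξ' (hc ξ' η' k1' k2')
  have a1 := le_abs_self C₁
  have a2 := le_abs_self C₂
  have a3 := abs_nonneg C₂
  rcases le_total (logHeight₁ (dup e ξ)) (logHeight₁ (dup e ξ')) with h | h
  · exact ⟨ξ, η, k1, k2, by linarith, k4⟩
  · exact ⟨ξ', η', k1', k2', by linarith, k4'⟩

end height

section fibre

open Polynomial

variable {L : Type} [Field L]

private theorem coeff_quad (a b c : L) : (C a * X ^ 2 + C b * X + C c : L[X]).coeff 2 = a ∧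
    (C a * X ^ 2 + C b * X + C c : L[X]).coeff 1 = b := by
  constructor <;> simp [coeff_C]

/-- Given `x₁` and `x₃` there are at most two `x₂`. -/
theorem card_rel (e : Fin 3 → L) (h4 : (4 : L) ≠ 0) (x₁ x₃ : L) (hx₁ : cub e x₁ ≠ 0)
    (s : Finset L) (hs : ∀ x ∈ s, rel e x₁ x x₃) : s.card ≤ 2 := by
  classical
  set a4 : L := e 0 * e 1 + e 0 * e 2 + e 1 * e 2 with ha4
  set P : L[X] := (C (a4 - x₁ * x₃) - C (x₁ + x₃) * X) ^ 2 -
    C 4 * (X + C (x₁ + x₃ - (e 0 + e 1 + e 2))) * (C (x₁ * x₃) * X - C (e 0 * e 1 * e 2)) with hP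
  have hP' : P = C ((x₁ - x₃) ^ 2) * X ^ 2 + C (-2 * (a4 - x₁ * x₃) * (x₁ + x₃) -
      4 * (x₁ + x₃ - (e 0 + e 1 + e 2)) * (x₁ * x₃) + 4 * (e 0 * e 1 * e 2)) * X +
      C ((a4 - x₁ * x₃) ^ 2 + 4 * (x₁ + x₃ - (e 0 + e 1 + e 2)) * (e 0 * e 1 * e 2)) := by
    rw [hP]
    simp only [C_add, C_sub, C_mul, C_pow, C_neg]
    have : (C (4 : L) : L[X]) = 4 := rfl
    have h2 : (C (2 : L) : L[X]) = 2 := rfl
    rw [this, h2]
    ring
  have hdeg : P.natDegree ≤ 2 := by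
    rw [hP']
    exact natDegree_quadratic_le
  have hP0 : P ≠ 0 := by
    intro h0
    have c2 : P.coeff 2 = (x₁ - x₃) ^ 2 := by
      rw [hP']
      exact (coeff_quad _ _ _).1
    have c1 : P.coeff 1 = -2 * (a4 - x₁ * x₃) * (x₁ + x₃) -
      4 * (x₁ + x₃ - (e 0 + e 1 + e 2)) * (x₁ * x₃) + 4 * (e 0 * e 1 * e 2) := by
      rw [hP']
      exact (coeff_quad _ _ _).2
    rw [h0, coeff_zero] at c1 c2
    have hx : x₃ = x₁ := by
      have := pow_eq_zero_iff (n := 2) (by norm_num) |>.1 c2.symm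
      linear_combination -this
    apply hx₁
    rw [hx, ha4] at c1
    have h5 : (4 : L) * cub e x₁ = 0 := by
      unfold cub
      linear_combination c1
    exact (mul_eq_zero.1 h5).resolve_left h4
  have hsub : s ⊆ P.roots.toFinset := by
    intro x hx
    rw [Multiset.mem_toFinset, mem_roots hP0, IsRoot.def]
    have h1 := hs x hx
    unfold rel at h1
    rw [hP]
    simp only [eval_sub, eval_pow, eval_mul, eval_C, eval_add, eval_X]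
    rw [← ha4] at h1
    linear_combination h1
  exact (Finset.card_le_card hsub).trans ((Multiset.toFinset_card_le _).trans
    ((card_roots' P).trans hdeg))

end fibre

end Pool.Agent.TW
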