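import Pool.Agent.TW.SqClass
import Pool.Agent.RefW.DenIdeal

/-!
# The number of primes at which an element is not a unit

For `η > 0` there is `C` such that `2 ^ #{v | W v a ≠ 0} ≤ C exp (η h(a))` for all `a ≠ 0`.
-/

set_option autoImplicit false

open NumberField IsDedekindDomain WithZero

namespace Pool.Agent.TW

variable {L : Type} [Field L] [NumberField L]

private theorem W_int_nonpos (v : HeightOneSpectrum (𝓞 L)) (a : 𝓞 L) : W v (a : L) ≤ 0 := by
  unfold W
  rcases eq_or_ne (a : L) 0 with h | h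
  · rw [h, map_zero, WithZero.log_zero]
  · rw [← WithZero.log_one, WithZero.log_le_log ((Valuation.ne_zero_iff _).2 h) one_ne_zero]
    exact v.valuation_le_one a

private theorem W_int_neg (v : HeightOneSpectrum (𝓞 L)) {a : 𝓞 L} (ha : a ≠ 0)
    (h : W v (a : L) < 0) : a ∈ v.asIdeal := by
  rw [← HeightOneSpectrum.valuation_lt_one_iff_mem (K := L)]
  have hL : (a : L) ≠ 0 := by
    intro h0
    exact ha (by exact_mod_cast h0)
  unfold W at h
  rw [← WithZero.log_one, WithZero.log_lt_log ((Valuation.ne_zero_iff _).2 hL) one_ne_zero] at h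
  exact h

theorem W_inv (v : HeightOneSpectrum (𝓞 L)) (a : L) : W v a⁻¹ = -W v a := by
  unfold W
  rw [map_inv₀, WithZero.log_inv]

/-- the primes in the denominator contain the denominator ideal -/
private theorem den_le (v : HeightOneSpectrum (𝓞 L)) {a : L} (ha : a ≠ 0) (h : 0 < W v a) :
    RefW.denIdealOf a ≤ v.asIdeal := by
  intro b hb
  obtain ⟨t, ht⟩ := hb
  rcases eq_or_ne b 0 with h0 | h0
  · rw [h0]
    exact Ideal.zero_mem _
  · have hL : (b : L) ≠ 0 := by
      intro h1
      exact h0 (by exact_mod_cast h1)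
    refine W_int_neg v h0 ?_
    have h1 := W_int_nonpos v t
    rw [ht, W_mul v hL ha] at h1
    linarith

/-- finitely many primes in the denominator -/
private theorem finite_pos {a : L} (ha : a ≠ 0) :
    {v : HeightOneSpectrum (𝓞 L) | 0 < W v a}.Finite := by
  refine (Ideal.finite_factors (RefW.denIdeal_norm_le a).1).subset fun v hv => ?_
  exact Ideal.dvd_iff_le.2 (den_le v ha hv)

theorem finite_ne {a : L} (ha : a ≠ 0) :
    {v : HeightOneSpectrum (𝓞 L) | W v a ≠ 0}.Finite := by
  refine ((finite_pos ha).union (finite_pos (inv_ne_zero ha))).subset fun v hv => ?_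
  rcases lt_trichotomy (W v a) 0 with h | h | h
  · right
    change 0 < W v a⁻¹
    rw [W_inv]
    linarith
  · exact absurd h hv
  · exact Or.inl h

/-- the product of the norms of the primes in the denominator -/
private theorem prod_norm_le {a : L} (ha : a ≠ 0) (P : Finset (HeightOneSpectrum (𝓞 L)))
    (hP : ∀ v ∈ P, 0 < W v a) :
    (∏ v ∈ P, (Ideal.absNorm v.asIdeal : ℝ)) ≤ Height.mulHeight₁ a := by
  obtain ⟨h0, h1⟩ := RefW.denIdeal_norm_le a
  have h2 : ∏ v ∈ P, v.asIdeal ∣ RefW.denIdealOf a := by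
    refine Finset.prod_dvd_of_coprime ?_ fun v hv => Ideal.dvd_iff_le.2 (den_le v ha (hP v hv))
    intro v _ w _ hvw
    change IsCoprime v.asIdeal w.asIdeal
    rw [Ideal.isCoprime_iff_sup_eq]
    exact v.isMaximal.coprime_of_ne w.isMaximal fun h => hvw (HeightOneSpectrum.ext h)
  have h3 : Ideal.absNorm (∏ v ∈ P, v.asIdeal) ∣ Ideal.absNorm (RefW.denIdealOf a) :=
    map_dvd Ideal.absNorm h2
  have h4 : Ideal.absNorm (RefW.denIdealOf a) ≠ 0 := by
    rw [Ne, Ideal.absNorm_eq_zero_iff]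
    exact h0
  have h5 := Nat.le_of_dvd (Nat.pos_of_ne_zero h4) h3
  rw [map_prod] at h5
  have h6 : (∏ v ∈ P, (Ideal.absNorm v.asIdeal : ℝ)) ≤ (Ideal.absNorm (RefW.denIdealOf a) : ℝ) := by
    exact_mod_cast h5
  have h7 : (1 : ℝ) ≤ ∏ σ : L →+* ℂ, max 1 ‖σ a‖ := by
    have h8 : ∏ _σ : L →+* ℂ, (1 : ℝ) ≤ ∏ σ : L →+* ℂ, max 1 ‖σ a‖ :=
      Finset.prod_le_prod (fun _ _ => zero_le_one) fun _ _ => le_max_left _ _
    rwa [Finset.prod_const_one] at h8
  calc (∏ v ∈ P, (Ideal.absNorm v.asIdeal : ℝ)) ≤ (Ideal.absNorm (RefW.denIdealOf a) : ℝ) * 1 := by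
        rw [mul_one]
        exact h6
    _ ≤ (Ideal.absNorm (RefW.denIdealOf a) : ℝ) * ∏ σ : L →+* ℂ, max 1 ‖σ a‖ :=
        mul_le_mul_of_nonneg_left h7 (Nat.cast_nonneg _)
    _ ≤ _ := h1

/-- the number of primes in the denominator -/
private theorem card_pos_le (L : Type) [Field L] [NumberField L] (X : ℕ) (hX : 2 ≤ X) :
    ∃ c : ℕ, ∀ (a : L) (_ : a ≠ 0) (P : Finset (HeightOneSpectrum (𝓞 L)))
      (_ : ∀ v ∈ P, 0 < W v a),
      (P.card : ℝ) ≤ c + Height.logHeight₁ a / Real.log X := by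
  classical
  have hfin : {v : HeightOneSpectrum (𝓞 L) | Ideal.absNorm v.asIdeal ≤ X}.Finite := by
    refine Set.Finite.of_finite_image (f := fun v : HeightOneSpectrum (𝓞 L) => v.asIdeal) ?_
      fun v _ w _ h => HeightOneSpectrum.ext h
    refine (Ideal.finite_setOfPred_absNorm_le (S := 𝓞 L) X).subset ?_
    rintro _ ⟨v, hv, rfl⟩
    exact hv
  refine ⟨hfin.toFinset.card, fun a ha P hP => ?_⟩
  have hlog : 0 < Real.log X := Real.log_pos (by exact_mod_cast hX)
  have h1 : P.card = (P.filter fun v => Ideal.absNorm v.asIdeal ≤ X).card +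
      (P.filter fun v => ¬ Ideal.absNorm v.asIdeal ≤ X).card :=
    (Finset.card_filter_add_card_filter_not _).symm
  have h2 : (P.filter fun v => Ideal.absNorm v.asIdeal ≤ X).card ≤ hfin.toFinset.card := by
    refine Finset.card_le_card fun v hv => ?_
    rw [Set.Finite.mem_toFinset]
    exact (Finset.mem_filter.1 hv).2
  have h3 : (X : ℝ) ^ (P.filter fun v => ¬ Ideal.absNorm v.asIdeal ≤ X).card ≤
      Height.mulHeight₁ a := by
    refine le_trans ?_ (prod_norm_le ha (P.filter fun v => ¬ Ideal.absNorm v.asIdeal ≤ X)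
      fun v hv => hP v (Finset.mem_filter.1 hv).1)
    rw [← Finset.prod_const]
    refine Finset.prod_le_prod (fun _ _ => Nat.cast_nonneg _) fun v hv => ?_
    have := (Finset.mem_filter.1 hv).2
    exact_mod_cast (not_le.1 this).le
  have h4 : ((P.filter fun v => ¬ Ideal.absNorm v.asIdeal ≤ X).card : ℝ) * Real.log X ≤
      Height.logHeight₁ a := by
    rw [Height.logHeight₁_eq_log_mulHeight₁, ← Real.log_pow]
    exact Real.log_le_log (by positivity) h3
  rw [h1]
  push_cast
  refine add_le_add (by exact_mod_cast h2) ?_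
  rw [le_div_iff₀ hlog]
  exact h4

/-- The number of primes at which an element is not a unit. -/
theorem omega_bound (L : Type) [Field L] [NumberField L] (η : ℝ) (hη : 0 < η) :
    ∃ C : ℝ, 1 ≤ C ∧ ∀ (a : L) (_ : a ≠ 0) (P : Finset (HeightOneSpectrum (𝓞 L)))
      (_ : ∀ v ∈ P, W v a ≠ 0), (2 : ℝ) ^ P.card ≤ C * Real.exp (η * Height.logHeight₁ a) := by
  classical
  obtain ⟨X, hX⟩ := exists_nat_ge (max 2 (Real.exp (2 * Real.log 2 / η)))
  have hX2 : 2 ≤ X := by exact_mod_cast (le_max_left _ _).trans hX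
  have hlogX : 2 * Real.log 2 / η ≤ Real.log X := by
    rw [Real.le_log_iff_exp_le (by exact_mod_cast (by omega : 0 < X))]
    exact (le_max_right _ _).trans hX
  have hlogX0 : 0 < Real.log X := Real.log_pos (by exact_mod_cast hX2)
  obtain ⟨c, hc⟩ := card_pos_le L X hX2
  have hlog2 : 0 < Real.log 2 := Real.log_pos one_lt_two
  refine ⟨Real.exp (2 * c * Real.log 2), Real.one_le_exp (by positivity), fun a ha P hP => ?_⟩
  have h1 : P.card = (P.filter fun v => 0 < W v a).card + (P.filter fun v => ¬ 0 < W v a).card :=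
    (Finset.card_filter_add_card_filter_not _).symm
  have h2 := hc a ha (P.filter fun v => 0 < W v a) fun v hv => (Finset.mem_filter.1 hv).2
  have h3 := hc a⁻¹ (inv_ne_zero ha) (P.filter fun v => ¬ 0 < W v a) fun v hv => by
    obtain ⟨hv1, hv2⟩ := Finset.mem_filter.1 hv
    rw [W_inv]
    have := hP v hv1
    omega
  have h4 : Height.logHeight₁ a⁻¹ = Height.logHeight₁ a := by
    rw [Height.logHeight₁_eq_log_mulHeight₁, Height.logHeight₁_eq_log_mulHeight₁,
      Height.mulHeight₁_inv]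
  rw [h4] at h3
  have h5 : (P.card : ℝ) ≤ 2 * c + 2 * (Height.logHeight₁ a / Real.log X) := by
    rw [h1]
    push_cast
    linarith
  have h0 : 0 ≤ Height.logHeight₁ a := Height.zero_le_logHeight₁ a
  rw [← Real.exp_add]
  have h6 : (2 : ℝ) ^ P.card = Real.exp (P.card * Real.log 2) := by
    rw [mul_comm, Real.exp_mul, Real.exp_log two_pos, Real.rpow_natCast]
  rw [h6]
  refine Real.exp_le_exp.2 ?_
  have h7 : 2 * (Height.logHeight₁ a / Real.log X) * Real.log 2 ≤ η * Height.logHeight₁ a := by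
    rw [div_le_iff₀ hη] at hlogX
    rw [show 2 * (Height.logHeight₁ a / Real.log X) * Real.log 2 =
      (2 * Real.log 2) * Height.logHeight₁ a / Real.log X by ring, div_le_iff₀ hlogX0]
    nlinarith
  calc (P.card : ℝ) * Real.log 2 ≤ (2 * c + 2 * (Height.logHeight₁ a / Real.log X)) * Real.log 2 :=
        mul_le_mul_of_nonneg_right h5 hlog2.le
    _ ≤ _ := by linarith

end Pool.Agent.TW
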