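import Pool.Agent.TW.Main
import Pool.Agent.HD.LowerProj

/-!
# The height inequality for the points of a double cover over the rational points of the line
-/

set_option autoImplicit false

open Height Module Polynomial NumberField

namespace Pool.Agent.TW

/-- at most two points over every abscissa -/
theorem fibre_two {k : Type} [Field k] [NumberField k] (f : k[X]) (T : ℝ)
    (x : AlgebraicClosure k) (V : Set (AlgebraicClosure k × AlgebraicClosure k))
    (hV : V ⊆ Pts k f T) : (V ∩ Prod.fst ⁻¹' {x}).Finite ∧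
      ((V ∩ Prod.fst ⁻¹' {x}).ncard : ℝ) ≤ 2 := by
  classical
  set s : Finset (AlgebraicClosure k) := (X ^ 2 - Polynomial.C (aeval x f) :
    (AlgebraicClosure k)[X]).roots.toFinset with hs
  have hsub : V ∩ Prod.fst ⁻¹' {x} ⊆ (fun y => (x, y)) '' (s : Set (AlgebraicClosure k)) := by
    rintro P ⟨hP, hPx⟩
    have hPx' : P.1 = x := hPx
    refine ⟨P.2, ?_, ?_⟩
    · rw [hs, Finset.mem_coe, Multiset.mem_toFinset,
        mem_roots (monic_X_pow_sub_C _ two_ne_zero).ne_zero, IsRoot.def, eval_sub, eval_pow,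
        eval_X, eval_C, (hV hP).1, hPx', sub_self]
    · rw [← hPx']
  have hfin : ((fun y => (x, y)) '' (s : Set (AlgebraicClosure k))).Finite :=
    (Finset.finite_toSet _).image _
  refine ⟨hfin.subset hsub, ?_⟩
  have h6 : (V ∩ Prod.fst ⁻¹' {x}).ncard ≤ 2 := by
    refine (Set.ncard_le_ncard hsub hfin).trans ?_
    refine (Set.ncard_image_le (Finset.finite_toSet _)).trans ?_
    rw [Set.ncard_coe_finset, hs]
    refine (Multiset.toFinset_card_le _).trans ((card_roots' _).trans ?_)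
    rw [natDegree_X_pow_sub_C]
  exact_mod_cast h6

/-- The points which violate the height inequality. -/
theorem q1_pts (hcl : ∀ (L : Type) [Field L] [NumberField L], ClassBound L) (k : Type)
    [Field k] [NumberField k] (f : k[X]) (hf : Squarefree f) (hdeg : 3 ≤ f.natDegree) {r : ℕ}
    (p : Fin r → ℕ) [∀ t, Fact (p t).Prime] (hp : Function.Injective p) (g : k[X])
    (hg : Squarefree g) (q : ℕ) (hq : q = g.natDegree ∨ q = g.natDegree + 1) (A ε a η : ℝ)
    (ha0 : 0 ≤ a) (ha2 : a ≤ 2) (hE : 2 * (A + a - ε) ≤ 2 - a) (hη : 0 < η) :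
    ∃ C : ℝ, ∀ T : ℝ, 0 ≤ T →
      {P ∈ Pts k f T | aeval P.1 g ≠ 0 ∧ HD.logDiscr P + ε * AA.height P.1 <
          AA.proximity p g q P.1 + A * AA.height P.1}.Finite ∧
      ({P ∈ Pts k f T | aeval P.1 g ≠ 0 ∧ HD.logDiscr P + ε * AA.height P.1 <
          AA.proximity p g q P.1 + A * AA.height P.1}.ncard : ℝ) ≤
        C * Real.exp ((2 - a + η) * finrank ℚ k * T) := by
  classical
  set Ω := AlgebraicClosure k with hΩ
  set A' : ℝ := max (A + a - ε) 0 with hA'
  have hA'0 : 0 ≤ A' := le_max_right _ _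
  obtain ⟨C₁, h₁⟩ := near_all_one k p hp g hg q hq 1 le_rfl a η ha0 ha2 hη
  obtain ⟨C₂, h₂⟩ := viol_pts hcl k f hf hdeg A' 0 η hA'0 le_rfl hη
  have hd : (0 : ℝ) ≤ finrank ℚ k := by positivity
  have hexp : 2 * A' + η ≤ 2 - a + η := by
    rcases max_cases (A + a - ε) 0 with ⟨h, _⟩ | ⟨h, _⟩
    · rw [hA', h]
      linarith
    · rw [hA', h]
      linarith
  refine ⟨max C₁ 0 * 2 + max C₂ 0, fun T hT => ?_⟩
  set V : Set (Ω × Ω) := {P ∈ Pts k f T | aeval P.1 g ≠ 0 ∧
    HD.logDiscr P + ε * AA.height P.1 <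
      AA.proximity p g q P.1 + A * AA.height P.1} with hV
  set B : ℝ := Real.exp (finrank ℚ k * T) with hB
  have hB1 : 1 ≤ B := Real.one_le_exp (by positivity)
  obtain ⟨hn1, hn2⟩ := h₁ B hB1
  obtain ⟨hv1, hv2⟩ := h₂ T hT
  set V₁ : Set (Ω × Ω) := {P ∈ Pts k f T | aeval P.1 g ≠ 0 ∧
      a * AA.height P.1 ≤ AA.proximity p g q P.1} with hV₁
  have hBpow : B ^ (((1 : ℕ) : ℝ) + 1 - a + η) =
      Real.exp ((2 - a + η) * finrank ℚ k * T) := by
    rw [hB, ← Real.exp_mul]
    congr 1
    push_cast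
    ring
  have hnear := AA.UpperAux.ncard_le_of_fiber V₁ Prod.fst _ hn1 ?_ 2 ?_
  · have hsub : V ⊆ V₁ ∪ {P ∈ Pts k f T | HD.logDiscr P ≤ A' * AA.height P.1 + 0} := by
      rintro P ⟨hP, hP2, hP3⟩
      rcases le_or_gt (a * AA.height P.1) (AA.proximity p g q P.1) with h | h
      · exact Or.inl ⟨hP, hP2, h⟩
      · refine Or.inr ⟨hP, ?_⟩
        have h4 : (A + a - ε) * AA.height P.1 ≤ A' * AA.height P.1 :=
          mul_le_mul_of_nonneg_right (le_max_left _ _) (AA.UpperAux.height_nonneg _)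
        have h5 : (A + a - ε) * AA.height P.1 =
            A * AA.height P.1 + a * AA.height P.1 - ε * AA.height P.1 := by ring
        linarith
    refine ⟨(hnear.1.union hv1).subset hsub, ?_⟩
    have h5 : (V.ncard : ℝ) ≤ V₁.ncard +
        {P ∈ Pts k f T | HD.logDiscr P ≤ A' * AA.height P.1 + 0}.ncard := by
      exact_mod_cast (Set.ncard_le_ncard hsub (hnear.1.union hv1)).trans
        (Set.ncard_union_le _ _)
    set E : ℝ := Real.exp ((2 - a + η) * finrank ℚ k * T) with hE'
    have hE0 : 0 ≤ E := (Real.exp_pos _).le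
    have h6 : (V₁.ncard : ℝ) ≤ max C₁ 0 * E * 2 := by
      refine hnear.2.trans (mul_le_mul_of_nonneg_right (hn2.trans ?_) zero_le_two)
      rw [hBpow]
      exact mul_le_mul_of_nonneg_right (le_max_left _ _) hE0
    have h7 : ({P ∈ Pts k f T | HD.logDiscr P ≤ A' * AA.height P.1 + 0}.ncard : ℝ) ≤
        max C₂ 0 * E := by
      refine hv2.trans ?_
      refine mul_le_mul (le_max_left _ _) ?_ (Real.exp_pos _).le (le_max_right _ _)
      apply Real.exp_le_exp.2
      exact mul_le_mul_of_nonneg_right (mul_le_mul_of_nonneg_right hexp hd) hT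
    calc (V.ncard : ℝ) ≤ max C₁ 0 * E * 2 + max C₂ 0 * E := h5.trans (add_le_add h6 h7)
      _ = _ := by ring
  · rintro P ⟨⟨hP1, hP2, hP3⟩, hP5, hP6⟩
    refine ⟨hP2, ?_, hP5, hP6⟩
    rw [AA.UpperAux.relHeight_eq, AA.UpperAux.finrank_eq _ 1 hP2, hB]
    apply Real.exp_le_exp.2
    push_cast
    rw [mul_one]
    exact mul_le_mul_of_nonneg_left hP3 hd
  · intro x _
    exact fibre_two f T x V₁ fun P hP => hP.1

/-- Many quadratic points. -/
theorem lower_pts (hcl : ∀ (L : Type) [Field L] [NumberField L], ClassBound L) (k : Type)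
    [Field k] [NumberField k] (f : k[X]) (hf : Squarefree f) (hdeg : 3 ≤ f.natDegree) :
    ∃ c T₀ : ℝ, 0 < c ∧ ∀ T : ℝ, T₀ ≤ T →
      ∃ S : Finset (AlgebraicClosure k × AlgebraicClosure k),
        c * Real.exp (2 * finrank ℚ k * T) ≤ (S.card : ℝ) ∧
        ∀ P ∈ S, P ∈ Pts k f T ∧ finrank k (IntermediateField.adjoin k {P.1, P.2}) = 2 := by
  classical
  set Ω := AlgebraicClosure k with hΩ
  obtain ⟨c, B₀, hc, h⟩ := HD.lower_all k 1 le_rfl
  have hB0 : 0 ≤ SST.logDisc k := by
    unfold SST.logDisc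
    exact div_nonneg (Real.log_nonneg (AA.UpperAux.one_le_discr k)) (Nat.cast_nonneg _)
  obtain ⟨C, hC⟩ := viol_pts hcl k f hf hdeg 0 (SST.logDisc k) 1 le_rfl hB0 one_pos
  have hd : (0 : ℝ) < finrank ℚ k := Nat.cast_pos.2 finrank_pos
  set C' : ℝ := max C 1 with hC'
  have hC'1 : 1 ≤ C' := le_max_right _ _
  refine ⟨c / 2, max (max (Real.log (max B₀ 1) / finrank ℚ k) 0)
    (Real.log (2 * C' / c) / finrank ℚ k), by positivity, fun T hT => ?_⟩
  have hT1 : Real.log (max B₀ 1) ≤ T * finrank ℚ k := by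
    rw [← div_le_iff₀ hd]
    exact (le_max_left _ _).trans ((le_max_left _ _).trans hT)
  have hT0 : 0 ≤ T := (le_max_right _ _).trans ((le_max_left _ _).trans hT)
  have hT2 : Real.log (2 * C' / c) ≤ T * finrank ℚ k := by
    rw [← div_le_iff₀ hd]
    exact (le_max_right _ _).trans hT
  have hB : B₀ ≤ Real.exp (finrank ℚ k * T) := by
    refine (le_max_left B₀ 1).trans ?_
    rw [← Real.log_le_iff_le_exp (lt_of_lt_of_le one_pos (le_max_right _ _))]
    linarith
  obtain ⟨S, hS1, hS2⟩ := h _ hB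
  have hy : ∀ x : Ω, ∃ y : Ω, y ^ 2 = aeval x f := fun x => IsAlgClosed.exists_pow_nat_eq _ two_pos
  choose y hy using hy
  have hinj : Function.Injective fun x : Ω => (x, y x) := fun a b hab => (Prod.ext_iff.1 hab).1
  set S₁ : Finset (Ω × Ω) := S.image fun x => (x, y x) with hS₁
  have hS₁c : S₁.card = S.card := Finset.card_image_of_injective _ hinj
  have hS₁m : ∀ P ∈ S₁, P ∈ Pts k f T := by
    intro P hP
    obtain ⟨x, hx, rfl⟩ := Finset.mem_image.1 hP
    obtain ⟨h1, h2⟩ := hS2 x hx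
    refine ⟨hy x, h1, ?_⟩
    rw [AA.UpperAux.relHeight_eq, AA.UpperAux.finrank_eq _ 1 h1] at h2
    push_cast at h2
    rw [mul_one] at h2
    exact le_of_mul_le_mul_left (Real.exp_le_exp.1 h2) hd
  obtain ⟨hv1, hv2⟩ := hC T hT0
  set V : Finset (Ω × Ω) := hv1.toFinset with hV
  refine ⟨S₁ \ V, ?_, ?_⟩
  · have h1 : (S.card : ℝ) ≤ ((S₁ \ V).card : ℝ) + V.card := by
      rw [← hS₁c]
      exact_mod_cast Finset.card_le_card_sdiff_add_card
    have h2 : (V.card : ℝ) ≤ C * Real.exp ((2 * 0 + 1) * finrank ℚ k * T) := by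
      rw [hV, ← Set.ncard_eq_toFinset_card _ hv1]
      exact hv2
    have h3 : Real.exp (finrank ℚ k * T) ^ (1 + 1) = Real.exp (2 * finrank ℚ k * T) := by
      rw [← Real.exp_nat_mul]
      congr 1
      push_cast
      ring
    rw [h3] at hS1
    set X : ℝ := Real.exp (finrank ℚ k * T) with hX
    have hX0 : 0 < X := Real.exp_pos _
    have h4 : Real.exp (2 * finrank ℚ k * T) = X * X := by
      rw [hX, ← Real.exp_add]
      congr 1
      ring
    have h5 : Real.exp ((2 * 0 + 1) * finrank ℚ k * T) = X := by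
      rw [hX]
      congr 1
      ring
    have h6 : 2 * C' / c ≤ X := by
      rw [hX, ← Real.log_le_iff_le_exp (by positivity)]
      linarith
    rw [div_le_iff₀ hc] at h6
    have h7 : C ≤ C' := le_max_left _ _
    rw [h4] at hS1 ⊢
    rw [h5] at h2
    have h8 : C * X ≤ C' * X := mul_le_mul_of_nonneg_right h7 hX0.le
    have h9 : 2 * C' * X ≤ X * c * X := mul_le_mul_of_nonneg_right h6 hX0.le
    nlinarith
  · intro P hP
    rw [Finset.mem_sdiff] at hP
    obtain ⟨hP1, hP2⟩ := hP
    have hPm := hS₁m P hP1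
    refine ⟨hPm, ?_⟩
    have h1 : ¬ HD.logDiscr P ≤ 0 * AA.height P.1 + SST.logDisc k := by
      intro h1
      apply hP2
      rw [hV, Set.Finite.mem_toFinset]
      exact ⟨hPm, h1⟩
    obtain ⟨x, hx⟩ := exists_of_finrank_one P.1 hPm.2.1
    have h2 : IntermediateField.adjoin k {P.1, P.2} = IntermediateField.adjoin k {P.2} := by
      apply le_antisymm
      · rw [IntermediateField.adjoin_le_iff]
        intro z hz
        rcases hz with rfl | hz
        · rw [← hx]
          exact IntermediateField.algebraMap_mem _ _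
        · rw [Set.mem_singleton_iff.1 hz]
          exact IntermediateField.mem_adjoin_simple_self k _
      · exact IntermediateField.adjoin.mono k _ _ (by simp)
    have h3 : P.2 ^ 2 = algebraMap k Ω (f.eval x) := by
      rw [hPm.1, ← hx, aeval_algebraMap_apply, coe_aeval_eq_eval]
    rcases finrank_sqrt (f.eval x) P.2 h3 with h4 | h4
    · exfalso
      apply h1
      have h5 : IntermediateField.adjoin k {P.1, P.2} = ⊥ := by
        rw [h2]
        exact IntermediateField.finrank_eq_one_iff.1 h4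
      rw [zero_mul, zero_add]
      let φ : IntermediateField.adjoin k {P.1, P.2} →+* k :=
        (((IntermediateField.equivOfEq h5).trans (IntermediateField.botEquiv k Ω)) :
          IntermediateField.adjoin k {P.1, P.2} →+* k)
      let : Algebra (IntermediateField.adjoin k {P.1, P.2}) k := φ.toAlgebra
      exact HD.logDisc_le_of_algebra _ _
    · rw [h2]
      exact h4

end Pool.Agent.TW
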