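import Pool.Agent.TW.Half
import Pool.Agent.HD.Cells

/-!
# The number of abscissas of small height on a twist

The recursion `N(T) ≤ M (1 + 2 N(T / 2 + C))` and the bound for `N(T)` which it gives.
-/

set_option autoImplicit false

open Height Module

namespace Pool.Agent.TW

variable {L : Type} [Field L] [NumberField L]

/-- the abscissas of the points with `y ≠ 0` of height at most `T` on `δ y² = f(x)` -/
def pts (e : Fin 3 → L) (δ : L) (T : ℝ) : Set L :=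
  {x | logHeight₁ x ≤ T ∧ ∃ y, y ≠ 0 ∧ δ * y ^ 2 = cub e x}

theorem pts_finite (e : Fin 3 → L) (δ : L) (T : ℝ) : (pts e δ T).Finite :=
  (NumberField.finite_setOfPred_logHeight₁_le L T).subset fun _ hx => hx.1

theorem pts_mono (e : Fin 3 → L) (δ : L) {T T' : ℝ} (h : T ≤ T') : pts e δ T ⊆ pts e δ T' :=
  fun _ hx => ⟨hx.1.trans h, hx.2⟩

/-- One step of the recursion. -/
theorem rec_step (e : Fin 3 → L) (he : Function.Injective e) : ∃ C : ℝ, 0 ≤ C ∧
    ∀ (δ : L) (T : ℝ) (M : ℕ) (φ : L → Fin M), δ ≠ 0 →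
      (∀ x ∈ pts e δ T, ∀ x' ∈ pts e δ T, φ x = φ x' → ∀ i, IsSquare ((x - e i) * (x' - e i))) →
      (pts e δ T).ncard ≤ M * (1 + 2 * (pts e δ (T / 2 + C)).ncard) := by
  classical
  obtain ⟨C, hC0, hC⟩ := exists_half e he
  refine ⟨C, hC0, fun δ T M φ hδ hφ => ?_⟩
  set S : Finset L := (pts_finite e δ T).toFinset with hS
  set S' : Finset L := (pts_finite e δ (T / 2 + C)).toFinset with hS'
  have hmem : ∀ x, x ∈ S ↔ x ∈ pts e δ T := fun x => Set.Finite.mem_toFinset _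
  have hmem' : ∀ x, x ∈ S' ↔ x ∈ pts e δ (T / 2 + C) := fun x => Set.Finite.mem_toFinset _
  rw [Set.ncard_eq_toFinset_card _ (pts_finite e δ T),
    Set.ncard_eq_toFinset_card _ (pts_finite e δ (T / 2 + C)), ← hS, ← hS']
  have hclass : ∀ j : Fin M, (S.filter (fun x => φ x = j)).card ≤ 1 + 2 * S'.card := by
    intro j
    rcases (S.filter (fun x => φ x = j)).eq_empty_or_nonempty with h0 | ⟨x₁, hx₁⟩
    · rw [h0, Finset.card_empty]
      exact Nat.zero_le _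
    · rw [Finset.mem_filter] at hx₁
      obtain ⟨hx₁S, hx₁j⟩ := hx₁
      have hx₁p := (hmem x₁).1 hx₁S
      obtain ⟨hh₁, y₁, hy₁, hc₁⟩ := hx₁p
      have hcub₁ : cub e x₁ ≠ 0 := by
        rw [← hc₁]
        exact mul_ne_zero hδ (pow_ne_zero 2 hy₁)
      set R : Finset L := (S.filter (fun x => φ x = j)).erase x₁ with hR
      have hex : ∀ x₂ ∈ R, ∃ ξ, ξ ∈ S' ∧ rel e x₁ x₂ (dup e ξ) := by
        intro x₂ hx₂
        rw [hR, Finset.mem_erase, Finset.mem_filter] at hx₂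
        obtain ⟨hne, hx₂S, hx₂j⟩ := hx₂
        have hx₂p := (hmem x₂).1 hx₂S
        obtain ⟨hh₂, y₂, hy₂, hc₂⟩ := hx₂p
        obtain ⟨ξ, η, k1, k2, k3, k4⟩ := hC δ x₁ x₂ y₁ y₂ hδ (Ne.symm hne) hy₁ hy₂ hc₁ hc₂
          (hφ x₁ ((hmem x₁).1 hx₁S) x₂ ((hmem x₂).1 hx₂S) (hx₁j.trans hx₂j.symm))
        refine ⟨ξ, (hmem' ξ).2 ⟨?_, η, k1, k2⟩, k4⟩
        linarith
      choose! g hg using hex
      have hcard : R.card ≤ 2 * (R.image g).card := by
        refine Finset.card_le_mul_card_image R 2 fun ξ _ => ?_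
        refine card_rel e (by norm_num) x₁ (dup e ξ) hcub₁ _ fun x hx => ?_
        rw [Finset.mem_filter] at hx
        have := (hg x hx.1).2
        rwa [hx.2] at this
      have himg : (R.image g).card ≤ S'.card := by
        refine Finset.card_le_card fun ξ hξ => ?_
        obtain ⟨x, hx, rfl⟩ := Finset.mem_image.1 hξ
        exact (hg x hx).1
      have h1 : (S.filter (fun x => φ x = j)).card = R.card + 1 := by
        rw [hR, Finset.card_erase_add_one (Finset.mem_filter.2 ⟨hx₁S, hx₁j⟩)]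
      omega
  calc S.card = ∑ j : Fin M, (S.filter (fun x => φ x = j)).card :=
        Finset.card_eq_sum_card_fiberwise fun x _ => Finset.mem_coe.2 (Finset.mem_univ _)
    _ ≤ ∑ _j : Fin M, (1 + 2 * S'.card) := Finset.sum_le_sum fun j _ => hclass j
    _ = M * (1 + 2 * S'.card) := by rw [Finset.sum_const, Finset.card_univ, Fintype.card_fin,
        smul_eq_mul]

/-- The trivial bound. -/
theorem trivial_bound (L : Type) [Field L] [NumberField L] : ∃ C : ℝ, 1 ≤ C ∧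
    ∀ T : ℝ, 0 ≤ T → ({x : L | logHeight₁ x ≤ T}.ncard : ℝ) ≤ C * Real.exp (2 * T) := by
  obtain ⟨C, hC1, hC⟩ := HD.card_height_le (finrank ℚ L) finrank_pos
  refine ⟨C, hC1, fun T hT => ?_⟩
  have hd : (0 : ℝ) < finrank ℚ L := Nat.cast_pos.2 finrank_pos
  obtain ⟨-, h1⟩ := hC L rfl (T / finrank ℚ L) (by positivity)
  have h2 : {x : L | SST.ht L x ≤ T / finrank ℚ L} = {x : L | logHeight₁ x ≤ T} := by
    ext x
    simp only [Set.mem_ofPred_eq]
    unfold SST.ht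
    rw [div_le_div_iff_of_pos_right hd]
  rw [h2] at h1
  refine h1.trans (le_of_eq ?_)
  congr 2
  field_simp

/-- The count on a twist of a cubic, if the number of classes is bounded by `C exp (η T)` for every
`η > 0`. -/
theorem count_of_classes (e : Fin 3 → L) (he : Function.Injective e)
    (hcl : ∀ η : ℝ, 0 < η → ∃ C : ℝ, ∀ T : ℝ, 0 ≤ T → ∀ δ : L, δ ≠ 0 →
      ∃ (M : ℕ) (φ : L → Fin M), (M : ℝ) ≤ C * Real.exp (η * T) ∧
        ∀ x ∈ pts e δ T, ∀ x' ∈ pts e δ T, φ x = φ x' → ∀ i, IsSquare ((x - e i) * (x' - e i)))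
    (η : ℝ) (hη : 0 < η) : ∃ C : ℝ, ∀ T : ℝ, 0 ≤ T → ∀ δ : L, δ ≠ 0 →
      ((pts e δ T).ncard : ℝ) ≤ C * Real.exp (η * T) := by
  obtain ⟨C₀, hC₀, hrec⟩ := rec_step e he
  obtain ⟨C₁, hC₁, htriv⟩ := trivial_bound L
  -- the number of steps
  obtain ⟨J, hJ⟩ : ∃ J : ℕ, (2 : ℝ) / 2 ^ J ≤ η / 2 := by
    obtain ⟨J, hJ⟩ := pow_unbounded_of_one_lt (4 / η) (one_lt_two : (1 : ℝ) < 2)
    refine ⟨J, ?_⟩
    rw [div_lt_iff₀ hη] at hJ
    rw [div_le_iff₀ (by positivity)]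
    nlinarith
  set η' : ℝ := η / (2 * (J + 1)) with hη'
  have hη'0 : 0 < η' := by positivity
  obtain ⟨C₂, hC₂⟩ := hcl η' hη'0
  have hC₂1 : 1 ≤ C₂ := by
    obtain ⟨M, φ, h1, -⟩ := hC₂ 0 le_rfl 1 one_ne_zero
    have h2 : 0 < M := lt_of_le_of_lt (Nat.zero_le _) (φ 0).2
    have h3 : (1 : ℝ) ≤ M := by exact_mod_cast h2
    rw [mul_zero, Real.exp_zero, mul_one] at h1
    linarith
  -- the recursion
  have key : ∀ (T : ℝ), 2 * C₀ ≤ T → ∀ δ : L, δ ≠ 0 → ∀ j : ℕ, ∀ T' : ℝ, 0 ≤ T' → T' ≤ T →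
      ((pts e δ T').ncard : ℝ) ≤ (3 * (C₂ * Real.exp (η' * T))) ^ j *
        (C₁ * Real.exp (2 * (T' / 2 ^ j + 2 * C₀ * (1 - 1 / 2 ^ j)))) := by
    intro T hT δ hδ j
    induction j with
    | zero =>
      intro T' hT'0 hT'
      rw [pow_zero, one_mul, pow_zero, div_one, div_one, sub_self, mul_zero, add_zero]
      have h1 : ((pts e δ T').ncard : ℝ) ≤ ({x : L | logHeight₁ x ≤ T'}.ncard : ℝ) := by
        have h0 : pts e δ T' ⊆ {x : L | logHeight₁ x ≤ T'} := fun x hx => hx.1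
        exact_mod_cast Set.ncard_le_ncard h0 (NumberField.finite_setOfPred_logHeight₁_le L T')
      exact h1.trans (htriv T' hT'0)
    | succ j ih =>
      intro T' hT'0 hT'
      obtain ⟨M, φ, hM, hφ⟩ := hC₂ T (by linarith) δ hδ
      have h1 := hrec δ T' M φ hδ fun x hx x' hx' => hφ x (pts_mono e δ hT' hx) x'
        (pts_mono e δ hT' hx')
      have h2 : ((pts e δ T').ncard : ℝ) ≤
          M * (1 + 2 * ((pts e δ (T' / 2 + C₀)).ncard : ℝ)) := by exact_mod_cast h1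
      have h3 := ih (T' / 2 + C₀) (by linarith) (by linarith)
      set Q : ℝ := (3 * (C₂ * Real.exp (η' * T))) ^ j *
        (C₁ * Real.exp (2 * ((T' / 2 + C₀) / 2 ^ j + 2 * C₀ * (1 - 1 / 2 ^ j)))) with hQ
      have hex : 1 ≤ Real.exp (η' * T) := Real.one_le_exp (by
        have : 0 ≤ T := by linarith
        positivity)
      have hbase : 1 ≤ 3 * (C₂ * Real.exp (η' * T)) := by nlinarith
      have hQ1 : 1 ≤ Q := by
        have a1 : 1 ≤ (3 * (C₂ * Real.exp (η' * T))) ^ j := one_le_pow₀ hbase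
        have a0 : (0 : ℝ) ≤ 1 - 1 / 2 ^ j := by
          have : (1 : ℝ) / 2 ^ j ≤ 1 := by
            rw [div_le_one (by positivity)]
            exact one_le_pow₀ (by norm_num)
          linarith
        have a2 : 1 ≤ Real.exp (2 * ((T' / 2 + C₀) / 2 ^ j + 2 * C₀ * (1 - 1 / 2 ^ j))) :=
          Real.one_le_exp (by positivity)
        have a3 : 1 ≤ C₁ *
            Real.exp (2 * ((T' / 2 + C₀) / 2 ^ j + 2 * C₀ * (1 - 1 / 2 ^ j))) := by nlinarith
        rw [hQ]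
        exact one_le_mul_of_one_le_of_one_le a1 a3
      have h4 : ((pts e δ T').ncard : ℝ) ≤ C₂ * Real.exp (η' * T) * (3 * Q) := by
        refine h2.trans ?_
        refine mul_le_mul hM (by linarith) (by positivity) (by positivity)
      refine h4.trans (le_of_eq ?_)
      have h5 : (T' / 2 + C₀) / 2 ^ j + 2 * C₀ * (1 - 1 / 2 ^ j) =
          T' / 2 ^ (j + 1) + 2 * C₀ * (1 - 1 / 2 ^ (j + 1)) := by
        rw [pow_succ]
        field_simp
        ring
      rw [hQ, h5, pow_succ]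
      ring
  refine ⟨(3 * C₂) ^ J * (C₁ * Real.exp (4 * C₀)) * Real.exp (η * (2 * C₀)), fun T hT δ hδ => ?_⟩
  set T₁ : ℝ := max T (2 * C₀) with hT₁
  have hT₁0 : 0 ≤ T₁ := hT.trans (le_max_left _ _)
  have h1 : ((pts e δ T).ncard : ℝ) ≤ ((pts e δ T₁).ncard : ℝ) := by
    exact_mod_cast Set.ncard_le_ncard (pts_mono e δ (le_max_left _ _)) (pts_finite e δ T₁)
  have h2 := key T₁ (le_max_right _ _) δ hδ J T₁ hT₁0 le_rfl
  have hJ0 : (0 : ℝ) < J + 1 := by positivity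
  have h3 : (3 * (C₂ * Real.exp (η' * T₁))) ^ J ≤ (3 * C₂) ^ J * Real.exp (η / 2 * T₁) := by
    have e1 : (3 * (C₂ * Real.exp (η' * T₁))) ^ J = (3 * C₂) ^ J * Real.exp (J * (η' * T₁)) := by
      rw [← mul_assoc, mul_pow, ← Real.exp_nat_mul]
    rw [e1]
    refine mul_le_mul_of_nonneg_left (Real.exp_le_exp.2 ?_) (by positivity)
    have e2 : (J : ℝ) * η' ≤ η / 2 := by
      rw [hη', ← mul_div_assoc, div_le_div_iff₀ (by positivity) (by norm_num)]
      nlinarith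
    calc (J : ℝ) * (η' * T₁) = J * η' * T₁ := by ring
      _ ≤ η / 2 * T₁ := mul_le_mul_of_nonneg_right e2 hT₁0
  have h4 : Real.exp (2 * (T₁ / 2 ^ J + 2 * C₀ * (1 - 1 / 2 ^ J))) ≤
      Real.exp (4 * C₀) * Real.exp (η / 2 * T₁) := by
    rw [← Real.exp_add]
    refine Real.exp_le_exp.2 ?_
    have e1 : 2 * (T₁ / 2 ^ J) ≤ η / 2 * T₁ := by
      calc 2 * (T₁ / 2 ^ J) = 2 / 2 ^ J * T₁ := by ring
        _ ≤ η / 2 * T₁ := mul_le_mul_of_nonneg_right hJ hT₁0
    have e2 : 2 * C₀ * (1 - 1 / 2 ^ J) ≤ 2 * C₀ := by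
      have : (0 : ℝ) ≤ 1 / 2 ^ J := by positivity
      nlinarith
    linarith
  have h5 : Real.exp (η * T₁) ≤ Real.exp (η * (2 * C₀)) * Real.exp (η * T) := by
    rw [← Real.exp_add]
    refine Real.exp_le_exp.2 ?_
    have : T₁ ≤ 2 * C₀ + T := max_le (by linarith) (by linarith)
    nlinarith
  calc ((pts e δ T).ncard : ℝ) ≤ ((pts e δ T₁).ncard : ℝ) := h1
    _ ≤ (3 * (C₂ * Real.exp (η' * T₁))) ^ J *
        (C₁ * Real.exp (2 * (T₁ / 2 ^ J + 2 * C₀ * (1 - 1 / 2 ^ J)))) := h2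
    _ ≤ ((3 * C₂) ^ J * Real.exp (η / 2 * T₁)) *
        (C₁ * (Real.exp (4 * C₀) * Real.exp (η / 2 * T₁))) := by
        refine mul_le_mul h3 (mul_le_mul_of_nonneg_left h4 (by linarith)) (by positivity)
          (by positivity)
    _ = (3 * C₂) ^ J * (C₁ * Real.exp (4 * C₀)) * Real.exp (η * T₁) := by
        have : Real.exp (η * T₁) = Real.exp (η / 2 * T₁) * Real.exp (η / 2 * T₁) := by
          rw [← Real.exp_add]
          congr 1
          ring
        rw [this]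
        ring
    _ ≤ (3 * C₂) ^ J * (C₁ * Real.exp (4 * C₀)) *
        (Real.exp (η * (2 * C₀)) * Real.exp (η * T)) :=
        mul_le_mul_of_nonneg_left h5 (by positivity)
    _ = _ := by ring

end Pool.Agent.TW
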