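import Mathlib.NumberTheory.NumberField.Units.DirichletTheorem
import Mathlib.NumberTheory.NumberField.ClassNumber
import Mathlib.RingTheory.DedekindDomain.AdicValuation
import Mathlib.RingTheory.DedekindDomain.Factorization
import Mathlib.GroupTheory.FiniteAbelian.Basic

/-!
# Classes modulo squares in a number field

The nonzero elements of a number field `L` whose valuations are even outside a finite set `S` of
primes fall into at most `κ 2 ^ #S` classes modulo squares.
-/

set_option autoImplicit false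

open NumberField IsDedekindDomain WithZero

namespace Pool.Agent.TW

/-- minus the additive valuation -/
noncomputable def W {L : Type} [Field L] [NumberField L] (v : HeightOneSpectrum (𝓞 L)) (a : L) : ℤ :=
  WithZero.log (v.valuation L a)

theorem W_mul {L : Type} [Field L] [NumberField L] (v : HeightOneSpectrum (𝓞 L)) {a b : L}
    (ha : a ≠ 0) (hb : b ≠ 0) : W v (a * b) = W v a + W v b := by
  unfold W
  rw [map_mul, WithZero.log_mul ((Valuation.ne_zero_iff _).2 ha) ((Valuation.ne_zero_iff _).2 hb)]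

theorem W_pow {L : Type} [Field L] [NumberField L] (v : HeightOneSpectrum (𝓞 L)) (a : L) (n : ℕ) :
    W v (a ^ n) = n * W v a := by
  unfold W
  rw [map_pow, WithZero.log_pow, nsmul_eq_mul]

/-- the exponent of `v` in an ideal -/
private noncomputable def cnt {L : Type} [Field L] [NumberField L] (I : Ideal (𝓞 L))
    (v : HeightOneSpectrum (𝓞 L)) : ℕ :=
  open Classical in (Associates.mk v.asIdeal).count (Associates.mk I).factors

private theorem W_int {L : Type} [Field L] [NumberField L] (v : HeightOneSpectrum (𝓞 L))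
    {a : 𝓞 L} (ha : a ≠ 0) : W v (a : L) = -(cnt (Ideal.span {a}) v : ℤ) := by
  classical
  unfold W cnt
  have h1 : v.valuation L (a : L) = v.intValuation a := v.valuation_of_algebraMap a
  rw [h1, v.intValuation_if_neg ha, WithZero.log_exp]

private theorem finprod_ne_zero' {L : Type} [Field L] [NumberField L]
    (f : HeightOneSpectrum (𝓞 L) → ℕ) : ∏ᶠ v : HeightOneSpectrum (𝓞 L), v.asIdeal ^ f v ≠ 0 := by
  refine finprod_induction (p := fun I : Ideal (𝓞 L) => I ≠ 0) one_ne_zero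
    (fun I J hI hJ => mul_ne_zero hI hJ) fun v => pow_ne_zero _ v.ne_bot

/-- an ideal is the product of an ideal which depends only on the parities and a square -/
private theorem decomp {L : Type} [Field L] [NumberField L] (I : Ideal (𝓞 L)) (hI : I ≠ 0) :
    ∃ B : Ideal (𝓞 L), B ≠ 0 ∧
      I = (∏ᶠ v : HeightOneSpectrum (𝓞 L), v.asIdeal ^ (cnt I v % 2)) * B ^ 2 := by
  classical
  refine ⟨∏ᶠ v : HeightOneSpectrum (𝓞 L), v.asIdeal ^ (cnt I v / 2), finprod_ne_zero' _, ?_⟩
  have hfin : {v : HeightOneSpectrum (𝓞 L) | cnt I v ≠ 0}.Finite := by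
    refine (Ideal.finite_factors hI).subset ?_
    intro v hv
    exact (Associates.count_ne_zero_iff_dvd hI v.irreducible).1 hv
  have hs : ∀ f : ℕ → ℕ, f 0 = 0 →
      ∏ᶠ v : HeightOneSpectrum (𝓞 L), v.asIdeal ^ f (cnt I v) =
        ∏ v ∈ hfin.toFinset, v.asIdeal ^ f (cnt I v) := by
    intro f hf
    refine finprod_eq_prod_of_mulSupport_subset _ ?_
    intro v hv
    rw [Set.Finite.coe_toFinset]
    intro h0
    apply hv
    change v.asIdeal ^ f (cnt I v) = 1
    rw [h0, hf, pow_zero]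
  have h1 := Ideal.finprod_heightOneSpectrum_factorization hI
  have h2 : ∏ᶠ v : HeightOneSpectrum (𝓞 L), v.asIdeal ^ (cnt I v) = I := by
    conv_rhs => rw [← h1]
    exact finprod_congr fun v => rfl
  conv_lhs => rw [← h2]
  rw [hs (fun n => n) rfl, hs (fun n => n % 2) rfl, hs (fun n => n / 2) rfl,
    ← Finset.prod_pow, ← Finset.prod_mul_distrib]
  refine Finset.prod_congr rfl fun v _ => ?_
  rw [← pow_mul, ← pow_add]
  congr 1
  omega

/-- the part of the class of an integer which comes from the class group -/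
private noncomputable def bb {L : Type} [Field L] [NumberField L] (a : 𝓞 L) : Ideal (𝓞 L) :=
  open Classical in
  if h : Ideal.span {a} ≠ (0 : Ideal (𝓞 L)) then (decomp (Ideal.span {a}) h).choose else 1

private theorem bb_ne_zero {L : Type} [Field L] [NumberField L] (a : 𝓞 L) : bb a ≠ 0 := by
  unfold bb
  split_ifs with h
  · exact (decomp _ h).choose_spec.1
  · exact one_ne_zero

private theorem span_eq {L : Type} [Field L] [NumberField L] {a : 𝓞 L} (ha : a ≠ 0) :
    Ideal.span {a} = (∏ᶠ v : HeightOneSpectrum (𝓞 L),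
      v.asIdeal ^ (cnt (Ideal.span {a}) v % 2)) * bb a ^ 2 := by
  have h : Ideal.span {a} ≠ (0 : Ideal (𝓞 L)) := by
    rw [Ne, Ideal.zero_eq_bot, Ideal.span_singleton_eq_bot]
    exact ha
  unfold bb
  rw [dif_pos h]
  exact (decomp _ h).choose_spec.2

/-- two integers with the same data differ by a unit and a square -/
private theorem rel_of_code {L : Type} [Field L] [NumberField L] {a b : 𝓞 L} (ha : a ≠ 0)
    (hb : b ≠ 0)
    (hpar : ∀ v, cnt (Ideal.span {a}) v % 2 = cnt (Ideal.span {b}) v % 2)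
    (hcl : ClassGroup.mk0 ⟨bb a, mem_nonZeroDivisors_of_ne_zero (bb_ne_zero a)⟩ =
      ClassGroup.mk0 ⟨bb b, mem_nonZeroDivisors_of_ne_zero (bb_ne_zero b)⟩) :
    ∃ (u : (𝓞 L)ˣ) (x y : 𝓞 L), x ≠ 0 ∧ y ≠ 0 ∧ x ^ 2 * a * u = y ^ 2 * b := by
  obtain ⟨x, y, hx, hy, hxy⟩ := ClassGroup.mk0_eq_mk0_iff.1 hcl
  have hxy' : Ideal.span {x} * bb a = Ideal.span {y} * bb b := hxy
  have h1 := span_eq ha
  have h2 := span_eq hb
  have h3 : (∏ᶠ v : HeightOneSpectrum (𝓞 L), v.asIdeal ^ (cnt (Ideal.span {a}) v % 2)) =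
      ∏ᶠ v : HeightOneSpectrum (𝓞 L), v.asIdeal ^ (cnt (Ideal.span {b}) v % 2) :=
    finprod_congr fun v => by rw [hpar v]
  rw [h3] at h1
  set J := ∏ᶠ v : HeightOneSpectrum (𝓞 L), v.asIdeal ^ (cnt (Ideal.span {b}) v % 2) with hJ
  have h4 : Ideal.span {x ^ 2 * a} = Ideal.span {y ^ 2 * b} := by
    rw [← Ideal.span_singleton_mul_span_singleton, ← Ideal.span_singleton_mul_span_singleton,
      ← Ideal.span_singleton_pow, ← Ideal.span_singleton_pow, h1, h2]
    calc Ideal.span {x} ^ 2 * (J * bb a ^ 2) = J * (Ideal.span {x} * bb a) ^ 2 := by ring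
      _ = J * (Ideal.span {y} * bb b) ^ 2 := by rw [hxy']
      _ = _ := by ring
  obtain ⟨u, hu⟩ := Ideal.span_singleton_eq_span_singleton.1 h4
  exact ⟨u, x, y, hx, hy, hu⟩

/-- the units modulo squares -/
private abbrev UQ (L : Type) [Field L] [NumberField L] : Type :=
  (𝓞 L)ˣ ⧸ (powMonoidHom 2 : (𝓞 L)ˣ →* (𝓞 L)ˣ).range

private theorem finite_UQ (L : Type) [Field L] [NumberField L] : Finite (UQ L) := by
  have h0 : Group.FG (𝓞 L)ˣ := Group.fg_iff_monoid_fg.2 inferInstance
  have h1 : Group.FG (UQ L) := QuotientGroup.fg _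
  refine CommGroup.finite_of_fg_isMulTorsion (G := UQ L) ?_
  intro q
  induction q using QuotientGroup.induction_on with
  | H u =>
    rw [isOfFinOrder_iff_pow_eq_one]
    refine ⟨2, two_pos, ?_⟩
    rw [← QuotientGroup.mk_pow, QuotientGroup.eq_one_iff]
    exact ⟨u, rfl⟩

/-- an integer in the class of `a` -/
private theorem exists_int {L : Type} [Field L] [NumberField L] (a : L) :
    ∃ (α : 𝓞 L) (t : L), t ≠ 0 ∧ (α : L) = a * t ^ 2 := by
  obtain ⟨c, b, hb, rfl⟩ := IsFractionRing.div_surjective (𝓞 L) a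
  have hb0 : b ≠ 0 := nonZeroDivisors.ne_zero hb
  have hbL : (b : L) ≠ 0 := by
    intro h
    exact hb0 (by exact_mod_cast h)
  refine ⟨c * b, b, hbL, ?_⟩
  push_cast
  field_simp

/-- the integer in the class of `a` -/
private noncomputable def num {L : Type} [Field L] [NumberField L] (a : L) : 𝓞 L :=
  (exists_int a).choose

private theorem num_spec {L : Type} [Field L] [NumberField L] (a : L) :
    ∃ t : L, t ≠ 0 ∧ (num a : L) = a * t ^ 2 :=
  (exists_int a).choose_spec

private theorem num_ne_zero {L : Type} [Field L] [NumberField L] {a : L} (ha : a ≠ 0) :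
    num a ≠ 0 := by
  obtain ⟨t, ht, h⟩ := num_spec a
  intro h0
  rw [h0] at h
  have h1 : a * t ^ 2 = 0 := by
    rw [← h]
    rfl
  exact mul_ne_zero ha (pow_ne_zero _ ht) h1

/-- the parities of the exponents -/
private theorem cnt_mod {L : Type} [Field L] [NumberField L] {a : L} (ha : a ≠ 0)
    (v : HeightOneSpectrum (𝓞 L)) (hv : Even (W v a)) : cnt (Ideal.span {num a}) v % 2 = 0 := by
  obtain ⟨t, ht, h⟩ := num_spec a
  have h1 := W_int v (num_ne_zero ha)
  rw [h, W_mul v ha (pow_ne_zero _ ht), W_pow] at h1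
  obtain ⟨r, hr⟩ := hv
  push_cast at h1
  omega

/-- the data of `a` -/
private noncomputable def code {L : Type} [Field L] [NumberField L]
    (S : Finset (HeightOneSpectrum (𝓞 L))) (a : L) : (S → Fin 2) × ClassGroup (𝓞 L) :=
  (fun v => ⟨cnt (Ideal.span {num a}) v.1 % 2, Nat.mod_lt _ two_pos⟩,
    ClassGroup.mk0 ⟨bb (num a), mem_nonZeroDivisors_of_ne_zero (bb_ne_zero (num a))⟩)

private theorem rel_of_code_eq {L : Type} [Field L] [NumberField L]
    (S : Finset (HeightOneSpectrum (𝓞 L))) {a b : L} (ha : a ≠ 0) (hb : b ≠ 0)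
    (hae : ∀ v, v ∉ S → Even (W v a)) (hbe : ∀ v, v ∉ S → Even (W v b))
    (h : code S a = code S b) :
    ∃ (u : (𝓞 L)ˣ) (x y : 𝓞 L), x ≠ 0 ∧ y ≠ 0 ∧ x ^ 2 * num a * u = y ^ 2 * num b := by
  refine rel_of_code (num_ne_zero ha) (num_ne_zero hb) (fun v => ?_) (congrArg Prod.snd h)
  by_cases hv : v ∈ S
  · have h1 := congrFun (congrArg Prod.fst h) ⟨v, hv⟩
    exact congrArg Fin.val h1
  · rw [cnt_mod ha v (hae v hv), cnt_mod hb v (hbe v hv)]

/-- a representative for every value of the code -/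
private noncomputable def rep {L : Type} [Field L] [NumberField L]
    (S : Finset (HeightOneSpectrum (𝓞 L))) (c : (S → Fin 2) × ClassGroup (𝓞 L)) : L :=
  open Classical in
  if h : ∃ a : L, a ≠ 0 ∧ (∀ v, v ∉ S → Even (W v a)) ∧ code S a = c then h.choose else 1

private theorem rel_rep {L : Type} [Field L] [NumberField L]
    (S : Finset (HeightOneSpectrum (𝓞 L))) {a : L} (ha : a ≠ 0)
    (hae : ∀ v, v ∉ S → Even (W v a)) :
    ∃ (u : (𝓞 L)ˣ) (x y : 𝓞 L), x ≠ 0 ∧ y ≠ 0 ∧
      x ^ 2 * num a * u = y ^ 2 * num (rep S (code S a)) := by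
  have h : ∃ b : L, b ≠ 0 ∧ (∀ v, v ∉ S → Even (W v b)) ∧ code S b = code S a :=
    ⟨a, ha, hae, rfl⟩
  have h1 : rep S (code S a) = h.choose := by
    unfold rep
    rw [dif_pos h]
  rw [h1]
  obtain ⟨h2, h3, h4⟩ := h.choose_spec
  exact rel_of_code_eq S ha h2 hae h3 h4.symm

private theorem rep_ne_zero {L : Type} [Field L] [NumberField L]
    (S : Finset (HeightOneSpectrum (𝓞 L))) (c : (S → Fin 2) × ClassGroup (𝓞 L)) :
    rep S c ≠ 0 := by
  unfold rep
  split_ifs with h
  · exact h.choose_spec.1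
  · exact one_ne_zero

open Classical in
private noncomputable def unitOf {L : Type} [Field L] [NumberField L]
    (S : Finset (HeightOneSpectrum (𝓞 L))) (a : L) : (𝓞 L)ˣ :=
  if h : ∃ (u : (𝓞 L)ˣ) (x y : 𝓞 L), x ≠ 0 ∧ y ≠ 0 ∧
      x ^ 2 * num a * u = y ^ 2 * num (rep S (code S a)) then h.choose else 1

/-- classes modulo squares -/
theorem sq_classes (L : Type) [Field L] [NumberField L] : ∃ κ : ℕ,
    ∀ S : Finset (HeightOneSpectrum (𝓞 L)), ∃ (M : ℕ) (ψ : L → Fin M), M ≤ κ * 2 ^ S.card ∧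
      ∀ a b : L, a ≠ 0 → b ≠ 0 → (∀ v, v ∉ S → Even (W v a)) → (∀ v, v ∉ S → Even (W v b)) →
        ψ a = ψ b → IsSquare (a * b) := by
  classical
  have := finite_UQ L
  refine ⟨Nat.card (ClassGroup (𝓞 L)) * Nat.card (UQ L), fun S => ?_⟩
  refine ⟨Nat.card (((S → Fin 2) × ClassGroup (𝓞 L)) × UQ L),
    fun a => Finite.equivFin _ (code S a, (QuotientGroup.mk (unitOf S a) : UQ L)), ?_, ?_⟩
  · rw [Nat.card_prod, Nat.card_prod, Nat.card_fun, Nat.card_eq_fintype_card,
      Nat.card_eq_fintype_card (α := S), Fintype.card_fin, Fintype.card_coe]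
    exact (by ring_nf; exact le_rfl)
  · intro a b ha hb hae hbe h
    have h1 := (Finite.equivFin _).injective h
    have hcode : code S a = code S b := congrArg Prod.fst h1
    have hunit : (QuotientGroup.mk (unitOf S a) : UQ L) = QuotientGroup.mk (unitOf S b) :=
      congrArg Prod.snd h1
    have ea := rel_rep S ha hae
    have eb := rel_rep S hb hbe
    have ua : unitOf S a = ea.choose := by
      unfold unitOf
      rw [dif_pos ea]
    have ub : unitOf S b = eb.choose := by
      unfold unitOf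
      rw [dif_pos eb]
    obtain ⟨x, y, hx, hy, hxy⟩ := ea.choose_spec
    obtain ⟨x', y', hx', hy', hxy'⟩ := eb.choose_spec
    rw [← ua] at hxy
    rw [← ub, ← hcode] at hxy'
    obtain ⟨w, hw⟩ := (QuotientGroup.eq.1 hunit : (unitOf S a)⁻¹ * unitOf S b ∈
      (powMonoidHom 2 : (𝓞 L)ˣ →* (𝓞 L)ˣ).range)
    have hw' : unitOf S b = unitOf S a * w ^ 2 := by
      have : w ^ 2 = (unitOf S a)⁻¹ * unitOf S b := hw
      rw [this, mul_inv_cancel_left]
    rw [hw'] at hxy'
    set u := unitOf S a with hu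
    set ρ := num (rep S (code S a)) with hρ
    obtain ⟨t, ht, hta⟩ := num_spec a
    obtain ⟨s, hs, hsb⟩ := num_spec b
    -- in the field
    have c1 : (x : L) ^ 2 * (a * t ^ 2) * ((u : 𝓞 L) : L) = (y : L) ^ 2 * (ρ : L) := by
      rw [← hta]
      exact_mod_cast congrArg (algebraMap (𝓞 L) L) hxy
    have c2 : (x' : L) ^ 2 * (b * s ^ 2) * (((u : 𝓞 L) : L) * (((w : 𝓞 L) : L)) ^ 2) =
        (y' : L) ^ 2 * (ρ : L) := by
      rw [← hsb]
      have := congrArg (algebraMap (𝓞 L) L) hxy'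
      push_cast at this
      exact_mod_cast this
    have nz : ∀ z : 𝓞 L, z ≠ 0 → (z : L) ≠ 0 := fun z hz h => hz (by exact_mod_cast h)
    have hu0 : ((u : 𝓞 L) : L) ≠ 0 := nz _ u.ne_zero
    have hw0 : ((w : 𝓞 L) : L) ≠ 0 := nz _ w.ne_zero
    have hx0 := nz x hx
    have hx0' := nz x' hx'
    refine ⟨((y : L) * y' * ρ) / ((x : L) * x' * t * s * ((u : 𝓞 L) : L) * ((w : 𝓞 L) : L)), ?_⟩
    have key : (a * b) * ((x : L) * x' * t * s * ((u : 𝓞 L) : L) * ((w : 𝓞 L) : L)) ^ 2 =
        ((y : L) * y' * ρ) ^ 2 := by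
      calc (a * b) * ((x : L) * x' * t * s * ((u : 𝓞 L) : L) * ((w : 𝓞 L) : L)) ^ 2
          = ((x : L) ^ 2 * (a * t ^ 2) * ((u : 𝓞 L) : L)) *
            ((x' : L) ^ 2 * (b * s ^ 2) * (((u : 𝓞 L) : L) * (((w : 𝓞 L) : L)) ^ 2)) := by ring
        _ = ((y : L) * y' * ρ) ^ 2 := by rw [c1, c2]; ring
    rw [div_mul_div_comm, eq_div_iff (by positivity)]
    rw [← pow_two, key]
    ring

end Pool.Agent.TW
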