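import Pool.Agent.TW.Rec

/-!
# The number of points of small height on the twists of a hyperelliptic curve with rational
Weierstrass points, uniformly in the twist
-/

set_option autoImplicit false

open Height Module

namespace Pool.Agent.TW

variable {L : Type} [Field L] [NumberField L]

/-- the abscissas of height at most `T` of the points with `y ≠ 0` on `δ y² = c ∏ (x - e i)` -/
def ptsN {n : ℕ} (e : Fin n → L) (c δ : L) (T : ℝ) : Set L :=
  {x | logHeight₁ x ≤ T ∧ ∃ y, y ≠ 0 ∧ δ * y ^ 2 = c * ∏ i, (x - e i)}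

theorem ptsN_finite {n : ℕ} (e : Fin n → L) (c δ : L) (T : ℝ) : (ptsN e c δ T).Finite :=
  (NumberField.finite_setOfPred_logHeight₁_le L T).subset fun _ hx => hx.1

/-- the bound for the number of classes -/
def ClassBound (L : Type) [Field L] [NumberField L] : Prop :=
  ∀ (n : ℕ) (e : Fin n → L) (c : L) (η : ℝ), Odd n → Function.Injective e → c ≠ 0 → 0 < η →
    ∃ C : ℝ, ∀ (T : ℝ) (δ : L), 0 ≤ T → δ ≠ 0 → ∃ (M : ℕ) (φ : L → Fin M),
      (M : ℝ) ≤ C * Real.exp (η * T) ∧
      ∀ x ∈ ptsN e c δ T, ∀ x' ∈ ptsN e c δ T, φ x = φ x' → ∀ i, IsSquare ((x - e i) * (x' - e i))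

/-- The count for cubics. -/
theorem count_cubic (hL : ClassBound L) (e : Fin 3 → L) (he : Function.Injective e) (η : ℝ)
    (hη : 0 < η) : ∃ C : ℝ, ∀ T : ℝ, 0 ≤ T → ∀ δ : L, δ ≠ 0 →
      ((pts e δ T).ncard : ℝ) ≤ C * Real.exp (η * T) := by
  refine count_of_classes e he (fun η hη => ?_) η hη
  obtain ⟨C, hC⟩ := hL 3 e 1 η (by decide) he one_ne_zero hη
  refine ⟨C, fun T hT δ hδ => ?_⟩
  obtain ⟨M, φ, h1, h2⟩ := hC T δ hT hδ
  have h3 : pts e δ T = ptsN e 1 δ T := by
    unfold pts ptsN cub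
    simp only [Fin.prod_univ_three, one_mul]
  refine ⟨M, φ, h1, ?_⟩
  rw [h3]
  exact h2

/-- The count for polynomials of odd degree. -/
theorem count_odd (hL : ClassBound L) (n : ℕ) (hn : Odd n) (hn3 : 3 ≤ n) (e : Fin n → L)
    (he : Function.Injective e) (c : L) (hc : c ≠ 0) (η : ℝ) (hη : 0 < η) :
    ∃ C : ℝ, ∀ T : ℝ, 0 ≤ T → ∀ δ : L, δ ≠ 0 →
      ((ptsN e c δ T).ncard : ℝ) ≤ C * Real.exp (η * T) := by
  classical
  set ι : Fin 3 → Fin n := Fin.castLE hn3 with hι
  have hιinj : Function.Injective ι := Fin.castLE_injective hn3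
  obtain ⟨C₁, hC₁⟩ := count_cubic hL (e ∘ ι) (he.comp hιinj) (η / 2) (half_pos hη)
  obtain ⟨C₂, hC₂⟩ := hL n e c (η / 2) hn he hc (half_pos hη)
  have hC₁0 : 0 ≤ C₁ := by
    have h1 := hC₁ 0 le_rfl 1 one_ne_zero
    rw [mul_zero, Real.exp_zero, mul_one] at h1
    exact (Nat.cast_nonneg _).trans h1
  refine ⟨C₂ * C₁, fun T hT δ hδ => ?_⟩
  obtain ⟨M, φ, hM, hφ⟩ := hC₂ T δ hT hδ
  set S : Finset L := (ptsN_finite e c δ T).toFinset with hS
  have hmem : ∀ x, x ∈ S ↔ x ∈ ptsN e c δ T := fun x => Set.Finite.mem_toFinset _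
  rw [Set.ncard_eq_toFinset_card _ (ptsN_finite e c δ T), ← hS]
  have hne : ∀ x ∈ ptsN e c δ T, ∀ i, x - e i ≠ 0 := by
    rintro x ⟨-, y, hy, hxy⟩ i h
    have h1 : ∏ i, (x - e i) = 0 := Finset.prod_eq_zero (Finset.mem_univ i) h
    rw [h1, mul_zero] at hxy
    exact mul_ne_zero hδ (pow_ne_zero 2 hy) hxy
  have hclass : ∀ j : Fin M, ((S.filter (fun x => φ x = j)).card : ℝ) ≤
      C₁ * Real.exp (η / 2 * T) := by
    intro j
    rcases (S.filter (fun x => φ x = j)).eq_empty_or_nonempty with h0 | ⟨x₀, hx₀⟩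
    · rw [h0, Finset.card_empty, Nat.cast_zero]
      positivity
    · rw [Finset.mem_filter, hmem] at hx₀
      obtain ⟨hx₀p, hx₀j⟩ := hx₀
      have hcne : cub (e ∘ ι) x₀ ≠ 0 := by
        unfold cub
        exact mul_ne_zero (mul_ne_zero (hne x₀ hx₀p _) (hne x₀ hx₀p _)) (hne x₀ hx₀p _)
      have hsub : ((S.filter (fun x => φ x = j)) : Set L) ⊆ pts (e ∘ ι) (cub (e ∘ ι) x₀) T := by
        intro x hx
        rw [Finset.mem_coe, Finset.mem_filter, hmem] at hx
        obtain ⟨hxp, hxj⟩ := hx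
        have hsq := hφ x hxp x₀ hx₀p (hxj.trans hx₀j.symm)
        choose w hw using hsq
        refine ⟨hxp.1, w (ι 0) * w (ι 1) * w (ι 2) / cub (e ∘ ι) x₀, ?_, ?_⟩
        · have hw0 : ∀ i, w i ≠ 0 := by
            intro i h
            have h1 := hw i
            rw [h, mul_zero] at h1
            exact mul_ne_zero (hne x hxp i) (hne x₀ hx₀p i) h1
          exact div_ne_zero (mul_ne_zero (mul_ne_zero (hw0 _) (hw0 _)) (hw0 _)) hcne
        · have h1 : (w (ι 0) * w (ι 1) * w (ι 2)) ^ 2 = cub (e ∘ ι) x * cub (e ∘ ι) x₀ := by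
            unfold cub
            simp only [Function.comp_apply]
            calc (w (ι 0) * w (ι 1) * w (ι 2)) ^ 2 =
                (w (ι 0) * w (ι 0)) * (w (ι 1) * w (ι 1)) * (w (ι 2) * w (ι 2)) := by ring
              _ = _ := by rw [← hw, ← hw, ← hw]; ring
          rw [div_pow, h1]
          field_simp
      have h2 : (S.filter (fun x => φ x = j)).card ≤ (pts (e ∘ ι) (cub (e ∘ ι) x₀) T).ncard := by
        rw [← Set.ncard_coe_finset]
        exact Set.ncard_le_ncard hsub (pts_finite _ _ _)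
      have h3 : ((S.filter (fun x => φ x = j)).card : ℝ) ≤
          ((pts (e ∘ ι) (cub (e ∘ ι) x₀) T).ncard : ℝ) := by exact_mod_cast h2
      exact h3.trans (hC₁ T hT _ hcne)
  calc (S.card : ℝ) = ∑ j : Fin M, ((S.filter (fun x => φ x = j)).card : ℝ) := by
        rw [← Nat.cast_sum]
        congr 1
        exact Finset.card_eq_sum_card_fiberwise fun x _ => Finset.mem_coe.2 (Finset.mem_univ _)
    _ ≤ ∑ _j : Fin M, C₁ * Real.exp (η / 2 * T) := Finset.sum_le_sum fun j _ => hclass j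
    _ = M * (C₁ * Real.exp (η / 2 * T)) := by
        rw [Finset.sum_const, Finset.card_univ, Fintype.card_fin, nsmul_eq_mul]
    _ ≤ (C₂ * Real.exp (η / 2 * T)) * (C₁ * Real.exp (η / 2 * T)) :=
        mul_le_mul_of_nonneg_right hM (by positivity)
    _ = C₂ * C₁ * Real.exp (η * T) := by
        have : Real.exp (η * T) = Real.exp (η / 2 * T) * Real.exp (η / 2 * T) := by
          rw [← Real.exp_add]
          congr 1
          ring
        rw [this]
        ring

/-- The count for polynomials of even degree. -/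
theorem count_even (hL : ClassBound L) (m : ℕ) (hm : Odd m) (hm3 : 3 ≤ m) (e : Fin (m + 1) → L)
    (he : Function.Injective e) (c : L) (hc : c ≠ 0) (η : ℝ) (hη : 0 < η) :
    ∃ C : ℝ, ∀ T : ℝ, 0 ≤ T → ∀ δ : L, δ ≠ 0 →
      ((ptsN e c δ T).ncard : ℝ) ≤ C * Real.exp (η * T) := by
  set a : L := e (Fin.last m) with ha
  set e' : Fin m → L := fun i => (e i.castSucc - a)⁻¹ with he'
  have hd : ∀ i : Fin m, e i.castSucc - a ≠ 0 := by
    intro i h
    have := he (sub_eq_zero.1 h)
    exact (Fin.castSucc_lt_last i).ne this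
  have he'inj : Function.Injective e' := by
    intro i j hij
    have h1 : e i.castSucc - a = e j.castSucc - a := inv_injective hij
    have h2 := he (sub_left_injective h1)
    exact Fin.castSucc_injective m h2
  set P : L := ∏ i : Fin m, (e i.castSucc - a) with hP
  have hP0 : P ≠ 0 := Finset.prod_ne_zero_iff.2 fun i _ => hd i
  have hc' : -(c * P) ≠ 0 := neg_ne_zero.2 (mul_ne_zero hc hP0)
  obtain ⟨C, hC⟩ := count_odd hL m hm hm3 e' he'inj (-(c * P)) hc' η hη
  have hC0 : 0 ≤ C := by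
    have h1 := hC 0 le_rfl 1 one_ne_zero
    rw [mul_zero, Real.exp_zero, mul_one] at h1
    exact (Nat.cast_nonneg _).trans h1
  set K : ℝ := totalWeight L * Real.log 2 + logHeight₁ a with hK
  have hK0 : 0 ≤ K := by
    have h1 := zero_le_logHeight₁ a
    have h2 : 0 ≤ Real.log 2 := Real.log_nonneg one_le_two
    positivity
  obtain ⟨r, hr⟩ : ∃ r, m + 1 = 2 * r := by
    obtain ⟨t, ht⟩ := hm
    exact ⟨t + 1, by omega⟩
  refine ⟨C * Real.exp (η * K), fun T hT δ hδ => ?_⟩
  have hmaps : ∀ x ∈ ptsN e c δ T, (x - a)⁻¹ ∈ ptsN e' (-(c * P)) δ (T + K) := by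
    rintro x ⟨hx, y, hy, hxy⟩
    rw [Fin.prod_univ_castSucc, ← ha] at hxy
    have hne : c * ((∏ i : Fin m, (x - e i.castSucc)) * (x - a)) ≠ 0 := by
      rw [← hxy]
      exact mul_ne_zero hδ (pow_ne_zero 2 hy)
    have hxa : x - a ≠ 0 := fun h => hne (by rw [h, mul_zero, mul_zero])
    refine ⟨?_, y / (x - a) ^ r, div_ne_zero hy (pow_ne_zero r hxa), ?_⟩
    · rw [logHeight₁_inv]
      have := logHeight₁_sub_le x a
      linarith
    · have h1 : ∏ i : Fin m, ((x - a)⁻¹ - e' i) =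
          -(∏ i : Fin m, (x - e i.castSucc)) / ((x - a) ^ m * P) := by
        have h2 : ∀ i : Fin m, (x - a)⁻¹ - e' i =
            (-1) * (x - e i.castSucc) / ((x - a) * (e i.castSucc - a)) := by
          intro i
          have := hd i
          rw [he']
          field_simp
          ring
        rw [Finset.prod_congr rfl fun i _ => h2 i, Finset.prod_div_distrib,
          Finset.prod_mul_distrib, Finset.prod_mul_distrib, Finset.prod_const,
          Finset.prod_const, Finset.card_univ, Fintype.card_fin, hm.neg_one_pow, ← hP]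
        ring
      have h3 : -(c * P) * (-(∏ i : Fin m, (x - e i.castSucc)) / ((x - a) ^ m * P)) =
          c * (∏ i : Fin m, (x - e i.castSucc)) / (x - a) ^ m := by
        field_simp
      rw [h1, h3, div_pow, ← pow_mul, mul_comm r 2, ← hr, ← mul_div_assoc,
        div_eq_div_iff (pow_ne_zero _ hxa) (pow_ne_zero _ hxa), pow_succ]
      linear_combination (x - a) ^ m * hxy
  have hinj : Set.InjOn (fun x : L => (x - a)⁻¹) (ptsN e c δ T) := by
    intro x _ y _ h
    exact sub_left_injective (inv_injective h)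
  have h1 : (ptsN e c δ T).ncard ≤ (ptsN e' (-(c * P)) δ (T + K)).ncard :=
    Set.ncard_le_ncard_of_injOn _ hmaps hinj (ptsN_finite _ _ _ _)
  have h2 : ((ptsN e c δ T).ncard : ℝ) ≤ ((ptsN e' (-(c * P)) δ (T + K)).ncard : ℝ) := by
    exact_mod_cast h1
  refine h2.trans ((hC (T + K) (by linarith) δ hδ).trans (le_of_eq ?_))
  rw [mul_add, Real.exp_add]
  ring

/-- The count for all polynomials with at least three roots. -/
theorem count_split (hL : ClassBound L) (n : ℕ) (hn3 : 3 ≤ n) (e : Fin n → L)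
    (he : Function.Injective e) (c : L) (hc : c ≠ 0) (η : ℝ) (hη : 0 < η) :
    ∃ C : ℝ, ∀ T : ℝ, 0 ≤ T → ∀ δ : L, δ ≠ 0 →
      ((ptsN e c δ T).ncard : ℝ) ≤ C * Real.exp (η * T) := by
  rcases Nat.even_or_odd n with h | h
  · obtain ⟨m, rfl⟩ : ∃ m, n = m + 1 := ⟨n - 1, by omega⟩
    have hm : Odd m := by
      rcases Nat.even_or_odd m with h1 | h1
      · exact absurd h (Nat.not_even_iff_odd.2 h1.add_one)
      · exact h1
    refine count_even hL m hm ?_ e he c hc η hη
    obtain ⟨t, ht⟩ := hm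
    omega
  · exact count_odd hL n h hn3 e he c hc η hη

end Pool.Agent.TW
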